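import Pool.Agent.H16.GPS.Num.MollDef

/-!
JOB GPS-UNIF1 (MP_c183ae_nt). One exceptional modulus for all `ℓ' ∈ [ℓ/2, ℓ]`.

PROOF of `moll_unif`: copy of `Pool.Agent.H90.moll_small` (H90/Moll.lean). Apply `zeroFree` with `Q = exp (ℓ / (log ℓ)²)` (the
LARGE `ℓ`) and run the same proof for `ℓ'`; with `x = ℓ/(log ℓ)²`, `x' = ℓ'/(log ℓ')²` one has `x' ≤ x ≤ 4 x'` for large `ℓ`
(`ℓ/2 ≤ ℓ' ≤ ℓ`), so `q ≤ exp x' ≤ Q`, `x ≤ Λ ≤ 2 x ≤ 8 x'`, and the proof goes through with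
`η = c₁ (log ℓ')² / (8 ℓ')` instead of `c₁ (log ℓ')²/(2 ℓ')` (adjust the constants in the eventual conditions). ~250 lines, mostly copied.
-/

set_option autoImplicit false

open Complex Finset Filter Topology

namespace Pool.Agent.H16.GPS

open Pool.Agent.H16 Pool.Agent.H90

theorem moll_unif (δ : ℝ) (hδ : 0 < δ) (A : ℝ) (Y : ℕ) : ∃ L0 : ℝ, ∀ ℓ : ℝ, L0 ≤ ℓ →
    ∃ q₁ : ℕ, Y < q₁ ∧ ∀ ℓ' : ℝ, ℓ / 2 ≤ ℓ' → ℓ' ≤ ℓ → MollAt δ A ℓ' q₁ := by
  obtain ⟨c₁, hc₁, B, hB⟩ := zeroFree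
  obtain ⟨Q₀, hQ₀⟩ := hB Y
  set P : ℝ := |A| with hP
  set B' : ℝ := |B| with hB'
  have hP0 : 0 ≤ P := abs_nonneg _
  have hB0 : 0 ≤ B' := abs_nonneg _
  set D : ℝ := P + B' + 12 with hD
  set E : ℝ := D + B' + P + 7 with hE
  have hD0 : 12 ≤ D := by rw [hD]; linarith
  -- eventual conditions
  have hlogtop := Real.tendsto_log_atTop
  have ev : ∀ᶠ ℓ : ℝ in atTop, 4 ≤ ℓ ∧ 4 * Real.exp (2 * δ) ≤ ℓ ∧ 1 / δ ≤ ℓ ∧ 64 / c₁ ^ 2 ≤ ℓ ∧
      2 ≤ Real.log ℓ ∧ 4 * E / (c₁ * δ) ≤ Real.log ℓ ∧ c₁ * (Real.log ℓ) ^ 2 ≤ ℓ ∧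
      (D + 2) * (Real.log ℓ) ^ 3 ≤ ℓ ∧ Real.log (max Q₀ 1) * (Real.log ℓ) ^ 2 ≤ ℓ := by
    filter_upwards [eventually_ge_atTop (4 : ℝ), eventually_ge_atTop (4 * Real.exp (2 * δ)),
      eventually_ge_atTop (1 / δ), eventually_ge_atTop (64 / c₁ ^ 2),
      hlogtop.eventually_ge_atTop 2, hlogtop.eventually_ge_atTop (4 * E / (c₁ * δ)),
      eventually_log_pow_le 2 c₁, eventually_log_pow_le 3 (D + 2),
      eventually_log_pow_le 2 (Real.log (max Q₀ 1))] with ℓ h1 h2 h3 h4 h5 h6 h7 h8 h9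
    exact ⟨h1, h2, h3, h4, h5, h6, h7, h8, h9⟩
  obtain ⟨L0, hL0⟩ := eventually_atTop.mp ev
  refine ⟨2 * max L0 0, fun L hL => ?_⟩
  have hLL0 : L0 ≤ L := by
    have h1 := le_max_left L0 0
    have h2 := le_max_right L0 0
    linarith
  obtain ⟨-, -, -, -, hL5, -, -, -, hL9⟩ := hL0 L hLL0
  set lgL := Real.log L with hlgL
  have hlgL0 : 0 < lgL := by linarith
  set xL := L / lgL ^ 2 with hxL
  set Qr := Real.exp xL with hQr
  have hQ0 : Q₀ ≤ Qr := by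
    have h10 : Real.log (max Q₀ 1) ≤ xL := by
      rw [hxL, le_div_iff₀ (by positivity)]; exact hL9
    have h11 : 0 < max Q₀ 1 := lt_of_lt_of_le one_pos (le_max_right _ _)
    calc Q₀ ≤ max Q₀ 1 := le_max_left _ _
      _ = Real.exp (Real.log (max Q₀ 1)) := (Real.exp_log h11).symm
      _ ≤ Qr := Real.exp_le_exp.mpr h10
  obtain ⟨q₁, hq₁, hmain⟩ := hQ₀ Qr hQ0
  refine ⟨q₁, hq₁, fun ℓ hℓL hℓL' => ?_⟩
  have hℓ : L0 ≤ ℓ := by
    have h1 := le_max_left L0 0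
    linarith
  obtain ⟨h1, h2, h3, h4, h5, h6, h7, h8, h9⟩ := hL0 ℓ hℓ
  have hℓ0 : 0 < ℓ := by linarith
  set lg := Real.log ℓ with hlg
  have hlg0 : 0 < lg := by linarith
  set x := ℓ / lg ^ 2 with hx
  have hx1 : (D + 2) * lg ≤ x := by
    rw [hx, le_div_iff₀ (by positivity)]
    calc (D + 2) * lg * lg ^ 2 = (D + 2) * lg ^ 3 := by ring
      _ ≤ ℓ := h8
  have hx0 : 0 < x := by positivity
  have hlgle : lg ≤ lgL := Real.log_le_log hℓ0 hℓL'
  have hxL2 : xL ≤ 2 * x := by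
    rw [hxL, hx, mul_div_assoc']
    calc L / lgL ^ 2 ≤ (2 * ℓ) / lgL ^ 2 := by
          apply div_le_div_of_nonneg_right _ (by positivity)
          linarith
      _ ≤ (2 * ℓ) / lg ^ 2 := by
          apply div_le_div_of_nonneg_left (by positivity) (by positivity)
          exact pow_le_pow_left₀ hlg0.le hlgle 2
  have hxxL : x ≤ xL := by
    rw [hxL, hx, div_le_div_iff₀ (by positivity) (by positivity)]
    set r := lgL - lg with hr
    have hr0 : 0 ≤ r := by linarith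
    have hLr : L = ℓ * Real.exp r := by
      rw [hr, hlgL, hlg, ← Real.log_div (by linarith) hℓ0.ne', Real.exp_log (by
        apply div_pos _ hℓ0
        linarith)]
      field_simp
    have h10 : 1 + r + r ^ 2 / 2 ≤ Real.exp r := Real.quadratic_le_exp_of_nonneg hr0
    have h11 : lgL ^ 2 ≤ lg ^ 2 * Real.exp r := by
      have h12 : lgL = lg + r := by rw [hr]; ring
      have h13 : lg + r ≤ lg * (1 + r / 2) := by
        clear * - hr0 h5
        nlinarith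
      have h14 : (lg + r) ^ 2 ≤ (lg * (1 + r / 2)) ^ 2 := pow_le_pow_left₀ (by linarith) h13 2
      rw [h12]
      calc (lg + r) ^ 2 ≤ (lg * (1 + r / 2)) ^ 2 := h14
        _ = lg ^ 2 * (1 + r + r ^ 2 / 4) := by ring
        _ ≤ lg ^ 2 * Real.exp r := by
            apply mul_le_mul_of_nonneg_left _ (by positivity)
            have : 0 ≤ r ^ 2 := sq_nonneg r
            linarith
    rw [hLr]
    calc ℓ * lgL ^ 2 ≤ ℓ * (lg ^ 2 * Real.exp r) := mul_le_mul_of_nonneg_left h11 hℓ0.le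
      _ = ℓ * Real.exp r * lg ^ 2 := by ring
  intro q _ hqx hdvd χ hχ t ht
  have hqQ : (q : ℝ) ≤ Qr := by
    have hq0 : (0 : ℝ) < q := by exact_mod_cast Nat.pos_of_ne_zero (NeZero.ne q)
    calc (q : ℝ) = Real.exp (Real.log q) := (Real.exp_log hq0).symm
      _ ≤ _ := Real.exp_le_exp.mpr (le_trans hqx hxxL)
  set s : ℂ := ((1 + 1 / ℓ : ℝ) : ℂ) + t * I with hs
  have hsre : s.re = 1 + 1 / ℓ := by simp [hs]
  have hsim : s.im = t := by simp [hs]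
  set η := c₁ * lg ^ 2 / (4 * ℓ) with hη
  have hη0 : 0 < η := by positivity
  set T := ℓ ^ D with hT
  have hT0 : 0 < T := by positivity
  set M := ℓ ^ B' with hM
  have hℓ1 : 1 ≤ ℓ := by linarith
  have hlow : ∀ w : ℂ, -η ≤ w.re → |w.im| ≤ T → DirichletCharacter.LFunction χ (s + w) ≠ 0 ∧
      ‖1 / DirichletCharacter.LFunction χ (s + w)‖ ≤ M := by
    intro w hw1 hw2
    set Λ := Real.log (Qr * (|(s + w).im| + 2)) with hΛ
    have him : |(s + w).im| + 2 ≤ ℓ ^ (D + 1) := by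
      rw [Complex.add_im, hsim]
      have h10 : |t| ≤ ℓ ^ D := ht.trans (Real.rpow_le_rpow_of_exponent_le hℓ1 (by
        have := le_abs_self A
        linarith))
      have h11 : (1 : ℝ) ≤ ℓ ^ D := Real.one_le_rpow hℓ1 (by linarith)
      calc |t + w.im| + 2 ≤ |t| + |w.im| + 2 := by linarith [abs_add_le t w.im]
        _ ≤ ℓ ^ D + ℓ ^ D + 2 * ℓ ^ D := by linarith
        _ = 4 * ℓ ^ D := by ring
        _ ≤ ℓ * ℓ ^ D := by gcongr
        _ = ℓ ^ (D + 1) := by rw [Real.rpow_add hℓ0 D 1, Real.rpow_one]; ring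
    have him0 : 0 < |(s + w).im| + 2 := by positivity
    have hΛle : Λ ≤ 4 * x := by
      rw [hΛ, Real.log_mul (Real.exp_pos xL).ne' him0.ne', Real.log_exp]
      have h10 : Real.log (|(s + w).im| + 2) ≤ (D + 1) * lg := by
        rw [hlg, ← Real.log_rpow hℓ0]
        exact Real.log_le_log him0 him
      clear * - h10 hx1 hlg0 hxL2 hx0
      nlinarith
    have hΛge : x ≤ Λ := by
      rw [hΛ, Real.log_mul (Real.exp_pos xL).ne' him0.ne', Real.log_exp]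
      have h10 : 0 ≤ Real.log (|(s + w).im| + 2) := Real.log_nonneg (by
        linarith [abs_nonneg (s + w).im])
      linarith
    have hΛ1 : 1 ≤ Λ := by
      clear * - hΛge hx1 hlg0 h5 hD0
      nlinarith
    have hΛℓ : Λ ≤ ℓ := by
      refine hΛle.trans ?_
      rw [hx, mul_div_assoc', div_le_iff₀ (by positivity)]
      have h10 : 4 ≤ lg ^ 2 := by
        clear * - h5
        nlinarith
      clear * - h10 hℓ0
      nlinarith
    have hcond : 1 - c₁ / Λ ≤ (s + w).re := by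
      rw [Complex.add_re, hsre]
      have h10 : η ≤ c₁ / Λ := by
        have h11 : c₁ / (4 * x) ≤ c₁ / Λ := by gcongr
        have h12 : c₁ / (4 * x) = η := by
          rw [hx, hη]; field_simp
        linarith
      have h13 : 0 < 1 / ℓ := by positivity
      linarith
    have h10 := hmain q hqQ hdvd χ hχ (s + w) hcond
    rw [← hΛ] at h10
    have h11 : 0 < Λ ^ (-B) := by positivity
    have h12 : 0 < ‖DirichletCharacter.LFunction χ (s + w)‖ := lt_of_lt_of_le h11 h10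
    refine ⟨norm_pos_iff.mp h12, ?_⟩
    rw [norm_div, norm_one]
    calc 1 / ‖DirichletCharacter.LFunction χ (s + w)‖ ≤ 1 / Λ ^ (-B) :=
          one_div_le_one_div_of_le h11 h10
      _ = Λ ^ B := by rw [Real.rpow_neg (by linarith), one_div, inv_inv]
      _ ≤ Λ ^ B' := Real.rpow_le_rpow_of_exponent_le hΛ1 (le_abs_self B)
      _ ≤ ℓ ^ B' := Real.rpow_le_rpow (by linarith) hΛℓ hB0
  refine (moll_core χ hχ δ ℓ η T M hδ hℓ1 hη0 hT0 s hsre hlow).trans ?_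
  -- final numerics
  have hM1 : 1 ≤ M := Real.one_le_rpow hℓ1 hB0
  have hM' : M + (2 * ℓ + 2) ≤ ℓ ^ 2 * M := by
    have h10 : 0 ≤ ℓ ^ 2 - 1 := by
      clear * - hℓ1
      nlinarith
    have h11 : (ℓ ^ 2 - 1) * 1 ≤ (ℓ ^ 2 - 1) * M := mul_le_mul_of_nonneg_left hM1 h10
    clear * - h11 h1
    nlinarith
  have hM0 : 0 < M := by linarith
  have hfac : (ℓ + 2) / (2 * Real.pi * (δ * ℓ)) ≤ ℓ := by
    have hpi := Real.pi_gt_three
    rw [div_le_iff₀ (by positivity)]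
    have h10 : 1 ≤ δ * ℓ := by
      rw [div_le_iff₀ hδ] at h3; linarith
    have h11 : 6 ≤ 2 * Real.pi * (δ * ℓ) := by
      clear * - h10 hpi
      nlinarith
    calc ℓ + 2 ≤ ℓ * 6 := by linarith
      _ ≤ ℓ * (2 * Real.pi * (δ * ℓ)) := mul_le_mul_of_nonneg_left h11 hℓ0.le
  have hTinv : 1 / T = ℓ ^ (-D) := by rw [Real.rpow_neg hℓ0.le, one_div]
  have hl2 : ℓ ^ 2 = ℓ ^ (2 : ℝ) := by norm_cast
  have ht1 : 2 * (2 * Real.exp (2 * δ) * (3 * ℓ + 4)) / T ≤ ℓ ^ (3 - D) := by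
    calc 2 * (2 * Real.exp (2 * δ) * (3 * ℓ + 4)) / T =
          (4 * Real.exp (2 * δ)) * (3 * ℓ + 4) * (1 / T) := by ring
      _ ≤ ℓ * ℓ ^ 2 * (1 / T) := by
          gcongr
          clear * - h1
          nlinarith
      _ = ℓ ^ (3 - D) := by
          rw [hTinv, hl2]
          nth_rw 1 [← Real.rpow_one ℓ]
          rw [← Real.rpow_add hℓ0, ← Real.rpow_add hℓ0]
          congr 1; ring
  have hση : 1 / ℓ + η ≤ 1 := by
    have h10 : 1 / ℓ ≤ 1 / 4 := one_div_le_one_div_of_le (by norm_num) h1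
    have h11 : η ≤ 1 / 2 := by
      rw [hη, div_le_iff₀ (by positivity)]
      linarith
    linarith
  have ht2 : 2 * (1 / ℓ + η) * (2 * Real.exp (2 * δ) * (M + (2 * ℓ + 2)) * (1 / T ^ 2)) ≤
      ℓ ^ (B' + 3 - 2 * D) := by
    calc 2 * (1 / ℓ + η) * (2 * Real.exp (2 * δ) * (M + (2 * ℓ + 2)) * (1 / T ^ 2)) =
          (1 / ℓ + η) * (4 * Real.exp (2 * δ)) * (M + (2 * ℓ + 2)) * ((1 / T) * (1 / T)) := by ring
      _ ≤ 1 * ℓ * (ℓ ^ 2 * M) * ((1 / T) * (1 / T)) := by gcongr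
      _ = ℓ ^ (B' + 3 - 2 * D) := by
          rw [hTinv, hl2, hM, one_mul]
          nth_rw 1 [← Real.rpow_one ℓ]
          rw [← Real.rpow_add hℓ0, ← Real.rpow_add hℓ0, ← Real.rpow_add hℓ0, ← Real.rpow_add hℓ0]
          congr 1; ring
  have hexp : Real.exp (-(η * δ * ℓ)) ≤ ℓ ^ (-E) := by
    rw [Real.rpow_def_of_pos hℓ0]
    apply Real.exp_le_exp.mpr
    have h10 : η * δ * ℓ = c₁ * δ / 4 * lg * lg := by
      rw [hη]; field_simp
    have h11 : E ≤ c₁ * δ / 4 * lg := by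
      rw [div_le_iff₀ (by positivity)] at h6
      linarith
    rw [h10, ← hlg]
    clear * - h11 hlg0
    nlinarith
  have hηinv : 1 / η ^ 2 ≤ 16 / c₁ ^ 2 * ℓ ^ 2 := by
    have h10 : 1 / η ^ 2 = 16 / c₁ ^ 2 * ℓ ^ 2 * (1 / lg ^ 4) := by
      rw [hη]; field_simp; ring
    rw [h10]
    have h11 : 1 / lg ^ 4 ≤ 1 := by
      rw [div_le_one (by positivity)]
      exact one_le_pow₀ (by linarith)
    have h12 : 0 ≤ 16 / c₁ ^ 2 * ℓ ^ 2 := by positivity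
    exact mul_le_of_le_one_right h12 h11
  have ht3 : 2 * T * (2 * Real.exp (-(η * δ * ℓ)) * (M + (2 * ℓ + 2)) * (1 / η ^ 2)) ≤
      ℓ ^ (D + B' + 5 - E) := by
    calc 2 * T * (2 * Real.exp (-(η * δ * ℓ)) * (M + (2 * ℓ + 2)) * (1 / η ^ 2)) =
          4 * T * Real.exp (-(η * δ * ℓ)) * (M + (2 * ℓ + 2)) * (1 / η ^ 2) := by ring
      _ ≤ 4 * T * ℓ ^ (-E) * (ℓ ^ 2 * M) * (16 / c₁ ^ 2 * ℓ ^ 2) := by gcongr
      _ = (64 / c₁ ^ 2) * (T * ℓ ^ (-E) * (ℓ ^ 2 * M) * ℓ ^ 2) := by ring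
      _ ≤ ℓ * (T * ℓ ^ (-E) * (ℓ ^ 2 * M) * ℓ ^ 2) := by gcongr
      _ = ℓ ^ (D + B' + 5 - E) := by
          rw [hl2, hM, hT]
          nth_rw 1 [← Real.rpow_one ℓ]
          rw [← Real.rpow_add hℓ0, ← Real.rpow_add hℓ0, ← Real.rpow_add hℓ0, ← Real.rpow_add hℓ0,
            ← Real.rpow_add hℓ0]
          congr 1; ring
  have hbound : ∀ a : ℝ, a ≤ -P - 2 → ℓ ^ a ≤ ℓ ^ (-P - 2) := fun a ha =>
    Real.rpow_le_rpow_of_exponent_le hℓ1 ha
  have hb1 := hbound (3 - D) (by rw [hD]; linarith)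
  have hb2 := hbound (B' + 3 - 2 * D) (by rw [hD]; linarith)
  have hb3 := hbound (D + B' + 5 - E) (by rw [hE]; linarith)
  have hnn : 0 ≤ 2 * (2 * Real.exp (2 * δ) * (3 * ℓ + 4)) / T +
        2 * (1 / ℓ + η) * (2 * Real.exp (2 * δ) * (M + (2 * ℓ + 2)) * (1 / T ^ 2)) +
        2 * T * (2 * Real.exp (-(η * δ * ℓ)) * (M + (2 * ℓ + 2)) * (1 / η ^ 2)) := by positivity
  calc _ ≤ ℓ * (3 * ℓ ^ (-P - 2)) := by
        apply mul_le_mul hfac _ hnn hℓ0.le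
        linarith
    _ ≤ ℓ * (ℓ * ℓ ^ (-P - 2)) := by
        gcongr
        linarith
    _ = ℓ ^ (-P) := by
        nth_rw 1 2 [← Real.rpow_one ℓ]
        rw [← Real.rpow_add hℓ0, ← Real.rpow_add hℓ0]
        congr 1; ring
    _ ≤ ℓ ^ (-A) := Real.rpow_le_rpow_of_exponent_le hℓ1 (by
        have := le_abs_self A
        linarith)


end Pool.Agent.H16.GPS
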