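import Pool.Agent.H16.GPS.Num.Defs
import Pool.Agent.H16.Vprod

/-!
JOB GPS-LCM (MP_c183ae_nt). Sums over pairs of `1/[d,d']`.

PROOFS. `sum_lcm`: `1/[d,d']` summed over squarefree `d, d' ≤ R`: at most `∏_{p ≤ R} (1 + 3/p) ≤ ∏ (1-1/p)^{-3} = (Vp R)^{-3}`
(`1 + 3x ≤ (1-x)^{-3}`): a pair of squarefree numbers is given by assigning to each prime one of 4 states.
`sum_lcm_dvd`: the pairs with `p | [d,d']` (three states at `p`): remove `p`; each gives `1/p` times the term of a pair in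
`Dr` (divisor-closed). `sum_inv_sq_gt`: `∑_{p > z} 1/p² ≤ 1/z`. ~150 lines.
-/

set_option autoImplicit false

open Finset

namespace Pool.Agent.H16.GPS

open Pool.Agent.H16

/-! ### the product over the primes -/

theorem lcm_powerset (P : Finset ℕ) (a : ℕ → ℝ) :
    ∑ D ∈ P.powerset, ∑ D' ∈ P.powerset, ∏ p ∈ D ∪ D', a p = ∏ p ∈ P, (1 + 3 * a p) := by
  classical
  induction P using Finset.induction_on with
  | empty => simp
  | insert q P hq ih =>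
    rw [Finset.prod_insert hq, ← ih]
    have hmem : ∀ D ∈ P.powerset, ∀ D' ∈ P.powerset, q ∉ D ∪ D' := by
      intro D hD D' hD' h
      rcases Finset.mem_union.1 h with h | h
      · exact hq (Finset.mem_powerset.1 hD h)
      · exact hq (Finset.mem_powerset.1 hD' h)
    rw [Finset.sum_powerset_insert hq]
    have e1 : ∑ D ∈ P.powerset, ∑ D' ∈ (insert q P).powerset, ∏ p ∈ D ∪ D', a p =
        (1 + a q) * ∑ D ∈ P.powerset, ∑ D' ∈ P.powerset, ∏ p ∈ D ∪ D', a p := by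
      rw [Finset.mul_sum]
      refine Finset.sum_congr rfl fun D hD => ?_
      rw [Finset.sum_powerset_insert hq, add_mul, one_mul, Finset.mul_sum]
      congr 1
      refine Finset.sum_congr rfl fun D' hD' => ?_
      rw [Finset.union_insert, Finset.prod_insert (hmem D hD D' hD')]
    have e2 : ∑ D ∈ P.powerset, ∑ D' ∈ (insert q P).powerset, ∏ p ∈ insert q D ∪ D', a p =
        (2 * a q) * ∑ D ∈ P.powerset, ∑ D' ∈ P.powerset, ∏ p ∈ D ∪ D', a p := by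
      rw [Finset.mul_sum]
      refine Finset.sum_congr rfl fun D hD => ?_
      rw [Finset.sum_powerset_insert hq, two_mul, add_mul, Finset.mul_sum]
      congr 1
      · refine Finset.sum_congr rfl fun D' hD' => ?_
        rw [Finset.insert_union, Finset.prod_insert (hmem D hD D' hD')]
      · refine Finset.sum_congr rfl fun D' hD' => ?_
        rw [Finset.union_insert, Finset.insert_union, Finset.insert_idem,
          Finset.prod_insert (hmem D hD D' hD')]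
    rw [e1, e2]
    ring

theorem lcm_one_add_le {x : ℝ} (h0 : 0 ≤ x) (h1 : x < 1) : 1 + 3 * x ≤ ((1 - x) ^ 3)⁻¹ := by
  have h2 : 0 < 1 - x := by linarith
  rw [← one_div, le_div_iff₀ (by positivity)]
  have h3 : 1 + 3 * x ≤ (1 + x) ^ 3 := by nlinarith [mul_nonneg h0 h0, mul_nonneg h0 (mul_nonneg h0 h0)]
  have h4 : (1 + 3 * x) * (1 - x) ^ 3 ≤ (1 + x) ^ 3 * (1 - x) ^ 3 :=
    mul_le_mul_of_nonneg_right h3 (by positivity)
  have h5 : (1 + x) ^ 3 * (1 - x) ^ 3 = (1 - x ^ 2) ^ 3 := by ring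
  have h6 : (1 - x ^ 2) ^ 3 ≤ 1 := by
    apply pow_le_one₀
    · nlinarith
    · nlinarith
  linarith

theorem lcm_mem_Dr {z R d : ℕ} : d ∈ Dr z R ↔
    (1 ≤ d ∧ d ≤ R) ∧ Squarefree d ∧ ∀ p, p.Prime → p ∣ d → z < p := by
  classical
  unfold Dr
  rw [Finset.mem_filter, Finset.mem_Icc]

theorem lcm_term_le {d d' : ℕ} (hd : d ≠ 0) (hd' : d' ≠ 0) :
    1 / (Nat.lcm d d' : ℝ) ≤ ∏ p ∈ d.primeFactors ∪ d'.primeFactors, 1 / (p : ℝ) := by
  have h2 : Nat.lcm d d' ≠ 0 := Nat.lcm_ne_zero hd hd'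
  have h1 : (Nat.lcm d d').primeFactors = d.primeFactors ∪ d'.primeFactors := by
    ext q
    rw [Finset.mem_union, Nat.mem_primeFactors, Nat.mem_primeFactors, Nat.mem_primeFactors]
    constructor
    · rintro ⟨hq, h3, -⟩
      have h4 : q ∣ d * d' := h3.trans (Nat.lcm_dvd_mul _ _)
      rcases (Nat.Prime.dvd_mul hq).1 h4 with h5 | h5
      · exact Or.inl ⟨hq, h5, hd⟩
      · exact Or.inr ⟨hq, h5, hd'⟩
    · rintro (⟨hq, h3, -⟩ | ⟨hq, h3, -⟩)
      · exact ⟨hq, h3.trans (Nat.dvd_lcm_left _ _), h2⟩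
      · exact ⟨hq, h3.trans (Nat.dvd_lcm_right _ _), h2⟩
  have h3 : (∏ p ∈ (Nat.lcm d d').primeFactors, p) ≤ Nat.lcm d d' :=
    Nat.le_of_dvd (Nat.pos_of_ne_zero h2) (Nat.prod_primeFactors_dvd _)
  rw [← h1, Finset.prod_div_distrib, Finset.prod_const_one]
  apply one_div_le_one_div_of_le
  · apply Finset.prod_pos
    intro p hp
    exact_mod_cast (Nat.prime_of_mem_primeFactors hp).pos
  · have h4 : ((∏ p ∈ (Nat.lcm d d').primeFactors, p : ℕ) : ℝ) ≤ (Nat.lcm d d' : ℕ) :=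
      Nat.cast_le.2 h3
    rw [Nat.cast_prod] at h4
    exact h4

theorem sum_lcm : ∃ C : ℝ, 0 < C ∧ ∀ z R : ℕ, 2 ≤ R →
    ∑ d ∈ Dr z R, ∑ d' ∈ Dr z R, 1 / (Nat.lcm d d' : ℝ) ≤ C * (Real.log R) ^ 3 := by
  classical
  obtain ⟨c, hc, hV⟩ := Vp_ge
  refine ⟨(1 / c) ^ 3, by positivity, fun z R hR => ?_⟩
  have hR1 : (1 : ℝ) < R := by exact_mod_cast hR
  have hlog : 0 < Real.log R := Real.log_pos hR1
  have hinj : Set.InjOn Nat.primeFactors ((Dr z R : Finset ℕ) : Set ℕ) := by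
    intro d hd d' hd' h
    have h1 := (lcm_mem_Dr.1 (Finset.mem_coe.1 hd)).2.1
    have h2 := (lcm_mem_Dr.1 (Finset.mem_coe.1 hd')).2.1
    rw [← Nat.prod_primeFactors_of_squarefree h1, ← Nat.prod_primeFactors_of_squarefree h2]
    have h' : d.primeFactors = d'.primeFactors := h
    rw [h']
  have hsub : (Dr z R).image Nat.primeFactors ⊆ (Nat.primesLE R).powerset := by
    intro D hD
    obtain ⟨d, hd, rfl⟩ := Finset.mem_image.1 hD
    rw [Finset.mem_powerset]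
    intro p hp
    have h1 := (lcm_mem_Dr.1 hd).1
    rw [Nat.mem_primesLE]
    have h2 := Nat.prime_of_mem_primeFactors hp
    exact ⟨(Nat.le_of_dvd (by omega) (Nat.dvd_of_mem_primeFactors hp)).trans h1.2, h2⟩
  have hnn : ∀ D D' : Finset ℕ, 0 ≤ ∏ p ∈ D ∪ D', 1 / (p : ℝ) := fun D D' =>
    Finset.prod_nonneg fun p _ => by positivity
  calc ∑ d ∈ Dr z R, ∑ d' ∈ Dr z R, 1 / (Nat.lcm d d' : ℝ)
      ≤ ∑ d ∈ Dr z R, ∑ d' ∈ Dr z R, ∏ p ∈ d.primeFactors ∪ d'.primeFactors, 1 / (p : ℝ) := by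
        refine Finset.sum_le_sum fun d hd => Finset.sum_le_sum fun d' hd' => ?_
        have h1 := (lcm_mem_Dr.1 hd).1
        have h2 := (lcm_mem_Dr.1 hd').1
        exact lcm_term_le (by omega) (by omega)
    _ = ∑ D ∈ (Dr z R).image Nat.primeFactors, ∑ D' ∈ (Dr z R).image Nat.primeFactors,
          ∏ p ∈ D ∪ D', 1 / (p : ℝ) := by
        rw [Finset.sum_image hinj]
        refine Finset.sum_congr rfl fun d _ => ?_
        rw [Finset.sum_image hinj]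
    _ ≤ ∑ D ∈ (Nat.primesLE R).powerset, ∑ D' ∈ (Nat.primesLE R).powerset,
          ∏ p ∈ D ∪ D', 1 / (p : ℝ) := by
        calc _ ≤ ∑ D ∈ (Dr z R).image Nat.primeFactors, ∑ D' ∈ (Nat.primesLE R).powerset,
                ∏ p ∈ D ∪ D', 1 / (p : ℝ) :=
              Finset.sum_le_sum fun D _ =>
                Finset.sum_le_sum_of_subset_of_nonneg hsub fun D' _ _ => hnn D D'
          _ ≤ _ := Finset.sum_le_sum_of_subset_of_nonneg hsub fun D _ _ =>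
                Finset.sum_nonneg fun D' _ => hnn D D'
    _ = ∏ p ∈ Nat.primesLE R, (1 + 3 * (1 / (p : ℝ))) := lcm_powerset _ _
    _ ≤ ∏ p ∈ Nat.primesLE R, ((1 - 1 / (p : ℝ)) ^ 3)⁻¹ := by
        refine Finset.prod_le_prod (fun p _ => by positivity) fun p hp => ?_
        have hp2 : (1 : ℝ) < p := by exact_mod_cast (Nat.mem_primesLE.1 hp).2.one_lt
        apply lcm_one_add_le (by positivity)
        rw [div_lt_one (by linarith)]
        exact hp2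
    _ = ((Vp R) ^ 3)⁻¹ := by
        unfold Vp
        rw [← Finset.prod_pow, Finset.prod_inv_distrib]
    _ ≤ (1 / c) ^ 3 * (Real.log R) ^ 3 := by
        rw [← mul_pow, ← inv_pow]
        refine pow_le_pow_left₀ (inv_nonneg.2 (Vp_pos R).le) ?_ 3
        have h1 := hV R hR
        have h2 : 0 < c / Real.log R := by positivity
        calc (Vp R)⁻¹ ≤ (c / Real.log R)⁻¹ := inv_anti₀ h2 h1
          _ = 1 / c * Real.log R := by field_simp

/-! ### pairs divisible by a prime -/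

/-- remove the prime `p` -/
def lcmR (p d : ℕ) : ℕ := if p ∣ d then d / p else d

theorem lcmR_dvd (p d : ℕ) : lcmR p d ∣ d := by
  unfold lcmR
  split_ifs with h
  · exact Nat.div_dvd_of_dvd h
  · exact dvd_rfl

theorem lcmR_not_dvd {p d : ℕ} (hp : p.Prime) (hd : Squarefree d) : ¬ p ∣ lcmR p d := by
  unfold lcmR
  split_ifs with h
  · intro h2
    obtain ⟨e, rfl⟩ := h
    rw [Nat.mul_div_cancel_left _ hp.pos] at h2
    have h3 : p * p ∣ p * e := Nat.mul_dvd_mul_left p h2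
    exact hp.one_lt.ne' (Nat.isUnit_iff.1 (hd p h3))
  · exact h

theorem lcmR_mem {z R p d : ℕ} (hp : p.Prime) (hd : d ∈ Dr z R) : lcmR p d ∈ Dr z R := by
  rw [lcm_mem_Dr] at hd ⊢
  obtain ⟨⟨h1, h2⟩, h3, h4⟩ := hd
  have h5 := lcmR_dvd p d
  refine ⟨⟨Nat.pos_of_dvd_of_pos h5 h1, (Nat.le_of_dvd h1 h5).trans h2⟩,
    h3.squarefree_of_dvd h5, fun q hq hqd => h4 q hq (hqd.trans h5)⟩

theorem lcm_term_div {p d d' : ℕ} (hp : p.Prime) (hd : Squarefree d) (hd' : Squarefree d')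
    (h0 : d ≠ 0) (h0' : d' ≠ 0) (h : p ∣ Nat.lcm d d') :
    1 / (Nat.lcm d d' : ℝ) ≤ 1 / (p : ℝ) * (1 / (Nat.lcm (lcmR p d) (lcmR p d') : ℝ)) := by
  have h1 : Nat.lcm (lcmR p d) (lcmR p d') ∣ Nat.lcm d d' :=
    Nat.lcm_dvd ((lcmR_dvd p d).trans (Nat.dvd_lcm_left _ _))
      ((lcmR_dvd p d').trans (Nat.dvd_lcm_right _ _))
  have h2 : ¬ p ∣ Nat.lcm (lcmR p d) (lcmR p d') := by
    intro h3
    have h4 : p ∣ lcmR p d * lcmR p d' := h3.trans (Nat.lcm_dvd_mul _ _)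
    rcases (Nat.Prime.dvd_mul hp).1 h4 with h5 | h5
    · exact lcmR_not_dvd hp hd h5
    · exact lcmR_not_dvd hp hd' h5
  have h3 : p * Nat.lcm (lcmR p d) (lcmR p d') ∣ Nat.lcm d d' :=
    Nat.Coprime.mul_dvd_of_dvd_of_dvd ((Nat.Prime.coprime_iff_not_dvd hp).2 h2) h h1
  have h4 : Nat.lcm d d' ≠ 0 := Nat.lcm_ne_zero h0 h0'
  have h5 := Nat.le_of_dvd (Nat.pos_of_ne_zero h4) h3
  have h6 : 0 < p * Nat.lcm (lcmR p d) (lcmR p d') :=
    Nat.pos_of_dvd_of_pos h3 (Nat.pos_of_ne_zero h4)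
  rw [one_div_mul_one_div]
  apply one_div_le_one_div_of_le
  · exact_mod_cast h6
  · exact_mod_cast h5

theorem lcm_sum_inj {X Y D : Finset ℕ} {r : ℕ → ℕ} {g : ℕ → ℕ → ℝ} (hg : ∀ a b, 0 ≤ g a b)
    (hX : Set.InjOn r (X : Set ℕ)) (hY : Set.InjOn r (Y : Set ℕ)) (hXD : ∀ x ∈ X, r x ∈ D)
    (hYD : ∀ x ∈ Y, r x ∈ D) :
    ∑ d ∈ X, ∑ d' ∈ Y, g (r d) (r d') ≤ ∑ d ∈ D, ∑ d' ∈ D, g d d' := by
  classical
  have e1 : ∑ d ∈ X, ∑ d' ∈ Y, g (r d) (r d') =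
      ∑ d ∈ X.image r, ∑ d' ∈ Y.image r, g d d' := by
    rw [Finset.sum_image hX]
    refine Finset.sum_congr rfl fun d _ => ?_
    rw [Finset.sum_image hY]
  have hs1 : X.image r ⊆ D := fun x hx => by
    obtain ⟨a, ha, rfl⟩ := Finset.mem_image.1 hx
    exact hXD a ha
  have hs2 : Y.image r ⊆ D := fun x hx => by
    obtain ⟨a, ha, rfl⟩ := Finset.mem_image.1 hx
    exact hYD a ha
  rw [e1]
  calc ∑ d ∈ X.image r, ∑ d' ∈ Y.image r, g d d'
      ≤ ∑ d ∈ X.image r, ∑ d' ∈ D, g d d' :=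
        Finset.sum_le_sum fun d _ => Finset.sum_le_sum_of_subset_of_nonneg hs2 fun d' _ _ => hg d d'
    _ ≤ _ := Finset.sum_le_sum_of_subset_of_nonneg hs1 fun d _ _ =>
        Finset.sum_nonneg fun d' _ => hg d d'

theorem sum_lcm_dvd (z R p : ℕ) (hp : p.Prime) :
    ∑ d ∈ Dr z R, ∑ d' ∈ Dr z R, (if p ∣ Nat.lcm d d' then 1 / (Nat.lcm d d' : ℝ) else 0) ≤
      3 / (p : ℝ) * ∑ d ∈ Dr z R, ∑ d' ∈ Dr z R, 1 / (Nat.lcm d d' : ℝ) := by
  classical
  have hp0 : (0 : ℝ) < p := by exact_mod_cast hp.pos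
  set A := (Dr z R).filter (fun d => p ∣ d) with hA
  set B := (Dr z R).filter (fun d => ¬ p ∣ d) with hB
  let g : ℕ → ℕ → ℝ := fun a b => 1 / (p : ℝ) * (1 / (Nat.lcm a b : ℝ))
  have hg : ∀ a b, 0 ≤ g a b := fun a b => by positivity
  have hAinj : Set.InjOn (lcmR p) (A : Set ℕ) := by
    intro a ha b hb h
    have ha' := (Finset.mem_filter.1 (Finset.mem_coe.1 ha)).2
    have hb' := (Finset.mem_filter.1 (Finset.mem_coe.1 hb)).2
    have h1 : lcmR p a = lcmR p b := h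
    unfold lcmR at h1
    rw [if_pos ha', if_pos hb'] at h1
    rw [← Nat.mul_div_cancel' ha', ← Nat.mul_div_cancel' hb', h1]
  have hBinj : Set.InjOn (lcmR p) (B : Set ℕ) := by
    intro a ha b hb h
    have ha' := (Finset.mem_filter.1 (Finset.mem_coe.1 ha)).2
    have hb' := (Finset.mem_filter.1 (Finset.mem_coe.1 hb)).2
    have h1 : lcmR p a = lcmR p b := h
    unfold lcmR at h1
    rw [if_neg ha', if_neg hb'] at h1
    exact h1
  have hAD : ∀ x ∈ A, lcmR p x ∈ Dr z R := fun x hx => lcmR_mem hp (Finset.mem_filter.1 hx).1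
  have hBD : ∀ x ∈ B, lcmR p x ∈ Dr z R := fun x hx => lcmR_mem hp (Finset.mem_filter.1 hx).1
  -- the terms
  let f : ℕ → ℕ → ℝ := fun d d' => if p ∣ Nat.lcm d d' then 1 / (Nat.lcm d d' : ℝ) else 0
  have hf : ∀ d ∈ Dr z R, ∀ d' ∈ Dr z R, f d d' ≤ g (lcmR p d) (lcmR p d') := by
    intro d hd d' hd'
    have h1 := lcm_mem_Dr.1 hd
    have h2 := lcm_mem_Dr.1 hd'
    simp only [f]
    split_ifs with h
    · exact lcm_term_div hp h1.2.1 h2.2.1 (by omega) (by omega) h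
    · exact hg _ _
  have hf0 : ∀ d ∈ B, ∀ d' ∈ B, f d d' = 0 := by
    intro d hd d' hd'
    have h1 := (Finset.mem_filter.1 hd).2
    have h2 := (Finset.mem_filter.1 hd').2
    simp only [f]
    rw [if_neg]
    intro h3
    have h4 : p ∣ d * d' := h3.trans (Nat.lcm_dvd_mul _ _)
    rcases (Nat.Prime.dvd_mul hp).1 h4 with h5 | h5
    · exact h1 h5
    · exact h2 h5
  have hsplit : ∀ F : ℕ → ℝ, ∑ d ∈ Dr z R, F d = ∑ d ∈ A, F d + ∑ d ∈ B, F d := fun F =>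
    (Finset.sum_filter_add_sum_filter_not _ _ _).symm
  have hle : ∀ X Y : Finset ℕ, X ⊆ Dr z R → Y ⊆ Dr z R → Set.InjOn (lcmR p) (X : Set ℕ) →
      Set.InjOn (lcmR p) (Y : Set ℕ) →
      ∑ d ∈ X, ∑ d' ∈ Y, f d d' ≤ ∑ d ∈ Dr z R, ∑ d' ∈ Dr z R, g d d' := by
    intro X Y hX hY hXi hYi
    refine le_trans (Finset.sum_le_sum fun d hd => Finset.sum_le_sum fun d' hd' =>
      hf d (hX hd) d' (hY hd')) ?_
    exact lcm_sum_inj hg hXi hYi (fun x hx => lcmR_mem hp (hX hx)) fun x hx =>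
      lcmR_mem hp (hY hx)
  have hAs : A ⊆ Dr z R := Finset.filter_subset _ _
  have hBs : B ⊆ Dr z R := Finset.filter_subset _ _
  have e1 : ∑ d ∈ Dr z R, ∑ d' ∈ Dr z R, f d d' =
      (∑ d ∈ A, ∑ d' ∈ A, f d d') + (∑ d ∈ A, ∑ d' ∈ B, f d d') +
        (∑ d ∈ B, ∑ d' ∈ A, f d d') := by
    rw [hsplit, Finset.sum_congr rfl fun d _ => hsplit (f d), Finset.sum_add_distrib,
      Finset.sum_congr (s₁ := B) rfl fun d _ => hsplit (f d), Finset.sum_add_distrib]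
    have : ∑ d ∈ B, ∑ d' ∈ B, f d d' = 0 :=
      Finset.sum_eq_zero fun d hd => Finset.sum_eq_zero fun d' hd' => hf0 d hd d' hd'
    rw [this]
    ring
  have e2 : ∑ d ∈ Dr z R, ∑ d' ∈ Dr z R, g d d' =
      1 / (p : ℝ) * ∑ d ∈ Dr z R, ∑ d' ∈ Dr z R, 1 / (Nat.lcm d d' : ℝ) := by
    rw [Finset.mul_sum]
    refine Finset.sum_congr rfl fun d _ => ?_
    rw [Finset.mul_sum]
  have l1 := hle A A hAs hAs hAinj hAinj
  have l2 := hle A B hAs hBs hAinj hBinj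
  have l3 := hle B A hBs hAs hBinj hAinj
  show ∑ d ∈ Dr z R, ∑ d' ∈ Dr z R, f d d' ≤ _
  rw [e1]
  have e3 : 3 / (p : ℝ) * ∑ d ∈ Dr z R, ∑ d' ∈ Dr z R, 1 / (Nat.lcm d d' : ℝ) =
      3 * (1 / (p : ℝ) * ∑ d ∈ Dr z R, ∑ d' ∈ Dr z R, 1 / (Nat.lcm d d' : ℝ)) := by ring
  rw [e3, ← e2]
  linarith

theorem sum_inv_sq_gt (z : ℕ) (hz : 1 ≤ z) (P : Finset ℕ) (hP : ∀ p ∈ P, z < p) :
    ∑ p ∈ P, 1 / (p : ℝ) ^ 2 ≤ 1 / (z : ℝ) := by
  refine le_trans ?_ (sum_inv_sq_Ioc z (P.sup id) hz)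
  refine Finset.sum_le_sum_of_subset_of_nonneg ?_ fun _ _ _ => by positivity
  intro p hp
  rw [Finset.mem_Ioc]
  exact ⟨hP p hp, Finset.le_sup (f := id) hp⟩

end Pool.Agent.H16.GPS
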