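import Pool.Agent.H16.GPS.Num.Defs

/-!
JOB GPS-PROD (MP_c183ae_nt). Comparison of the local factors.

PROOF. Let `t' = #ℳ ≤ t`, `ρ p = #(ℳ.image (· % p)) ≤ t'`. Factor `a p = (1 - ρ p / p) / (1 - 1/p)^t'`. For `p > w ≥ 4 t`
(large `ℓ`): `|log a p| ≤ C_t/p²` if `ρ p = t'`, and `|log a p| ≤ C_t/p` in general. `ρ p < t'` means that two distinct
elements `m, m'` of `ℳ` are congruent mod `p`, i.e. `p | m - m' ≠ 0`; a nonzero integer of absolute value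
`≤ exp((log ℓ)^4)` has at most `(log ℓ)^4 / log 2` prime divisors. So
`∑_{p ∈ P} |log a p| ≤ C_t ∑_{p > w} 1/p² + C_t t² (2 (log ℓ)^4) / w ≤ C'_t (1 + (log ℓ)^4)/w → 0`, because
`w = ww ℓ ≥ (log ℓ)^5 - 1`. Then exponentiate. (Instead of logarithms one may bound `∏ (1 + x_p) - 1`.) ~150 lines.

Status: complete (helper26).
-/

set_option autoImplicit false

open Finset Filter

namespace Pool.Agent.H16.GPS

lemma prodc_pow_le (s : ℕ) (x : ℝ) (h0 : 0 ≤ x) (h1 : x ≤ 1) :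
    (1 - x) ^ s ≤ 1 - s * x + (s : ℝ) ^ 2 * x ^ 2 := by
  induction s with
  | zero => simp
  | succ s ih =>
    have h2 : (1 - x) ^ (s + 1) ≤ (1 - s * x + (s : ℝ) ^ 2 * x ^ 2) * (1 - x) := by
      rw [pow_succ]
      exact mul_le_mul_of_nonneg_right ih (by linarith)
    refine h2.trans ?_
    push_cast
    have h3 : 0 ≤ (s : ℝ) := Nat.cast_nonneg s
    have h4 : 0 ≤ (s : ℝ) ^ 2 * x ^ 3 := by positivity
    have h5 : 0 ≤ (s : ℝ) * x ^ 2 := by positivity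
    nlinarith [sq_nonneg x]

lemma prodc_factor (s r : ℕ) (x : ℝ) (h0 : 0 ≤ x) (h1 : s * x ≤ 1 / 2) (hx1 : x ≤ 1) (hr : r ≤ s) :
    |(1 - r * x) / (1 - x) ^ s - 1| ≤ 2 * (s : ℝ) ^ 2 * x ^ 2 + (if r < s then 2 * s * x else 0) := by
  have h2 := prodc_pow_le s x h0 hx1
  have h3 : 1 - s * x ≤ (1 - x) ^ s := by
    have := one_add_mul_le_pow (a := -x) (by linarith) s
    have e : (1 + -x) ^ s = (1 - x) ^ s := by ring_nf
    rw [e] at this
    linarith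
  have h4 : 1 / 2 ≤ (1 - x) ^ s := by linarith
  have h5 : 0 < (1 - x) ^ s := by linarith
  rw [div_sub_one h5.ne', abs_div, abs_of_pos h5, div_le_iff₀ h5]
  have hrs : (r : ℝ) ≤ s := by exact_mod_cast hr
  have h6 : 0 ≤ (s : ℝ) ^ 2 * x ^ 2 := by positivity
  have h7 : 0 ≤ (s : ℝ) * x := by positivity
  have h8 : 0 ≤ (r : ℝ) * x := by positivity
  split_ifs with hlt
  · have h9 : |1 - r * x - (1 - x) ^ s| ≤ (s : ℝ) ^ 2 * x ^ 2 + s * x := by
      rw [abs_le]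
      constructor
      · nlinarith
      · nlinarith
    refine h9.trans ?_
    have : (2 * (s : ℝ) ^ 2 * x ^ 2 + 2 * s * x) * (1 / 2) ≤
        (2 * (s : ℝ) ^ 2 * x ^ 2 + 2 * s * x) * (1 - x) ^ s :=
      mul_le_mul_of_nonneg_left h4 (by nlinarith)
    linarith
  · have hrs' : r = s := by omega
    subst hrs'
    have h9 : |1 - r * x - (1 - x) ^ r| ≤ (r : ℝ) ^ 2 * x ^ 2 := by
      rw [abs_le]
      constructor
      · linarith
      · linarith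
    refine h9.trans ?_
    have : (2 * (r : ℝ) ^ 2 * x ^ 2) * (1 / 2) ≤ (2 * (r : ℝ) ^ 2 * x ^ 2) * (1 - x) ^ r :=
      mul_le_mul_of_nonneg_left h4 (by nlinarith)
    linarith

lemma prodc_sum_sq (P : Finset ℕ) (w : ℕ) (hw : 1 ≤ w) (hP : ∀ p ∈ P, w < p) :
    ∑ p ∈ P, 1 / (p : ℝ) ^ 2 ≤ 1 / (w : ℝ) := by
  let N := P.sup id + w
  have hsub : P ⊆ Finset.Ioc w N := by
    intro p hp
    rw [Finset.mem_Ioc]
    have : p ≤ P.sup id := Finset.le_sup (f := id) hp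
    exact ⟨hP p hp, by omega⟩
  calc ∑ p ∈ P, 1 / (p : ℝ) ^ 2 ≤ ∑ p ∈ Finset.Ioc w N, 1 / (p : ℝ) ^ 2 :=
        Finset.sum_le_sum_of_subset_of_nonneg hsub fun _ _ _ => by positivity
    _ = ∑ p ∈ Finset.Ioc w N, ((p : ℝ) ^ 2)⁻¹ := by simp
    _ ≤ (w : ℝ)⁻¹ - (N : ℝ)⁻¹ := sum_Ioc_inv_sq_le_sub (by omega) (by omega)
    _ ≤ 1 / (w : ℝ) := by
        have : 0 ≤ (N : ℝ)⁻¹ := by positivity
        rw [one_div]; linarith

lemma prodc_card_pf (n : ℕ) (hn : n ≠ 0) (B : ℝ) (hB : (n : ℝ) ≤ Real.exp B) :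
    (#n.primeFactors : ℝ) ≤ 2 * B := by
  have h1 : 2 ^ #n.primeFactors ≤ n := by
    refine (Finset.pow_card_le_prod _ (fun p => p) 2 fun p hp =>
      (Nat.prime_of_mem_primeFactors hp).two_le).trans ?_
    exact Nat.le_of_dvd (Nat.pos_of_ne_zero hn) (Nat.prod_primeFactors_dvd n)
  have h2 : (2 : ℝ) ^ #n.primeFactors ≤ Real.exp B := by
    refine le_trans ?_ hB
    exact_mod_cast h1
  have h3 := Real.log_le_log (by positivity) h2
  rw [Real.log_exp, Real.log_pow] at h3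
  have h4 := Real.log_two_gt_d9
  have h5 : (0 : ℝ) ≤ #n.primeFactors := Nat.cast_nonneg _
  nlinarith

lemma prodc_bad (t : ℕ) (ℳ P : Finset ℕ) (B : ℝ) (hB : 0 ≤ B) (ht : #ℳ ≤ t)
    (hm : ∀ m ∈ ℳ, (m : ℝ) ≤ Real.exp B) (hP : ∀ p ∈ P, p.Prime) :
    (#(P.filter fun p => #(ℳ.image fun m => m % p) < #ℳ) : ℝ) ≤ (t : ℝ) ^ 2 * (2 * B) := by
  have hsub : (P.filter fun p => #(ℳ.image fun m => m % p) < #ℳ) ⊆
      ℳ.offDiag.biUnion fun q => (((q.1 : ℤ) - q.2).natAbs).primeFactors := by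
    intro p hp
    rw [Finset.mem_filter] at hp
    have hni : ¬ Set.InjOn (fun m => m % p) (ℳ : Set ℕ) := fun h => by
      have := Finset.card_image_of_injOn h
      omega
    unfold Set.InjOn at hni
    push Not at hni
    obtain ⟨m, hm1, m', hm2, he, hne⟩ := hni
    have he : m % p = m' % p := he
    rw [Finset.mem_biUnion]
    refine ⟨(m, m'), Finset.mem_offDiag.2 ⟨hm1, hm2, hne⟩, ?_⟩
    rw [Nat.mem_primeFactors]
    refine ⟨hP p hp.1, ?_, ?_⟩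
    · have h1 : (p : ℤ) ∣ (m : ℤ) - m' := by
        have h2 : m ≡ m' [MOD p] := he
        exact (Nat.modEq_iff_dvd.1 h2.symm)
      exact Int.natCast_dvd.1 h1
    · intro h
      rw [Int.natAbs_eq_zero] at h
      exact hne (by omega)
  have h1 : (#(P.filter fun p => #(ℳ.image fun m => m % p) < #ℳ) : ℝ) ≤
      ∑ q ∈ ℳ.offDiag, (#(((q.1 : ℤ) - q.2).natAbs).primeFactors : ℝ) := by
    refine le_trans (Nat.cast_le.2 ((Finset.card_le_card hsub).trans Finset.card_biUnion_le)) ?_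
    push_cast
    exact le_rfl
  refine h1.trans ?_
  have h2 : ∀ q ∈ ℳ.offDiag, (#(((q.1 : ℤ) - q.2).natAbs).primeFactors : ℝ) ≤ 2 * B := by
    intro q hq
    rw [Finset.mem_offDiag] at hq
    refine prodc_card_pf _ ?_ B ?_
    · intro h
      rw [Int.natAbs_eq_zero] at h
      exact hq.2.2 (by omega)
    · have h3 : ((q.1 : ℤ) - q.2).natAbs ≤ max q.1 q.2 := by omega
      refine (Nat.cast_le.2 h3).trans ?_
      rw [Nat.cast_max]
      exact max_le (hm _ hq.1) (hm _ hq.2.1)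
  refine (Finset.sum_le_card_nsmul _ _ _ h2).trans ?_
  rw [nsmul_eq_mul]
  refine mul_le_mul_of_nonneg_right ?_ (by linarith)
  have h4 : #ℳ.offDiag ≤ t ^ 2 := by
    rw [Finset.offDiag_card]
    calc #ℳ * #ℳ - #ℳ ≤ #ℳ * #ℳ := Nat.sub_le _ _
      _ ≤ t * t := Nat.mul_le_mul ht ht
      _ = t ^ 2 := by ring
  exact_mod_cast h4

theorem prod_compare (t : ℕ) (ε : ℝ) (hε : 0 < ε) : ∀ᶠ ℓ : ℝ in atTop, ∀ ℳ : Finset ℕ, #ℳ ≤ t →
    (∀ m ∈ ℳ, (m : ℝ) ≤ Real.exp ((Real.log ℓ) ^ 4)) →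
    ∀ P : Finset ℕ, (∀ p ∈ P, p.Prime ∧ ww ℓ < p) →
    |(∏ p ∈ P, (1 - (#(ℳ.image (fun m => m % p)) : ℝ) / p)) / VP P ^ #ℳ - 1| ≤ ε := by
  set T : ℝ := 4 * (t : ℝ) ^ 2 + 8 * (t : ℝ) ^ 3 with hT
  have hT0 : 0 ≤ T := by positivity
  have hL := Real.tendsto_log_atTop
  have hlim : Tendsto (fun ℓ : ℝ => Real.exp (T / Real.log ℓ) - 1) atTop (nhds 0) := by
    have h1 : Tendsto (fun ℓ : ℝ => T / Real.log ℓ) atTop (nhds 0) :=
      Filter.Tendsto.div_atTop tendsto_const_nhds hL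
    have h2 := (Real.continuous_exp.tendsto 0).comp h1
    rw [Real.exp_zero] at h2
    have h3 := h2.sub_const 1
    rw [sub_self] at h3
    exact h3
  filter_upwards [hlim.eventually_le_const hε, hL.eventually_ge_atTop (2 + 4 * (t : ℝ))]
    with ℓ h1 h2 ℳ ht hm P hP
  set L := Real.log ℓ with hLdef
  have ht0 : (0 : ℝ) ≤ t := Nat.cast_nonneg t
  have hL2 : 2 ≤ L := by linarith
  have hL1 : 1 ≤ L := by linarith
  have hL5 : L ≤ L ^ 5 := by
    calc L = L ^ 1 := (pow_one L).symm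
      _ ≤ L ^ 5 := pow_le_pow_right₀ hL1 (by norm_num)
  have hw1 : L ^ 5 / 2 ≤ (ww ℓ : ℝ) := by
    have h3 : L ^ 5 < (ww ℓ : ℝ) + 1 := Nat.lt_floor_add_one _
    linarith
  have hw0 : (0 : ℝ) < ww ℓ := by linarith
  have hw0' : 1 ≤ ww ℓ := by exact_mod_cast hw0
  have hwt : 2 * (t : ℝ) ≤ ww ℓ := by linarith
  set s := #ℳ with hs
  have hst : (s : ℝ) ≤ t := by exact_mod_cast ht
  have hs0 : (0 : ℝ) ≤ s := Nat.cast_nonneg s
  let a : ℕ → ℝ := fun p => (1 - (#(ℳ.image (fun m => m % p)) : ℝ) / p) / (1 - 1 / (p : ℝ)) ^ s - 1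
  have hratio : (∏ p ∈ P, (1 - (#(ℳ.image (fun m => m % p)) : ℝ) / p)) / VP P ^ s =
      ∏ p ∈ P, (1 + a p) := by
    unfold VP
    rw [← Finset.prod_pow, ← Finset.prod_div_distrib]
    refine Finset.prod_congr rfl fun p _ => ?_
    simp only [a]
    ring
  rw [hratio]
  have hmain := Finset.norm_prod_one_add_sub_one_le P a
  rw [Real.norm_eq_abs] at hmain
  refine hmain.trans (le_trans ?_ h1)
  refine sub_le_sub_right (Real.exp_le_exp.2 ?_) 1
  have hpt : ∀ p ∈ P, ‖a p‖ ≤ 2 * (s : ℝ) ^ 2 * (1 / (p : ℝ) ^ 2) +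
      (if #(ℳ.image fun m => m % p) < s then 2 * s * (1 / (ww ℓ : ℝ)) else 0) := by
    intro p hp
    obtain ⟨hpp, hwp⟩ := hP p hp
    have hp0 : (0 : ℝ) < p := by exact_mod_cast hpp.pos
    have hwp' : (ww ℓ : ℝ) < p := by exact_mod_cast hwp
    have hx1 : 1 / (p : ℝ) ≤ 1 / (ww ℓ : ℝ) := one_div_le_one_div_of_le hw0 hwp'.le
    have h3 := prodc_factor s (#(ℳ.image fun m => m % p)) (1 / (p : ℝ)) (by positivity)
      (by
        rw [mul_one_div, div_le_div_iff₀ hp0 (by norm_num)]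
        linarith)
      (by
        rw [div_le_one hp0]
        exact_mod_cast hpp.one_lt.le)
      Finset.card_image_le
    rw [Real.norm_eq_abs]
    have e1 : a p = (1 - (#(ℳ.image fun m => m % p) : ℝ) * (1 / (p : ℝ))) /
        (1 - 1 / (p : ℝ)) ^ s - 1 := by
      simp only [a, mul_one_div]
    rw [e1]
    refine h3.trans ?_
    refine add_le_add (le_of_eq (by rw [one_div_pow])) ?_
    split_ifs
    · exact mul_le_mul_of_nonneg_left hx1 (by linarith)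
    · exact le_rfl
  refine (Finset.sum_le_sum hpt).trans ?_
  rw [Finset.sum_add_distrib, ← Finset.mul_sum, ← Finset.sum_filter, Finset.sum_const,
    nsmul_eq_mul]
  have hS1 := prodc_sum_sq P (ww ℓ) hw0' fun p hp => (hP p hp).2
  have hS2 := prodc_bad t ℳ P (L ^ 4) (by positivity) ht hm fun p hp => (hP p hp).1
  have hw2 : 1 / (ww ℓ : ℝ) ≤ 2 / L ^ 5 := by
    rw [div_le_div_iff₀ hw0 (by positivity)]
    linarith
  have hA : 2 * (s : ℝ) ^ 2 * ∑ p ∈ P, 1 / (p : ℝ) ^ 2 ≤ 2 * (t : ℝ) ^ 2 * (2 / L ^ 5) := by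
    refine mul_le_mul ?_ (hS1.trans hw2) (Finset.sum_nonneg fun _ _ => by positivity) (by positivity)
    have : (s : ℝ) ^ 2 ≤ (t : ℝ) ^ 2 := pow_le_pow_left₀ hs0 hst 2
    linarith
  have hB : (#(P.filter fun p => #(ℳ.image fun m => m % p) < s) : ℝ) *
      (2 * s * (1 / (ww ℓ : ℝ))) ≤ (t : ℝ) ^ 2 * (2 * L ^ 4) * (2 * t * (2 / L ^ 5)) := by
    refine mul_le_mul hS2 ?_ (by positivity) (by positivity)
    refine mul_le_mul (by linarith) hw2 (by positivity) (by positivity)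
  refine (add_le_add hA hB).trans ?_
  have hLpos : 0 < L := by linarith
  have e2 : (t : ℝ) ^ 2 * (2 * L ^ 4) * (2 * t * (2 / L ^ 5)) = 8 * (t : ℝ) ^ 3 / L := by
    field_simp
    ring
  have e3 : 2 * (t : ℝ) ^ 2 * (2 / L ^ 5) ≤ 4 * (t : ℝ) ^ 2 / L := by
    rw [show 2 * (t : ℝ) ^ 2 * (2 / L ^ 5) = 4 * (t : ℝ) ^ 2 / L ^ 5 by ring]
    exact div_le_div_of_nonneg_left (by positivity) hLpos hL5
  rw [e2, hT, add_div]
  linarith

end Pool.Agent.H16.GPS
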