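import Pool.Agent.H16.GPS.Num.SelA

/-!
JOB GPS-SELQ (MP_c183ae_nt). Selberg weights: the quadratic form.

PROOF. `lamS_quad`: `1/[d,d'] = (d,d')/(d d') = ∑_{m | d, m | d'} φ(m)/(d d')`
(`Nat.sum_totient`), so the sum is `∑_{m ∈ Dr} φ(m) (∑_{d : m | d} λ_d/d)²`, and
`∑_{d ∈ Dr, m | d} λ_d/d = (1/G) ∑_{n ∈ Dr, m | n} (1/φ(n)) ∑_{m | d | n} μ(d) = μ(m)/(G φ(m))`; total
`∑_m 1/(G² φ(m)) = 1/G`. ~110 lines.
-/

set_option autoImplicit false

open Finset

namespace Pool.Agent.H16.GPS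

theorem SelQ.moeb_inner (n m : ℕ) (hn : Squarefree n) (hm : m ∣ n) :
    ∑ d ∈ n.divisors.filter (fun d => m ∣ d), ArithmeticFunction.moebius d
      = if n = m then ArithmeticFunction.moebius m else 0 := by
  obtain ⟨k, rfl⟩ := hm
  have hn0 : m * k ≠ 0 := hn.ne_zero
  have hm0 : m ≠ 0 := left_ne_zero_of_mul hn0
  have hk0 : k ≠ 0 := right_ne_zero_of_mul hn0
  have hcop : Nat.Coprime m k := (Nat.squarefree_mul_iff.mp hn).1
  have himg : (m * k).divisors.filter (fun d => m ∣ d) = k.divisors.image (fun e => m * e) := by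
    ext d
    simp only [mem_filter, Nat.mem_divisors, mem_image]
    constructor
    · rintro ⟨⟨h1, _⟩, ⟨e, rfl⟩⟩
      exact ⟨e, ⟨Nat.dvd_of_mul_dvd_mul_left (Nat.pos_of_ne_zero hm0) h1, hk0⟩, rfl⟩
    · rintro ⟨e, ⟨h1, _⟩, rfl⟩
      exact ⟨⟨Nat.mul_dvd_mul_left m h1, hn0⟩, Dvd.intro _ rfl⟩
  rw [himg, sum_image (fun a _ b _ h => Nat.eq_of_mul_eq_mul_left (Nat.pos_of_ne_zero hm0) h)]
  have h1 : ∀ e ∈ k.divisors, ArithmeticFunction.moebius (m * e)
      = ArithmeticFunction.moebius m * ArithmeticFunction.moebius e := by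
    intro e he
    exact ArithmeticFunction.isMultiplicative_moebius.map_mul_of_coprime
      (Nat.Coprime.coprime_dvd_right (Nat.dvd_of_mem_divisors he) hcop)
  rw [sum_congr rfl h1, ← mul_sum]
  have h2 : ∑ e ∈ k.divisors, ArithmeticFunction.moebius e = if k = 1 then 1 else 0 := by
    have := congrArg (fun f => f k) ArithmeticFunction.moebius_mul_coe_zeta
    simp only [ArithmeticFunction.one_apply] at this
    rw [← this]
    exact ArithmeticFunction.coe_mul_zeta_apply.symm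
  rw [h2]
  by_cases hk : k = 1
  · subst hk; simp
  · rw [if_neg hk, if_neg, mul_zero]
    intro h
    apply hk
    exact Nat.eq_of_mul_eq_mul_left (Nat.pos_of_ne_zero hm0) (by rw [h, mul_one])

theorem SelQ.Dr_filter_dvd {z R n : ℕ} (hn : n ∈ Dr z R) :
    (Dr z R).filter (fun d => d ∣ n) = n.divisors := by
  rw [mem_Dr] at hn
  ext d
  simp only [mem_filter, mem_Dr, Nat.mem_divisors]
  constructor
  · rintro ⟨_, h⟩; exact ⟨h, by omega⟩
  · rintro ⟨h, _⟩
    have hd : 1 ≤ d := Nat.pos_of_dvd_of_pos h (by omega)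
    have hd2 : d ≤ n := Nat.le_of_dvd (by omega) h
    exact ⟨⟨hd, by omega, hn.2.2.1.squarefree_of_dvd h,
      fun p hp hpd => hn.2.2.2 p hp (hpd.trans h)⟩, h⟩

theorem SelQ.lam_sum (z R : ℕ) (m : ℕ) (hm : m ∈ Dr z R) :
    ∑ d ∈ (Dr z R).filter (fun d => m ∣ d), lamS z R d / (d : ℝ)
      = ((ArithmeticFunction.moebius m : ℤ) : ℝ) / (GG z R * (m.totient : ℝ)) := by
  have h1 : ∀ d ∈ (Dr z R).filter (fun d => m ∣ d), lamS z R d / (d : ℝ)
      = (1 / GG z R) * ∑ n ∈ (Dr z R).filter (fun n => d ∣ n),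
        ((ArithmeticFunction.moebius d : ℤ) : ℝ) * (1 / (n.totient : ℝ)) := by
    intro d hd
    rw [mem_filter] at hd
    have hd0 : (d : ℝ) ≠ 0 := by
      have := (mem_Dr.mp hd.1).1
      positivity
    unfold lamS
    rw [if_pos hd.1, ← mul_sum]
    field_simp
  rw [sum_congr rfl h1, ← mul_sum]
  rw [sum_comm' (s := (Dr z R).filter (fun d => m ∣ d)) (t := fun d => (Dr z R).filter (fun n => d ∣ n))
    (t' := (Dr z R).filter (fun n => m ∣ n))
    (s' := fun n => n.divisors.filter (fun d => m ∣ d))]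
  · have h2 : ∀ n ∈ (Dr z R).filter (fun n => m ∣ n),
        ∑ d ∈ n.divisors.filter (fun d => m ∣ d),
          ((ArithmeticFunction.moebius d : ℤ) : ℝ) * (1 / (n.totient : ℝ))
        = if n = m then ((ArithmeticFunction.moebius m : ℤ) : ℝ) * (1 / (m.totient : ℝ)) else 0 := by
      intro n hn
      rw [mem_filter] at hn
      rw [← sum_mul, ← Int.cast_sum, SelQ.moeb_inner n m (mem_Dr.mp hn.1).2.2.1 hn.2]
      by_cases h : n = m
      · subst h; simp
      · simp [h]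
    rw [sum_congr rfl h2, sum_ite_eq' , if_pos (by simp [hm])]
    rw [one_div, one_div, ← mul_assoc, mul_comm (GG z R)⁻¹, mul_assoc, ← mul_inv, div_eq_mul_inv]
  · intro d n
    simp only [mem_filter]
    constructor
    · rintro ⟨⟨hd, hmd⟩, hn, hdn⟩
      exact ⟨⟨by rw [Nat.mem_divisors]; exact ⟨hdn, by have := (mem_Dr.mp hn).1; omega⟩, hmd⟩, hn,
        hmd.trans hdn⟩
    · rintro ⟨⟨hd, hmd⟩, hn, _⟩
      have := SelQ.Dr_filter_dvd hn
      rw [← this, mem_filter] at hd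
      exact ⟨⟨hd.1, hmd⟩, hn, hd.2⟩

theorem SelQ.inv_lcm (z R d d' : ℕ) (hd : d ∈ Dr z R) (hd' : d' ∈ Dr z R) :
    1 / (Nat.lcm d d' : ℝ) = ∑ m ∈ (Dr z R).filter (fun m => m ∣ d ∧ m ∣ d'),
      (m.totient : ℝ) / ((d : ℝ) * d') := by
  have hdp := (mem_Dr.mp hd).1
  have hdp' := (mem_Dr.mp hd').1
  have hset : (Dr z R).filter (fun m => m ∣ d ∧ m ∣ d') = (Nat.gcd d d').divisors := by
    rw [← SelQ.Dr_filter_dvd (z := z) (R := R) (n := Nat.gcd d d')]
    · ext m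
      simp only [mem_filter, Nat.dvd_gcd_iff]
    · have : Nat.gcd d d' ∈ d.divisors := Nat.mem_divisors.mpr ⟨Nat.gcd_dvd_left _ _, by omega⟩
      rw [← SelQ.Dr_filter_dvd hd] at this
      exact (mem_filter.mp this).1
  rw [hset, ← sum_div, ← Nat.cast_sum, Nat.sum_totient]
  have hl : (Nat.gcd d d' : ℝ) * (Nat.lcm d d' : ℝ) = (d : ℝ) * d' := by
    exact_mod_cast Nat.gcd_mul_lcm d d'
  have hl0 : (Nat.lcm d d' : ℝ) ≠ 0 := by
    have : 0 < Nat.lcm d d' := Nat.lcm_pos hdp hdp'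
    positivity
  have hdd : (d : ℝ) * d' ≠ 0 := by
    have h1 : (0 : ℝ) < d := by exact_mod_cast hdp
    have h2 : (0 : ℝ) < d' := by exact_mod_cast hdp'
    positivity
  rw [div_eq_div_iff hl0 hdd, one_mul, hl]

theorem lamS_quad (z R : ℕ) (hR : 1 ≤ R) :
    ∑ d ∈ Dr z R, ∑ d' ∈ Dr z R, lamS z R d * lamS z R d' / (Nat.lcm d d' : ℝ) = 1 / GG z R := by
  have hG := GG_pos z R hR
  have h1 : ∀ d ∈ Dr z R, ∀ d' ∈ Dr z R, lamS z R d * lamS z R d' / (Nat.lcm d d' : ℝ)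
      = ∑ m ∈ Dr z R, (m.totient : ℝ) * ((if m ∣ d then lamS z R d / d else 0) *
        (if m ∣ d' then lamS z R d' / d' else 0)) := by
    intro d hd d' hd'
    rw [div_eq_mul_one_div, SelQ.inv_lcm z R d d' hd hd', mul_sum, sum_filter]
    apply sum_congr rfl
    intro m _
    by_cases ha : m ∣ d
    · by_cases hb : m ∣ d'
      · simp only [ha, hb, and_self, if_true]
        ring
      · simp [hb]
    · simp [ha]
  have h2 : ∑ d ∈ Dr z R, ∑ d' ∈ Dr z R, lamS z R d * lamS z R d' / (Nat.lcm d d' : ℝ)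
      = ∑ m ∈ Dr z R, (m.totient : ℝ) *
        (∑ d ∈ (Dr z R).filter (fun d => m ∣ d), lamS z R d / (d : ℝ)) ^ 2 := by
    rw [sum_congr rfl (fun d hd => sum_congr rfl (h1 d hd))]
    have : ∀ d ∈ Dr z R, ∑ d' ∈ Dr z R, ∑ m ∈ Dr z R, (m.totient : ℝ) *
        ((if m ∣ d then lamS z R d / d else 0) * (if m ∣ d' then lamS z R d' / d' else 0))
        = ∑ m ∈ Dr z R, ∑ d' ∈ Dr z R, (m.totient : ℝ) *
        ((if m ∣ d then lamS z R d / d else 0) * (if m ∣ d' then lamS z R d' / d' else 0)) :=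
      fun d _ => sum_comm
    rw [sum_congr rfl this, sum_comm]
    apply sum_congr rfl
    intro m _
    rw [sq, sum_filter, sum_mul_sum, mul_sum]
    apply sum_congr rfl
    intro d _
    rw [mul_sum]
  rw [h2]
  have h3 : ∀ m ∈ Dr z R, (m.totient : ℝ) *
        (∑ d ∈ (Dr z R).filter (fun d => m ∣ d), lamS z R d / (d : ℝ)) ^ 2
      = (1 / (m.totient : ℝ)) * (1 / GG z R ^ 2) := by
    intro m hm
    rw [SelQ.lam_sum z R m hm]
    have hm1 := (mem_Dr.mp hm).1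
    have hφ : (m.totient : ℝ) ≠ 0 := by
      have := Nat.totient_pos.mpr hm1
      positivity
    have hμ : (((ArithmeticFunction.moebius m : ℤ) : ℝ)) ^ 2 = 1 := by
      exact_mod_cast ArithmeticFunction.moebius_sq_eq_one_of_squarefree (mem_Dr.mp hm).2.2.1
    rw [div_pow, hμ]
    field_simp
  rw [sum_congr rfl h3, ← sum_mul]
  change GG z R * (1 / GG z R ^ 2) = 1 / GG z R
  field_simp

end Pool.Agent.H16.GPS
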