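import Pool.Agent.H16.GPS.Num.GBounds
import Pool.Agent.H16.GPS.Num.Selberg
import Pool.Agent.H16.SAN

/-!
JOB GPS-FLENU (MP_c183ae_nt). The weight of the primes is below the majorant.

PROOF of `f_le_nu`: if `aw ℓ' (RR η ℓ) n ≠ 0` then `n` is a prime `> RR η ℓ`, so the only divisor of `n` in
`Dr z R` is `1` (`lamS_one`), no `p ∈ P` divides `n` (`p ≤ z ≤ R < n`), `nuN = GG / VP P`. `GG ≥ c log R/log z ≥ (c η/2) ℓ/log z`
(`GG_lower`), `1/VP P ≥ (1/2) Vp w / Vp z ≥ c log z / log w` (removing the prime `e` costs a factor `≤ 2`;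
`Vp_le`, `Vp_ge` of H16/Vprod), so `nuN ≥ c' η ℓ / log w`. On the other side `aw ≤ log n ≤ 2 ℓ` (`tent ≤ 1`) and
`φ(WW)/WW = ∏_{p ≤ w, p ≠ e} (1 - 1/p) ≤ 2 Vp w ≤ 2/log w`. ~130 lines.
-/

set_option autoImplicit false

open Finset Filter

namespace Pool.Agent.H16.GPS

open Pool.Agent.H16

/-- removing one prime costs a factor at most `2` -/
theorem fn_VP_erase (S : Finset ℕ) (hS : ∀ p ∈ S, p.Prime) (e : ℕ) :
    VP (S.erase e) ≤ 2 * VP S := by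
  have hpos : ∀ p ∈ S, (0 : ℝ) < 1 - 1 / (p : ℝ) := fun p hp => one_sub_inv_pos (hS p hp)
  have h0 : 0 < VP (S.erase e) := by
    unfold VP
    exact Finset.prod_pos fun p hp => hpos p (Finset.mem_of_mem_erase hp)
  by_cases he : e ∈ S
  · have h1 : VP S = (1 - 1 / (e : ℝ)) * VP (S.erase e) := by
      unfold VP
      exact (Finset.mul_prod_erase S _ he).symm
    have h2 : (1 : ℝ) / 2 ≤ 1 - 1 / (e : ℝ) := by
      have h3 : (2 : ℝ) ≤ e := by exact_mod_cast (hS e he).two_le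
      have h4 : 1 / (e : ℝ) ≤ 1 / 2 := one_div_le_one_div_of_le (by norm_num) h3
      linarith
    rw [h1]
    nlinarith
  · rw [Finset.erase_eq_of_notMem he] at h0 ⊢
    linarith

theorem fn_VP_primes (w : ℕ) (hw : 1 ≤ w) : VP (primesIoc 1 w) = Vp w := by
  have h1 := Vp_mul 1 w hw
  have h2 : Vp 1 = 1 := by
    unfold Vp
    have : Nat.primesLE 1 = ∅ := by decide
    rw [this, Finset.prod_empty]
  rw [h2, one_mul] at h1
  exact h1

theorem fn_totient (ℓ : ℝ) (e : ℕ) (hw : 2 ≤ ww ℓ) :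
    ((WW ℓ e).totient : ℝ) / (WW ℓ e : ℝ) ≤ 2 / Real.log (ww ℓ) := by
  have hpr : ∀ p ∈ (primesIoc 1 (ww ℓ)).erase e, p.Prime := fun p hp =>
    (mem_primesIoc.mp (Finset.mem_of_mem_erase hp)).2.2
  have h1 : ((WW ℓ e).totient : ℝ) / (WW ℓ e : ℝ) = VP ((primesIoc 1 (ww ℓ)).erase e) := by
    unfold WW VP
    rw [totient_prod_primes _ hpr, Nat.cast_prod, ← Finset.prod_div_distrib]
    refine Finset.prod_congr rfl fun p hp => ?_
    have hp0 : (p : ℝ) ≠ 0 := by exact_mod_cast (hpr p hp).ne_zero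
    rw [sub_div, div_self hp0]
  rw [h1]
  calc VP ((primesIoc 1 (ww ℓ)).erase e) ≤ 2 * VP (primesIoc 1 (ww ℓ)) :=
        fn_VP_erase _ (fun p hp => (mem_primesIoc.mp hp).2.2) e
    _ = 2 * Vp (ww ℓ) := by rw [fn_VP_primes _ (by omega)]
    _ ≤ 2 * (1 / Real.log (ww ℓ)) := by
        have := Vp_le (ww ℓ) hw
        linarith
    _ = _ := by ring

theorem fn_VP_pos (K : ℕ) (η ℓ : ℝ) (e : ℕ) : 0 < VP (PP K η ℓ e) := by
  unfold VP
  refine Finset.prod_pos fun p hp => one_sub_inv_pos ?_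
  unfold PP at hp
  exact (mem_primesIoc.mp (Finset.mem_of_mem_erase hp)).2.2

theorem fn_VP_PP (c : ℝ) (hc : 0 < c) (hV : ∀ n : ℕ, 2 ≤ n → c / Real.log n ≤ Vp n)
    (K : ℕ) (η ℓ : ℝ) (e : ℕ) (hw : 2 ≤ ww ℓ) (hwz : ww ℓ ≤ zz K η ℓ) :
    VP (PP K η ℓ e) ≤ 2 * Real.log (ww ℓ) / (c * Real.log (zz K η ℓ)) := by
  have hlw : 0 < Real.log (ww ℓ) := Real.log_pos (by exact_mod_cast hw)
  have hlz : 0 < Real.log (zz K η ℓ) := Real.log_pos (by exact_mod_cast (lt_of_lt_of_le hw hwz))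
  have h1 : VP (PP K η ℓ e) ≤ 2 * VP (primesIoc (ww ℓ) (zz K η ℓ)) :=
    fn_VP_erase _ (fun p hp => (mem_primesIoc.mp hp).2.2) e
  have h2 : Vp (ww ℓ) * VP (primesIoc (ww ℓ) (zz K η ℓ)) = Vp (zz K η ℓ) := Vp_mul _ _ hwz
  have h3 : VP (primesIoc (ww ℓ) (zz K η ℓ)) = Vp (zz K η ℓ) / Vp (ww ℓ) := by
    rw [eq_div_iff (Vp_pos _).ne', mul_comm]
    exact h2
  have h4 : Vp (zz K η ℓ) / Vp (ww ℓ) ≤
      (1 / Real.log (zz K η ℓ)) / (c / Real.log (ww ℓ)) :=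
    div_le_div₀ (by positivity) (Vp_le _ (hw.trans hwz)) (by positivity) (hV _ hw)
  calc VP (PP K η ℓ e) ≤ 2 * (Vp (zz K η ℓ) / Vp (ww ℓ)) := by rw [← h3]; exact h1
    _ ≤ 2 * ((1 / Real.log (zz K η ℓ)) / (c / Real.log (ww ℓ))) := by linarith
    _ = _ := by
        field_simp

theorem fn_nu_nonneg (K : ℕ) (η ℓ : ℝ) (e n : ℕ) : 0 ≤ nuN K η ℓ e n := by
  unfold nuN
  have h1 : 0 ≤ GG (zz K η ℓ) (RR η ℓ) := by
    unfold GG
    exact Finset.sum_nonneg fun _ _ => by positivity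
  have h2 := (fn_VP_pos K η ℓ e).le
  refine mul_nonneg (mul_nonneg (div_nonneg h1 h2) ?_) (sq_nonneg _)
  split_ifs <;> norm_num

theorem fn_nu_prime (K : ℕ) (η ℓ : ℝ) (e n : ℕ) (hR : 1 ≤ RR η ℓ) (hzR : zz K η ℓ ≤ RR η ℓ)
    (hn : n.Prime) (hRn : RR η ℓ < n) :
    nuN K η ℓ e n = GG (zz K η ℓ) (RR η ℓ) / VP (PP K η ℓ e) := by
  classical
  unfold nuN
  rw [if_pos, mul_one]
  · have h1 : (Dr (zz K η ℓ) (RR η ℓ)).filter (fun d => d ∣ n) = {1} := by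
      ext d
      rw [Finset.mem_filter, Finset.mem_singleton, mem_Dr]
      constructor
      · rintro ⟨⟨h1, h2, _⟩, h3⟩
        rcases (Nat.dvd_prime hn).1 h3 with h4 | h4
        · exact h4
        · omega
      · rintro rfl
        refine ⟨⟨le_rfl, hR, squarefree_one, fun p hp hp1 => ?_⟩, one_dvd _⟩
        exact absurd (Nat.dvd_one.1 hp1) hp.one_lt.ne'
    have h2 : ∑ d ∈ (Dr (zz K η ℓ) (RR η ℓ)).filter (fun d => d ∣ n),
        lamS (zz K η ℓ) (RR η ℓ) d = 1 := by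
      rw [h1, Finset.sum_singleton, lamS_one _ _ hR]
    have h3 : (∑ d ∈ (Dr (zz K η ℓ) (RR η ℓ)).filter (fun d => d ∣ n),
        lamS (zz K η ℓ) (RR η ℓ) d) ^ 2 = 1 := by rw [h2, one_pow]
    rw [h3, mul_one]
  · intro p hp hpn
    unfold PP at hp
    have h1 := mem_primesIoc.mp (Finset.mem_of_mem_erase hp)
    rcases (Nat.dvd_prime hn).1 hpn with h2 | h2
    · exact h1.2.2.one_lt.ne' h2
    · omega

/-- the parameters for large `ℓ` -/
theorem fn_params (K : ℕ) (η : ℝ) (hη0 : 0 < η) (hη1 : η ≤ 1) : ∀ᶠ ℓ : ℝ in atTop,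
    0 < ℓ ∧ 2 ≤ ww ℓ ∧ ww ℓ ≤ zz K η ℓ ∧ zz K η ℓ ≤ RR η ℓ ∧ 2 ≤ RR η ℓ ∧
      η * ℓ / 2 ≤ Real.log (RR η ℓ) := by
  have hlog : Tendsto Real.log atTop atTop := Real.tendsto_log_atTop
  -- polynomial against exponential
  have hpoly : ∀ᶠ L : ℝ in atTop, (8 * (K : ℝ) + 5) / η * L ^ 6 ≤ Real.exp L := by
    have h := (Real.isLittleO_pow_exp_atTop (n := 6)).bound
      (show 0 < ((8 * (K : ℝ) + 5) / η)⁻¹ by positivity)
    filter_upwards [h, eventually_ge_atTop (0 : ℝ)] with L hL hL0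
    rw [Real.norm_of_nonneg (by positivity), Real.norm_of_nonneg (Real.exp_pos L).le] at hL
    have h1 : 0 < (8 * (K : ℝ) + 5) / η := by positivity
    calc (8 * (K : ℝ) + 5) / η * L ^ 6
        ≤ (8 * (K : ℝ) + 5) / η * (((8 * (K : ℝ) + 5) / η)⁻¹ * Real.exp L) :=
          mul_le_mul_of_nonneg_left hL h1.le
      _ = Real.exp L := by rw [← mul_assoc, mul_inv_cancel₀ h1.ne', one_mul]
  filter_upwards [hlog.eventually hpoly, hlog.eventually (eventually_ge_atTop 2),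
    eventually_gt_atTop 0, eventually_ge_atTop (2 / η)] with ℓ h1 h2 h3 h4
  rw [Real.exp_log h3] at h1
  set L := Real.log ℓ with hL
  have hL0 : 0 ≤ L := by linarith
  have hηℓ : 2 ≤ η * ℓ := by
    rw [div_le_iff₀ hη0] at h4
    linarith
  have hceil : (⌈L⌉₊ : ℝ) ≤ 2 * L := by
    have := (Nat.ceil_lt_add_one hL0).le
    linarith
  have hkk : (kk K ℓ : ℝ) = K * (⌈L⌉₊ : ℝ) := by unfold kk; push_cast; rfl
  have hden : 4 * (kk K ℓ : ℝ) + 5 ≤ (8 * (K : ℝ) + 5) * L := by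
    rw [hkk]
    have hK : (0 : ℝ) ≤ K := Nat.cast_nonneg K
    nlinarith [mul_le_mul_of_nonneg_left hceil hK]
  have hden0 : (0 : ℝ) < 4 * (kk K ℓ : ℝ) + 5 := by positivity
  have hw2 : 2 ≤ ww ℓ := by
    unfold ww
    apply Nat.le_floor
    have : (2 : ℝ) ^ 5 ≤ L ^ 5 := pow_le_pow_left₀ (by norm_num) h2 5
    push_cast
    linarith
  have hwz : ww ℓ ≤ zz K η ℓ := by
    unfold ww zz
    apply Nat.floor_le_floor
    have h5 : L ^ 5 ≤ η * ℓ / (4 * (kk K ℓ : ℝ) + 5) := by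
      rw [le_div_iff₀ hden0]
      calc L ^ 5 * (4 * (kk K ℓ : ℝ) + 5) ≤ L ^ 5 * ((8 * (K : ℝ) + 5) * L) :=
            mul_le_mul_of_nonneg_left hden (by positivity)
        _ = η * ((8 * (K : ℝ) + 5) / η * L ^ 6) := by
            field_simp
        _ ≤ η * ℓ := mul_le_mul_of_nonneg_left h1 hη0.le
    have h6 := Real.add_one_le_exp (η * ℓ / (4 * (kk K ℓ : ℝ) + 5))
    linarith
  have hzR : zz K η ℓ ≤ RR η ℓ := by
    unfold zz RR
    apply Nat.floor_le_floor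
    apply Real.exp_le_exp.2
    apply div_le_self (by positivity)
    have : (0 : ℝ) ≤ (kk K ℓ : ℝ) := Nat.cast_nonneg _
    linarith
  have hR2 : 2 ≤ RR η ℓ := hw2.trans (hwz.trans hzR)
  refine ⟨h3, hw2, hwz, hzR, hR2, ?_⟩
  -- `log R`
  have h7 : Real.exp (η * ℓ / 2) ≤ (RR η ℓ : ℝ) := by
    have h8 : Real.exp (η * ℓ) - 1 < (RR η ℓ : ℝ) := by
      unfold RR
      have := Nat.lt_floor_add_one (Real.exp (η * ℓ))
      linarith
    have h9 : Real.exp (η * ℓ) = Real.exp (η * ℓ / 2) * Real.exp (η * ℓ / 2) := by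
      rw [← Real.exp_add]; congr 1; ring
    have h10 : 2 ≤ Real.exp (η * ℓ / 2) := by
      have := Real.add_one_le_exp (η * ℓ / 2)
      linarith
    nlinarith
  calc η * ℓ / 2 = Real.log (Real.exp (η * ℓ / 2)) := (Real.log_exp _).symm
    _ ≤ _ := Real.log_le_log (Real.exp_pos _) h7

theorem f_le_nu (K : ℕ) (η : ℝ) (hη0 : 0 < η) (hη1 : η ≤ 1) : ∃ c₀ : ℝ, 0 < c₀ ∧
    ∀ᶠ ℓ : ℝ in atTop, ∀ (e n : ℕ) (ℓ' : ℝ), (n : ℝ) ≤ Real.exp (2 * ℓ) →
      c₀ * (((WW ℓ e).totient : ℝ) / (WW ℓ e : ℝ) * aw ℓ' (RR η ℓ) n) ≤ nuN K η ℓ e n := by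
  obtain ⟨c1, hc1, hG⟩ := GG_lower
  obtain ⟨c2, hc2, hV⟩ := Vp_ge
  refine ⟨c1 * c2 * η / 16, by positivity, ?_⟩
  filter_upwards [fn_params K η hη0 hη1] with ℓ hℓ e n ℓ' hn
  obtain ⟨hℓ0, hw2, hwz, hzR, hR2, hlR⟩ := hℓ
  by_cases haw : n.Prime ∧ RR η ℓ < n
  · rw [fn_nu_prime K η ℓ e n (by omega) hzR haw.1 haw.2]
    have hn0 : (0 : ℝ) < n := by exact_mod_cast haw.1.pos
    have hlw : 0 < Real.log (ww ℓ) := Real.log_pos (by exact_mod_cast hw2)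
    have hlz : 0 < Real.log (zz K η ℓ) := Real.log_pos (by exact_mod_cast (lt_of_lt_of_le hw2 hwz))
    have h1 : aw ℓ' (RR η ℓ) n ≤ 2 * ℓ := by
      unfold aw
      rw [if_pos haw]
      have h2 : Real.log n ≤ 2 * ℓ := by
        calc Real.log n ≤ Real.log (Real.exp (2 * ℓ)) := Real.log_le_log hn0 hn
          _ = 2 * ℓ := Real.log_exp _
      have h3 := tent_le_one (Real.exp ℓ' / 3) n (by positivity) hn0
      have h4 := tent_nonneg (Real.exp ℓ' / 3) n (by positivity) hn0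
      have h5 : 0 ≤ Real.log n := Real.log_natCast_nonneg n
      nlinarith
    have h2 := fn_totient ℓ e hw2
    have h3 : 0 ≤ aw ℓ' (RR η ℓ) n := aw_nonneg _ _ _
    have h4 : ((WW ℓ e).totient : ℝ) / (WW ℓ e : ℝ) * aw ℓ' (RR η ℓ) n ≤
        2 / Real.log (ww ℓ) * (2 * ℓ) :=
      mul_le_mul h2 h1 h3 (by positivity)
    have h5 := fn_VP_PP c2 hc2 hV K η ℓ e hw2 hwz
    have h6 := fn_VP_pos K η ℓ e
    have h7 := hG (zz K η ℓ) (RR η ℓ) (hw2.trans hwz) hR2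
    calc c1 * c2 * η / 16 * (((WW ℓ e).totient : ℝ) / (WW ℓ e : ℝ) * aw ℓ' (RR η ℓ) n)
        ≤ c1 * c2 * η / 16 * (2 / Real.log (ww ℓ) * (2 * ℓ)) :=
          mul_le_mul_of_nonneg_left h4 (by positivity)
      _ = (c1 * (η * ℓ / 2) / Real.log (zz K η ℓ)) /
            (2 * Real.log (ww ℓ) / (c2 * Real.log (zz K η ℓ))) := by
          field_simp
          ring
      _ ≤ (c1 * Real.log (RR η ℓ) / Real.log (zz K η ℓ)) / VP (PP K η ℓ e) := by
          apply div_le_div₀ _ _ h6 h5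
          · have : 0 ≤ Real.log (RR η ℓ) := Real.log_natCast_nonneg _
            positivity
          · gcongr
      _ ≤ _ := div_le_div_of_nonneg_right h7 h6.le
  · have h0 : aw ℓ' (RR η ℓ) n = 0 := by
      unfold aw
      rw [if_neg haw]
    rw [h0, mul_zero, mul_zero]
    exact fn_nu_nonneg K η ℓ e n

end Pool.Agent.H16.GPS
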