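import Pool.Agent.H16.GPS.Num.MollUnif
import Pool.Agent.H16.GPS.Num.SmallOf

/-!
One exceptional modulus for all `ℓ' ∈ [ℓ/2, ℓ]`: the form used.
-/

set_option autoImplicit false

open Complex Finset Filter Topology

namespace Pool.Agent.H16.GPS

open Pool.Agent.H16 Pool.Agent.H90

theorem small_unif (A A2 : ℝ) (hA : 0 ≤ A) (hA2 : 0 ≤ A2) (Y0 : ℕ) : ∃ L0 : ℝ, ∀ ℓ : ℝ, L0 ≤ ℓ →
    ∃ q₁ : ℕ, Y0 < q₁ ∧ ∀ ℓ' : ℝ, ℓ / 2 ≤ ℓ' → ℓ' ≤ ℓ → SmallProp A A2 ℓ' q₁ := by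
  obtain ⟨L1, hL1⟩ := moll_unif (1 / 200) (by norm_num) (A + 12) Y0
  obtain ⟨L2, hL2⟩ := smallProp_of_moll A A2 hA hA2
  refine ⟨max L1 (2 * L2), fun ℓ hℓ => ?_⟩
  obtain ⟨q₁, hq, h⟩ := hL1 ℓ ((le_max_left _ _).trans hℓ)
  refine ⟨q₁, hq, fun ℓ' h1 h2 => hL2 ℓ' ?_ q₁ (h ℓ' h1 h2)⟩
  have := (le_max_right _ _).trans hℓ
  linarith

end Pool.Agent.H16.GPS
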