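import Pool.Agent.H16.GPS.Num.Defs
import Pool.Agent.H16.GPS.Num.Unif
import Pool.Agent.H16.MT17
import Pool.Agent.H16.CH2
import Pool.Agent.H90.LS.ChenSums

/-!
JOB GPS-MEAN (MP_c183ae_nt). Mean value of the primes along `W m A ± 1` (Page / Siegel-Walfisz with one exceptional
prime): `RP_supK` (H16/MT4.lean) with the empty sieving set at `ℓ' = log (W m Y)`, modulus `W' = WW ℓ e * m`, and
`X_asymp` (H16/CH2.lean) for the total mass.
-/

set_option autoImplicit false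

open Finset Filter

namespace Pool.Agent.H16.GPS

open Pool.Agent.H16

/-- every prime factor of `m` divides `w` -/
lemma totient_mul_of_dvd (w : ℕ) : ∀ m : ℕ, 0 < m → (∀ p, p.Prime → p ∣ m → p ∣ w) →
    (w * m).totient = w.totient * m := by
  intro m
  induction m using Nat.strong_induction_on with
  | _ m ih =>
    intro hm h
    rcases Nat.lt_or_ge 1 m with h1 | h1
    · obtain ⟨p, hp, k, rfl⟩ := Nat.exists_prime_and_dvd (by omega : m ≠ 1)
      have hk : 0 < k := Nat.pos_of_mul_pos_left hm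
      have hlt : k < p * k := by
        have := hp.two_le
        nlinarith
      have h2 := ih k hlt hk (fun q hq hqk => h q hq (hqk.mul_left p))
      have h3 : p ∣ w * k := (h p hp (Dvd.intro _ rfl)).mul_right k
      have e : w * (p * k) = p * (w * k) := by ring
      rw [e, Nat.totient_mul_of_prime_of_dvd hp h3, h2]
      ring
    · have : m = 1 := by omega
      subst this
      simp

lemma WW_pos (ℓ : ℝ) (e : ℕ) : 0 < WW ℓ e := by
  unfold WW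
  apply Finset.prod_pos
  intro p hp
  exact (mem_primesIoc.mp (Finset.mem_of_mem_erase hp)).2.2.pos

lemma prime_dvd_WW {ℓ : ℝ} {e p : ℕ} (hp : p.Prime) : p ∣ WW ℓ e ↔ p ≤ ww ℓ ∧ p ≠ e := by
  unfold WW
  constructor
  · intro h
    obtain ⟨q, hq, hpq⟩ := (Prime.dvd_finsetProd_iff hp.prime _).mp h
    have hq2 := mem_primesIoc.mp (Finset.mem_of_mem_erase hq)
    have : p = q := (Nat.prime_dvd_prime_iff_eq hp hq2.2.2).mp hpq
    subst this
    exact ⟨hq2.2.1, Finset.ne_of_mem_erase hq⟩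
  · intro h
    exact Finset.dvd_prod_of_mem _ (Finset.mem_erase.mpr ⟨h.2, mem_primesIoc.mpr ⟨hp.one_lt, h.1, hp⟩⟩)

lemma WW_le_four_pow (ℓ : ℝ) (e : ℕ) : WW ℓ e ≤ 4 ^ (ww ℓ) := by
  refine le_trans ?_ (primorial_le_four_pow (ww ℓ))
  unfold WW primorial
  apply Finset.prod_le_prod_of_subset_of_one_le'
  · intro p hp
    have hp2 := mem_primesIoc.mp (Finset.mem_of_mem_erase hp)
    rw [Finset.mem_filter, Finset.mem_range]
    exact ⟨by omega, hp2.2.2⟩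
  · intro p hp _
    exact (Finset.mem_filter.mp hp).2.one_le

/-- the size conditions at `ℓ'` -/
lemma ev_size (η : ℝ) (hη0 : 0 < η) : ∀ᶠ ℓ : ℝ in atTop,
    1 ≤ Real.log ℓ ∧ 1 ≤ ℓ ∧
    2 * (Real.log ℓ) ^ 5 + (Real.log ℓ) ^ 4 ≤ ℓ / (4 * (Real.log ℓ) ^ 2) ∧
    (Real.log ℓ) ^ 5 ≤ Real.exp (η * ℓ) - 1 ∧ 4 ≤ Real.exp (η * ℓ) := by
  have h1 : ∀ᶠ ℓ : ℝ in atTop, (Real.log ℓ) ^ 7 ≤ 1 / 12 * ℓ := by
    have := (Real.isLittleO_pow_log_id_atTop (n := 7)).bound (by norm_num : (0 : ℝ) < 1 / 12)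
    filter_upwards [this, eventually_ge_atTop (1 : ℝ)] with ℓ h hℓ
    simp only [id, Real.norm_eq_abs] at h
    rw [abs_of_nonneg (by linarith : (0:ℝ) ≤ ℓ)] at h
    exact (le_abs_self _).trans h
  have h2 : ∀ᶠ ℓ : ℝ in atTop, (Real.log ℓ) ^ 5 ≤ η / 2 * ℓ := by
    have := (Real.isLittleO_pow_log_id_atTop (n := 5)).bound (by positivity : (0 : ℝ) < η / 2)
    filter_upwards [this, eventually_ge_atTop (1 : ℝ)] with ℓ h hℓ
    simp only [id, Real.norm_eq_abs] at h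
    rw [abs_of_nonneg (by linarith : (0:ℝ) ≤ ℓ)] at h
    exact (le_abs_self _).trans h
  filter_upwards [h1, h2, eventually_ge_atTop (Real.exp 1), eventually_ge_atTop (3 / η)] with ℓ h1 h2 h3 h4
  have e1 : (1 : ℝ) ≤ Real.exp 1 := Real.one_le_exp (by norm_num)
  have hℓ0 : 0 < ℓ := by linarith
  have hL : 1 ≤ Real.log ℓ := by
    rw [Real.le_log_iff_exp_le hℓ0]; exact h3
  have hηℓ : 3 ≤ η * ℓ := by
    rw [div_le_iff₀ hη0] at h4
    linarith [mul_comm η ℓ]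
  have hexp := Real.add_one_le_exp (η * ℓ)
  refine ⟨hL, by linarith, ?_, ?_, by linarith⟩
  · rw [le_div_iff₀ (by positivity)]
    have h5 : (Real.log ℓ) ^ 6 ≤ (Real.log ℓ) ^ 7 := pow_le_pow_right₀ hL (by norm_num)
    nlinarith
  · have : η / 2 * ℓ ≤ η * ℓ := by nlinarith
    linarith

lemma sh_inj {σ : Bool} {W A B : ℕ} (hW : 0 < W) (hA : 0 < A) (hB : 0 < B)
    (h : sh σ (W * A) = sh σ (W * B)) : A = B := by
  have hA' : 0 < W * A := Nat.mul_pos hW hA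
  have hB' : 0 < W * B := Nat.mul_pos hW hB
  have h2 : W * A = W * B := by
    unfold sh at h
    split_ifs at h <;> omega
  exact Nat.eq_of_mul_eq_mul_left hW h2

/-- the residue class as an image -/
lemma class_sum_le (ℓ : ℝ) (y W Y : ℕ) (hW : 0 < W) (hexp : Real.exp ℓ = ((W * Y : ℕ) : ℝ))
    (σ : Bool) (A0 : ℕ) (hA0 : A0 = if σ then 1 else W - 1) :
    ∑ n ∈ (Ioc 0 ⌊Real.exp ℓ⌋₊).filter (fun n => n ≡ A0 [MOD W]), aw ℓ y n ≤
      ∑ A ∈ Icc 1 Y, aw ℓ y (sh σ (W * A)) := by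
  classical
  have e1 : ∑ A ∈ Icc 1 Y, aw ℓ y (sh σ (W * A)) =
      ∑ n ∈ (Icc 1 Y).image (fun A => sh σ (W * A)), aw ℓ y n := by
    rw [Finset.sum_image]
    intro A hA B hB h
    rw [Finset.mem_coe, Finset.mem_Icc] at hA hB
    exact sh_inj hW hA.1 hB.1 h
  rw [e1, ← Finset.sum_filter_ne_zero]
  apply Finset.sum_le_sum_of_subset_of_nonneg
  · intro n hn
    rw [Finset.mem_filter, Finset.mem_filter, Finset.mem_Ioc] at hn
    obtain ⟨⟨⟨hn0, hnN⟩, hmod⟩, hne⟩ := hn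
    have hp := (aw_ne_zero hne).1
    have hlt : n < W * Y := by
      by_contra hcon
      push Not at hcon
      apply hne
      apply aw_zero_of_big
      rw [hexp]
      exact_mod_cast hcon
    rw [Finset.mem_image]
    cases σ with
    | true =>
      simp only [if_true] at hA0
      subst hA0
      have h1 : W ∣ n - 1 := (Nat.modEq_iff_dvd' hp.one_le).mp hmod.symm
      obtain ⟨A, hA⟩ := h1
      have h2 := hp.two_le
      have hApos : 0 < A := by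
        rcases Nat.eq_zero_or_pos A with h0 | h0
        · rw [h0, mul_zero] at hA; omega
        · exact h0
      refine ⟨A, Finset.mem_Icc.mpr ⟨hApos, ?_⟩, ?_⟩
      · have : W * A < W * Y := by omega
        exact (Nat.lt_of_mul_lt_mul_left this).le
      · simp only [sh, if_true]
        omega
    | false =>
      simp only [Bool.false_eq_true, if_false] at hA0
      subst hA0
      have h1 : n + 1 ≡ 0 [MOD W] := by
        have h2 : n + 1 ≡ (W - 1) + 1 [MOD W] := Nat.ModEq.add_right 1 hmod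
        rw [Nat.sub_add_cancel hW] at h2
        exact h2.trans (by simp [Nat.ModEq])
      obtain ⟨A, hA⟩ := (Nat.modEq_zero_iff_dvd.mp h1)
      have hApos : 0 < A := by
        rcases Nat.eq_zero_or_pos A with h0 | h0
        · rw [h0, mul_zero] at hA; omega
        · exact h0
      refine ⟨A, Finset.mem_Icc.mpr ⟨hApos, ?_⟩, ?_⟩
      · have : W * A ≤ W * Y := by omega
        exact Nat.le_of_mul_le_mul_left this hW
      · simp only [sh, Bool.false_eq_true, if_false]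
        omega
  · intro n _ _
    exact aw_nonneg _ _ _

lemma aw_mono_y (ℓ : ℝ) {y y' : ℕ} (h : y ≤ y') (n : ℕ) : aw ℓ y' n ≤ aw ℓ y n := by
  by_cases h1 : n.Prime ∧ y' < n
  · have h2 : n.Prime ∧ y < n := ⟨h1.1, by omega⟩
    unfold aw
    rw [if_pos h1, if_pos h2]
  · have : aw ℓ y' n = 0 := by
      unfold aw; rw [if_neg h1]
    rw [this]
    exact aw_nonneg _ _ _

/-- lower bound for the total mass -/
lemma X_lower : ∃ c : ℝ, 0 < c ∧ ∀ᶠ ℓ : ℝ in atTop, ∀ y : ℕ, (y : ℝ) ≤ Real.exp (ℓ / 2) →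
    c * Real.exp ℓ ≤ ∑ n ∈ Ioc 0 ⌊Real.exp ℓ⌋₊, aw ℓ y n := by
  obtain ⟨T0, hT0, hT2⟩ := Pool.Agent.H90.LS.tent_count
  have hT : TentCount T0 := ⟨hT0, hT2⟩
  refine ⟨T0 / 6, by positivity, ?_⟩
  filter_upwards [X_asymp hT (T0 / 2) (by positivity)] with ℓ h y hy
  have h1 := (abs_le.mp h).1
  have h2 : ∑ n ∈ Ioc 0 ⌊Real.exp ℓ⌋₊, aw ℓ (yy ℓ) n ≤ ∑ n ∈ Ioc 0 ⌊Real.exp ℓ⌋₊, aw ℓ y n :=
    Finset.sum_le_sum (fun n _ => aw_mono_y ℓ (Nat.le_floor hy) n)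
  linarith

/-- lower bound in one residue class -/
lemma class_lower : ∃ c : ℝ, 0 < c ∧ ∃ L0 : ℝ, ∀ ℓ : ℝ, L0 ≤ ℓ → ∀ q₁ : ℕ,
    SmallProp ((2 * 1 + 4 + ((1 : ℕ) : ℝ) ^ 2) + 1 + 4) ((2 * 1 + 4 + ((1 : ℕ) : ℝ) ^ 2) + 1 + 3 + 12) ℓ q₁ →
    ∀ W : ℕ, 1 ≤ W → Real.log W ≤ ℓ / (2 * (Real.log ℓ) ^ 2) →
    ∀ y : ℕ, 3 ≤ y → (y : ℝ) ≤ Real.exp (ℓ / 2) → (∀ p, p.Prime → p ∣ W → p ≤ y) →
    ¬ q₁ ∣ W → ∀ A0 : ℕ, Nat.Coprime A0 W →
    c * Real.exp ℓ / (W.totient : ℝ) ≤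
      ∑ n ∈ (Ioc 0 ⌊Real.exp ℓ⌋₊).filter (fun n => n ≡ A0 [MOD W]), aw ℓ y n := by
  classical
  obtain ⟨c, hc, hX⟩ := X_lower
  obtain ⟨L1, hL1⟩ := RP_supK (1 / 4) (by norm_num) le_rfl 1 (by norm_num) 1
  obtain ⟨L2, hL2⟩ := Filter.eventually_atTop.mp (hX.and (eventually_ge_atTop (max 1 (2 / c))))
  refine ⟨c / 2, by positivity, max L1 L2, fun ℓ hℓ q₁ hq W hW1 hW y hy3 hy hWy hqW A0 hA0 => ?_⟩
  obtain ⟨h1, h2⟩ := hL2 ℓ ((le_max_right _ _).trans hℓ)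
  have hℓ1 : 1 ≤ ℓ := (le_max_left _ _).trans h2
  have hℓc : 2 / c ≤ ℓ := (le_max_right _ _).trans h2
  have hlog3 : 1 ≤ Real.log ((3 : ℕ) : ℝ) := by
    rw [Real.le_log_iff_exp_le (by norm_num)]
    have := Real.exp_one_lt_d9
    push_cast
    linarith
  obtain ⟨M, hM0, hMs, hM⟩ := hL1 ℓ ((le_max_left _ _).trans hℓ) q₁ hq W hW1 hW y hy hWy 3 hlog3 hy3
    ∅ (Finset.empty_subset _) (by simp) (by
      intro D hD
      rw [Finset.subset_empty] at hD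
      rw [hD, Finset.prod_empty, mul_one]
      exact hqW)
  have hlev : (∅ : Finset ℕ) ∈ lev ∅ (Real.exp ((1 / 2 - 1 / 4) * ℓ)) := by
    rw [mem_lev]
    refine ⟨Finset.Subset.refl _, ?_⟩
    rw [Finset.prod_empty, Nat.cast_one]
    exact Real.one_le_exp (by nlinarith)
  have hM1 : M ∅ ≤ Real.exp ℓ * ℓ ^ (-(1 : ℝ)) / (W.totient : ℝ) := by
    refine le_trans ?_ hMs
    have h3 : ∀ D ∈ lev ∅ (Real.exp ((1 / 2 - 1 / 4) * ℓ)), 0 ≤ ((1 : ℕ) : ℝ) ^ #D * M D := by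
      intro D hD
      exact mul_nonneg (by positivity) (hM0 D (mem_lev.mp hD).1)
    have h4 := Finset.single_le_sum h3 hlev
    simpa using h4
  have h3 := hM A0 (fun _ => 0) hA0 ∅ hlev (by simp)
  have h4 := (abs_le.mp h3).1
  unfold RD AD at h4
  simp only [Finset.prod_empty, mul_one] at h4
  have hφpos : (0 : ℝ) < (W.totient : ℝ) := by exact_mod_cast Nat.totient_pos.mpr hW1
  have h5 := h1 y hy
  have h6 : c * Real.exp ℓ / (W.totient : ℝ) ≤
      (∑ n ∈ Ioc 0 ⌊Real.exp ℓ⌋₊, aw ℓ y n) / (W.totient : ℝ) :=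
    div_le_div_of_nonneg_right h5 hφpos.le
  have h7 : Real.exp ℓ * ℓ ^ (-(1 : ℝ)) / (W.totient : ℝ) ≤ c / 2 * Real.exp ℓ / (W.totient : ℝ) := by
    apply div_le_div_of_nonneg_right _ hφpos.le
    rw [Real.rpow_neg_one, mul_comm]
    apply mul_le_mul_of_nonneg_right _ (Real.exp_pos _).le
    rw [inv_eq_one_div, div_le_iff₀ (by linarith)]
    rw [div_le_iff₀ hc] at hℓc
    linarith [mul_comm ℓ c]
  have h8 : c * Real.exp ℓ / (W.totient : ℝ) = c / 2 * Real.exp ℓ / (W.totient : ℝ) +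
      c / 2 * Real.exp ℓ / (W.totient : ℝ) := by ring
  have h9 : c / 2 * Real.exp ℓ / (W.totient : ℝ) ≤
      ∑ n ∈ (Ioc 0 ⌊Real.exp ℓ⌋₊).filter (fun n => n ≡ A0 [MOD W]), aw ℓ y n := by
    linarith
  convert h9

theorem mean_prime (η : ℝ) (hη0 : 0 < η) (hη1 : η ≤ 1 / 4) : ∃ c : ℝ, 0 < c ∧
    ∀ᶠ ℓ : ℝ in atTop, ∃ e : ℕ, e.Prime ∧ ∀ (Y m : ℕ), Real.exp (ℓ / 2) ≤ Y → 0 < m →
      ((WW ℓ e * m * Y : ℕ) : ℝ) ≤ Real.exp ℓ → (m : ℝ) ≤ Real.exp ((Real.log ℓ) ^ 4) →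
      (∀ p, p.Prime → p ∣ m → p ≤ ww ℓ ∧ p ≠ e) → ∀ σ : Bool,
      c * (Y : ℝ) ≤ ∑ A ∈ Icc 1 Y, ((WW ℓ e).totient : ℝ) / (WW ℓ e : ℝ) *
        aw (Real.log ((WW ℓ e * m * Y : ℕ) : ℝ)) (RR η ℓ) (sh σ (WW ℓ e * m * A)) := by
  classical
  obtain ⟨c, hc, L0, hL0⟩ := class_lower
  obtain ⟨L1, hL1⟩ := small_unif ((2 * 1 + 4 + ((1 : ℕ) : ℝ) ^ 2) + 1 + 4)
    ((2 * 1 + 4 + ((1 : ℕ) : ℝ) ^ 2) + 1 + 3 + 12) (by positivity) (by positivity) 1
  refine ⟨c, hc, ?_⟩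
  filter_upwards [ev_size η hη0, eventually_ge_atTop (2 * L0), eventually_ge_atTop L1] with
    ℓ ⟨hlog, hℓ1, hsz, hww, hRR⟩ hℓ0 hℓL1
  obtain ⟨q₁, hq1, hq⟩ := hL1 ℓ hℓL1
  have hePrime : (q₁.minFac).Prime := Nat.minFac_prime (by omega)
  set e := q₁.minFac with he
  refine ⟨e, hePrime, fun Y m hY hm hsize hmle hmp σ => ?_⟩
  set W := WW ℓ e with hWdef
  have hWpos : 0 < W := WW_pos ℓ e
  set W' := W * m with hW'
  have hW'pos : 0 < W' := Nat.mul_pos hWpos hm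
  have hY0 : (0 : ℝ) < Y := (Real.exp_pos _).trans_le hY
  have hY0' : 0 < Y := by exact_mod_cast hY0
  have hWYpos : (0 : ℝ) < ((W' * Y : ℕ) : ℝ) := by exact_mod_cast Nat.mul_pos hW'pos hY0'
  set ℓ' := Real.log ((W' * Y : ℕ) : ℝ) with hℓ'
  have hexp : Real.exp ℓ' = ((W' * Y : ℕ) : ℝ) := Real.exp_log hWYpos
  have hℓ'le : ℓ' ≤ ℓ := by
    rw [hℓ', Real.log_le_iff_le_exp hWYpos]; exact hsize
  have hℓ'ge : ℓ / 2 ≤ ℓ' := by
    rw [hℓ', Real.le_log_iff_exp_le hWYpos]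
    refine hY.trans ?_
    have : Y ≤ W' * Y := Nat.le_mul_of_pos_left Y hW'pos
    exact_mod_cast this
  have hSP := hq ℓ' hℓ'ge hℓ'le
  -- the primes dividing `W'`
  have hpW : ∀ p, p.Prime → p ∣ W' → p ≤ ww ℓ ∧ p ≠ e := by
    intro p hp hpd
    rcases (Nat.Prime.dvd_mul hp).mp hpd with h | h
    · exact (prime_dvd_WW hp).mp h
    · exact hmp p hp h
  have hwwR : ww ℓ + 1 ≤ RR η ℓ := by
    unfold ww RR
    apply Nat.le_floor
    push_cast
    have h1 : ((⌊(Real.log ℓ) ^ 5⌋₊ : ℕ) : ℝ) ≤ (Real.log ℓ) ^ 5 := Nat.floor_le (by positivity)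
    linarith
  have hR3 : 3 ≤ RR η ℓ := by
    unfold RR
    apply Nat.le_floor
    push_cast
    linarith
  have hRle : ((RR η ℓ : ℕ) : ℝ) ≤ Real.exp (ℓ' / 2) := by
    have h1 : ((RR η ℓ : ℕ) : ℝ) ≤ Real.exp (η * ℓ) := Nat.floor_le (Real.exp_pos _).le
    refine h1.trans (Real.exp_le_exp.mpr ?_)
    nlinarith
  have hlogW : Real.log W' ≤ ℓ' / (2 * (Real.log ℓ') ^ 2) := by
    have h1 : Real.log W' ≤ 2 * (Real.log ℓ) ^ 5 + (Real.log ℓ) ^ 4 := by
      rw [hW']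
      push_cast
      have hW0 : (0 : ℝ) < W := by exact_mod_cast hWpos
      have hm0 : (0 : ℝ) < m := by exact_mod_cast hm
      rw [Real.log_mul hW0.ne' hm0.ne']
      have h2 : Real.log m ≤ (Real.log ℓ) ^ 4 := by
        rw [Real.log_le_iff_le_exp hm0]; exact hmle
      have h3 : Real.log W ≤ 2 * (Real.log ℓ) ^ 5 := by
        have h4 : (W : ℝ) ≤ (4 : ℝ) ^ (ww ℓ) := by exact_mod_cast WW_le_four_pow ℓ e
        have h5 : Real.log W ≤ (ww ℓ : ℝ) * Real.log 4 := by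
          rw [← Real.log_pow]
          exact Real.log_le_log hW0 h4
        have h6 : Real.log 4 ≤ 2 := by
          have : (4 : ℝ) = 2 ^ 2 := by norm_num
          rw [this, Real.log_pow]
          have := Real.log_two_lt_d9
          push_cast
          linarith
        have h7 : (ww ℓ : ℝ) ≤ (Real.log ℓ) ^ 5 := Nat.floor_le (by positivity)
        have h8 : (0 : ℝ) ≤ ww ℓ := Nat.cast_nonneg _
        nlinarith
      linarith
    refine h1.trans (hsz.trans ?_)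
    have hℓ'pos : 1 < ℓ' := by
      have h9 : Real.exp 1 ≤ ℓ := by
        rw [← Real.le_log_iff_exp_le (by linarith)]; exact hlog
      have := Real.exp_one_gt_d9
      linarith
    have hlog' : 0 < Real.log ℓ' := Real.log_pos hℓ'pos
    have hlogle : Real.log ℓ' ≤ Real.log ℓ := Real.log_le_log (by linarith) hℓ'le
    calc ℓ / (4 * (Real.log ℓ) ^ 2) ≤ ℓ / (4 * (Real.log ℓ') ^ 2) := by
          apply div_le_div_of_nonneg_left (by linarith) (by positivity)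
          have := pow_le_pow_left₀ hlog'.le hlogle 2
          linarith
      _ = (ℓ / 2) / (2 * (Real.log ℓ') ^ 2) := by
          rw [div_div]; congr 1; ring
      _ ≤ _ := by
          apply div_le_div_of_nonneg_right hℓ'ge (by positivity)
  have hqW : ¬ q₁ ∣ W' := by
    intro h
    exact (hpW e hePrime ((Nat.minFac_dvd q₁).trans h)).2 rfl
  have hA0cop : Nat.Coprime (if σ then 1 else W' - 1) W' := by
    cases σ
    · simp only [Bool.false_eq_true, if_false]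
      rw [Nat.coprime_comm]
      have := (Nat.coprime_self_sub_right (Nat.succ_le_of_lt hW'pos)).mpr (Nat.coprime_one_right W')
      exact this
    · simp
  have h1 := hL0 ℓ' (by linarith) q₁ hSP W' hW'pos hlogW (RR η ℓ) hR3 hRle
    (fun p hp hpd => by have := (hpW p hp hpd).1; omega) hqW _ hA0cop
  have h2 := class_sum_le ℓ' (RR η ℓ) W' Y hW'pos hexp σ _ rfl
  have h3 := h1.trans h2
  rw [← Finset.mul_sum]
  have hφ : (W'.totient : ℝ) = (W.totient : ℝ) * m := by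
    have := totient_mul_of_dvd W m hm (fun p hp hpm => (prime_dvd_WW hp).mpr (hmp p hp hpm))
    rw [hW', this]
    push_cast
    ring
  have hφW : (0 : ℝ) < (W.totient : ℝ) := by exact_mod_cast Nat.totient_pos.mpr hWpos
  have hW0 : (0 : ℝ) < W := by exact_mod_cast hWpos
  have hm0 : (0 : ℝ) < m := by exact_mod_cast hm
  rw [hexp, hφ] at h3
  have h4 : c * (Y : ℝ) = (W.totient : ℝ) / (W : ℝ) * (c * ((W' * Y : ℕ) : ℝ) / ((W.totient : ℝ) * m)) := by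
    rw [hW']
    push_cast
    field_simp
  rw [h4]
  exact mul_le_mul_of_nonneg_left h3 (by positivity)

end Pool.Agent.H16.GPS
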