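import Pool.Agent.H16.GPS.Num.GBounds
import Pool.Agent.H16.GPS.Num.Selberg

/-!
JOB GPS-NUB (MP_c183ae_nt). Pointwise upper bound for the majorant.

PROOF of `nu_bound`. `1 ≤ n ≤ exp(2ℓ)` has at most `2ℓ / log z` prime factors `> z = zz K η ℓ`, and
`2 ℓ / log z ≤ 2 (4 k + 6)/η ≤ C log ℓ` (`log z ≥ η ℓ/(4k+5) - 1`, `k = kk K ℓ`), so at most `2^{C log ℓ} = ℓ^{C log 2}`
divisors in `Dr z R`; `|lamS| ≤ 1`, `GG ≤ C log R ≤ C ℓ`, `1/VP P ≤ 1/Vp z ≤ C log z ≤ C ℓ`. So `nuN ≤ ℓ^B`.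
`nu_nonneg`: clear. ~130 lines.
-/

set_option autoImplicit false

open Finset Filter

namespace Pool.Agent.H16.GPS

open Pool.Agent.H16

theorem NuB.VP_pos (P : Finset ℕ) (hP : ∀ p ∈ P, p.Prime) : 0 < VP P := by
  unfold VP
  refine Finset.prod_pos fun p hp => ?_
  have h1 : (1 : ℝ) < p := by exact_mod_cast (hP p hp).one_lt
  have h2 : 1 / (p : ℝ) < 1 := by
    rw [div_lt_one (by linarith)]
    exact h1
  linarith

theorem NuB.PP_prime (K : ℕ) (η ℓ : ℝ) (e p : ℕ) (hp : p ∈ PP K η ℓ e) :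
    p.Prime ∧ p ≤ zz K η ℓ := by
  unfold PP at hp
  have h := mem_primesIoc.1 (Finset.mem_of_mem_erase hp)
  exact ⟨h.2.2, h.2.1⟩

theorem NuB.GG_nonneg (z R : ℕ) : 0 ≤ GG z R := by
  unfold GG
  exact Finset.sum_nonneg fun _ _ => by positivity

theorem nu_nonneg (K : ℕ) (η ℓ : ℝ) (e n : ℕ) : 0 ≤ nuN K η ℓ e n := by
  classical
  unfold nuN
  refine mul_nonneg (mul_nonneg (div_nonneg (NuB.GG_nonneg _ _)
    (NuB.VP_pos _ fun p hp => (NuB.PP_prime K η ℓ e p hp).1).le) ?_) (sq_nonneg _)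
  split_ifs <;> norm_num

/-- the number of large prime factors -/
theorem NuB.card_le (n z R : ℕ) (hn : 1 ≤ n) :
    #((Dr z R).filter (fun d => d ∣ n)) ≤ 2 ^ #(n.primeFactors.filter (fun p => z < p)) := by
  classical
  rw [← Finset.card_powerset]
  refine Finset.card_le_card_of_injOn (fun d => d.primeFactors) ?_ ?_
  · intro d hd
    rw [Finset.mem_coe, Finset.mem_filter, mem_Dr] at hd
    rw [Finset.mem_coe, Finset.mem_powerset]
    intro p hp
    rw [Nat.mem_primeFactors] at hp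
    rw [Finset.mem_filter, Nat.mem_primeFactors]
    exact ⟨⟨hp.1, hp.2.1.trans hd.2, by omega⟩, hd.1.2.2.2 p hp.1 hp.2.1⟩
  · intro d hd d' hd' h
    rw [Finset.mem_coe, Finset.mem_filter, mem_Dr] at hd hd'
    have h1 := Nat.prod_primeFactors_of_squarefree hd.1.2.2.1
    have h2 := Nat.prod_primeFactors_of_squarefree hd'.1.2.2.1
    have h' : d.primeFactors = d'.primeFactors := h
    rw [← h1, ← h2, h']

theorem NuB.omega_le (n : ℕ) (hn : 1 ≤ n) (u ℓ : ℝ) (hnl : (n : ℝ) ≤ Real.exp (2 * ℓ)) :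
    (#(n.primeFactors.filter (fun p => ⌊Real.exp u⌋₊ < p)) : ℝ) * u ≤ 2 * ℓ := by
  classical
  set S := n.primeFactors.filter (fun p => ⌊Real.exp u⌋₊ < p) with hS
  have h1 : (∏ p ∈ S, p) ∣ n :=
    (Finset.prod_dvd_prod_of_subset S n.primeFactors (fun p => p) (Finset.filter_subset _ _)).trans
      (Nat.prod_primeFactors_dvd n)
  have h2 : ((∏ p ∈ S, p : ℕ) : ℝ) ≤ n := by exact_mod_cast Nat.le_of_dvd (by omega) h1
  have h3 : Real.exp u ^ #S ≤ ((∏ p ∈ S, p : ℕ) : ℝ) := by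
    push_cast
    rw [← Finset.prod_const]
    refine Finset.prod_le_prod (fun _ _ => (Real.exp_pos u).le) fun p hp => ?_
    rw [hS, Finset.mem_filter] at hp
    have h4 := Nat.lt_floor_add_one (Real.exp u)
    have h5 : ((⌊Real.exp u⌋₊ + 1 : ℕ) : ℝ) ≤ p := by exact_mod_cast hp.2
    push_cast at h5
    linarith
  rw [← Real.exp_nat_mul] at h3
  have h6 : Real.exp ((#S : ℝ) * u) ≤ Real.exp (2 * ℓ) := h3.trans (h2.trans hnl)
  exact Real.exp_le_exp.1 h6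

theorem nu_bound (K : ℕ) (η : ℝ) (hη0 : 0 < η) (hη1 : η ≤ 1) : ∃ B : ℕ, ∀ᶠ ℓ : ℝ in atTop,
    ∀ e n : ℕ, 1 ≤ n → (n : ℝ) ≤ Real.exp (2 * ℓ) → nuN K η ℓ e n ≤ ℓ ^ B := by
  classical
  obtain ⟨C, hC, hGG⟩ := GG_upper
  obtain ⟨c, hc, hVp⟩ := Vp_ge
  set N : ℕ := ⌈2 / η * (8 * K + 5)⌉₊ with hN
  have hND : 2 / η * (8 * K + 5) ≤ N := Nat.le_ceil _
  refine ⟨2 * N + 3, ?_⟩
  filter_upwards [eventually_ge_atTop (Real.exp 1), eventually_ge_atTop (1 / η),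
    eventually_ge_atTop (C * (1 + 1 / c))] with ℓ hl1 hl2 hl3 e n hn hnl
  have he1 : (1 : ℝ) ≤ Real.exp 1 := Real.one_le_exp (by norm_num)
  have hl0 : 1 ≤ ℓ := he1.trans hl1
  have hlpos : 0 < ℓ := by linarith
  have hlog : 1 ≤ Real.log ℓ := by
    rw [Real.le_log_iff_exp_le hlpos]
    exact hl1
  -- the depth
  have hk : 4 * (kk K ℓ : ℝ) + 5 ≤ (8 * K + 5) * Real.log ℓ := by
    unfold kk
    push_cast
    have h1 : (⌈Real.log ℓ⌉₊ : ℝ) ≤ 2 * Real.log ℓ := by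
      have := (Nat.ceil_lt_add_one (by linarith : (0 : ℝ) ≤ Real.log ℓ)).le
      linarith
    have h2 : (K : ℝ) * (⌈Real.log ℓ⌉₊ : ℝ) ≤ K * (2 * Real.log ℓ) :=
      mul_le_mul_of_nonneg_left h1 (Nat.cast_nonneg K)
    nlinarith
  have hk5 : (5 : ℝ) ≤ 4 * (kk K ℓ : ℝ) + 5 := by
    have : (0 : ℝ) ≤ kk K ℓ := Nat.cast_nonneg _
    linarith
  have hkpos : (0 : ℝ) < 4 * (kk K ℓ : ℝ) + 5 := by linarith
  set u : ℝ := η * ℓ / (4 * (kk K ℓ : ℝ) + 5) with hu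
  have hu0 : 0 ≤ u := by positivity
  have hul : u ≤ ℓ := by
    rw [hu, div_le_iff₀ hkpos]
    nlinarith [mul_le_mul_of_nonneg_right hη1 hlpos.le, mul_le_mul_of_nonneg_left hk5 hlpos.le]
  -- the number of divisors
  have hom := NuB.omega_le n hn u ℓ hnl
  set ω : ℕ := #(n.primeFactors.filter (fun p => ⌊Real.exp u⌋₊ < p)) with hω
  have hω1 : (ω : ℝ) ≤ N * Real.log ℓ := by
    have h1 : (ω : ℝ) * (η * ℓ) ≤ 2 * ℓ * (4 * (kk K ℓ : ℝ) + 5) := by
      rw [hu] at hom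
      rw [mul_div_assoc', div_le_iff₀ hkpos] at hom
      exact hom
    have h2 : (ω : ℝ) * η ≤ 2 * (4 * (kk K ℓ : ℝ) + 5) := by
      have h3 : ((ω : ℝ) * η) * ℓ ≤ (2 * (4 * (kk K ℓ : ℝ) + 5)) * ℓ := by
        calc ((ω : ℝ) * η) * ℓ = (ω : ℝ) * (η * ℓ) := by ring
          _ ≤ 2 * ℓ * (4 * (kk K ℓ : ℝ) + 5) := h1
          _ = _ := by ring
      exact le_of_mul_le_mul_right h3 hlpos
    have h3 : (ω : ℝ) ≤ 2 / η * ((8 * K + 5) * Real.log ℓ) := by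
      rw [div_mul_eq_mul_div, le_div_iff₀ hη0]
      linarith
    calc (ω : ℝ) ≤ 2 / η * ((8 * K + 5) * Real.log ℓ) := h3
      _ = (2 / η * (8 * K + 5)) * Real.log ℓ := by ring
      _ ≤ N * Real.log ℓ := mul_le_mul_of_nonneg_right hND (by linarith)
  have h2ω : (2 : ℝ) ^ ω ≤ ℓ ^ N := by
    have h1 : (2 : ℝ) ≤ Real.exp 1 := by
      have := Real.add_one_le_exp (1 : ℝ)
      linarith
    calc (2 : ℝ) ^ ω ≤ Real.exp 1 ^ ω := pow_le_pow_left₀ (by norm_num) h1 ω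
      _ = Real.exp ω := by rw [← Real.exp_nat_mul, mul_one]
      _ ≤ Real.exp (N * Real.log ℓ) := Real.exp_le_exp.2 hω1
      _ = ℓ ^ N := by rw [Real.exp_nat_mul, Real.exp_log hlpos]
  have hS : |∑ d ∈ (Dr (zz K η ℓ) (RR η ℓ)).filter (fun d => d ∣ n),
      lamS (zz K η ℓ) (RR η ℓ) d| ≤ ℓ ^ N := by
    refine (Finset.abs_sum_le_sum_abs _ _).trans ?_
    refine (Finset.sum_le_sum fun d _ => lamS_abs _ _ d).trans ?_
    rw [Finset.sum_const, nsmul_eq_mul, mul_one]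
    have h1 := NuB.card_le n (zz K η ℓ) (RR η ℓ) hn
    have h2 : (#((Dr (zz K η ℓ) (RR η ℓ)).filter (fun d => d ∣ n)) : ℝ) ≤ (2 : ℝ) ^ ω := by
      exact_mod_cast h1
    exact h2.trans h2ω
  have hS2 : (∑ d ∈ (Dr (zz K η ℓ) (RR η ℓ)).filter (fun d => d ∣ n),
      lamS (zz K η ℓ) (RR η ℓ) d) ^ 2 ≤ (ℓ ^ N) ^ 2 := by
    rw [← sq_abs]
    exact pow_le_pow_left₀ (abs_nonneg _) hS 2
  -- `GG`
  have hG : GG (zz K η ℓ) (RR η ℓ) ≤ C * ℓ := by
    have hηl : 1 ≤ η * ℓ := by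
      rw [div_le_iff₀ hη0] at hl2
      linarith
    have hR2 : 2 ≤ RR η ℓ := by
      unfold RR
      refine Nat.le_floor ?_
      have := Real.add_one_le_exp (η * ℓ)
      push_cast
      linarith
    refine (hGG _ _ hR2).trans (mul_le_mul_of_nonneg_left ?_ hC.le)
    have hR0 : (0 : ℝ) < RR η ℓ := by
      have : 0 < RR η ℓ := by omega
      exact_mod_cast this
    rw [Real.log_le_iff_le_exp hR0]
    unfold RR
    refine (Nat.floor_le (Real.exp_pos _).le).trans (Real.exp_le_exp.2 ?_)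
    nlinarith
  -- `VP`
  have hV : 1 / VP (PP K η ℓ e) ≤ (1 + 1 / c) * ℓ := by
    have hVpos := NuB.VP_pos (PP K η ℓ e) fun p hp => (NuB.PP_prime K η ℓ e p hp).1
    by_cases hz : 2 ≤ zz K η ℓ
    · have h1 : Vp (zz K η ℓ) ≤ VP (PP K η ℓ e) := by
        unfold Vp VP
        have hsub : PP K η ℓ e ⊆ Nat.primesLE (zz K η ℓ) := by
          intro p hp
          have := NuB.PP_prime K η ℓ e p hp
          rw [Nat.mem_primesLE]
          exact ⟨this.2, this.1⟩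
        rw [← Finset.prod_sdiff hsub]
        have hA : ∏ p ∈ Nat.primesLE (zz K η ℓ) \ PP K η ℓ e, (1 - 1 / (p : ℝ)) ≤ 1 := by
          refine Finset.prod_le_one ?_ ?_
          · intro p hp
            have hp' := (Finset.mem_sdiff.1 hp).1
            rw [Nat.mem_primesLE] at hp'
            have h1 : (1 : ℝ) < p := by exact_mod_cast hp'.2.one_lt
            have h2 : 1 / (p : ℝ) < 1 := by
              rw [div_lt_one (by linarith)]
              exact h1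
            linarith
          · intro p _
            have h1 : (0 : ℝ) ≤ 1 / (p : ℝ) := by positivity
            linarith
        exact mul_le_of_le_one_left hVpos.le hA
      have h2 := hVp (zz K η ℓ) hz
      have hz0 : (0 : ℝ) < zz K η ℓ := by
        have : 0 < zz K η ℓ := by omega
        exact_mod_cast this
      have hlz : Real.log (zz K η ℓ) ≤ ℓ := by
        rw [Real.log_le_iff_le_exp hz0]
        unfold zz
        exact (Nat.floor_le (Real.exp_pos _).le).trans (Real.exp_le_exp.2 hul)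
      have hlz0 : 0 < Real.log (zz K η ℓ) := Real.log_pos (by
        have : (2 : ℝ) ≤ zz K η ℓ := by exact_mod_cast hz
        linarith)
      have h3 : 1 / VP (PP K η ℓ e) ≤ Real.log (zz K η ℓ) / c := by
        rw [div_le_div_iff₀ hVpos hc, one_mul]
        rw [div_le_iff₀ hlz0] at h2
        nlinarith
      calc 1 / VP (PP K η ℓ e) ≤ Real.log (zz K η ℓ) / c := h3
        _ ≤ ℓ / c := div_le_div_of_nonneg_right hlz hc.le
        _ ≤ (1 + 1 / c) * ℓ := by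
            have : (1 + 1 / c) * ℓ = ℓ + ℓ / c := by ring
            rw [this]
            linarith
    · have h1 : PP K η ℓ e = ∅ := by
        rw [Finset.eq_empty_iff_forall_notMem]
        intro p hp
        have := NuB.PP_prime K η ℓ e p hp
        have := this.1.two_le
        omega
      have h2 : VP (PP K η ℓ e) = 1 := by
        rw [h1]
        unfold VP
        exact Finset.prod_empty
      rw [h2]
      have h3 : (0 : ℝ) ≤ 1 / c := by positivity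
      nlinarith
  have hV0 : 0 ≤ 1 / VP (PP K η ℓ e) :=
    (one_div_pos.2 (NuB.VP_pos (PP K η ℓ e) fun p hp => (NuB.PP_prime K η ℓ e p hp).1)).le
  have hGV : GG (zz K η ℓ) (RR η ℓ) / VP (PP K η ℓ e) ≤ (C * (1 + 1 / c)) * ℓ ^ 2 := by
    rw [div_eq_mul_one_div]
    calc GG (zz K η ℓ) (RR η ℓ) * (1 / VP (PP K η ℓ e)) ≤ (C * ℓ) * ((1 + 1 / c) * ℓ) :=
          mul_le_mul hG hV hV0 (by positivity)
      _ = _ := by ring
  have hGV0 : 0 ≤ GG (zz K η ℓ) (RR η ℓ) / VP (PP K η ℓ e) := by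
    rw [div_eq_mul_one_div]
    exact mul_nonneg (NuB.GG_nonneg _ _) hV0
  have hGV1 : GG (zz K η ℓ) (RR η ℓ) / VP (PP K η ℓ e) ≤ ℓ ^ 3 := by
    refine hGV.trans ?_
    calc (C * (1 + 1 / c)) * ℓ ^ 2 ≤ ℓ * ℓ ^ 2 := mul_le_mul_of_nonneg_right hl3 (by positivity)
      _ = ℓ ^ 3 := by ring
  unfold nuN
  have hi : GG (zz K η ℓ) (RR η ℓ) / VP (PP K η ℓ e) *
      (if ∀ p ∈ PP K η ℓ e, ¬ p ∣ n then (1 : ℝ) else 0) ≤ ℓ ^ 3 := by
    split_ifs
    · rw [mul_one]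
      exact hGV1
    · rw [mul_zero]
      positivity
  calc GG (zz K η ℓ) (RR η ℓ) / VP (PP K η ℓ e) *
      (if ∀ p ∈ PP K η ℓ e, ¬ p ∣ n then (1 : ℝ) else 0) *
      (∑ d ∈ (Dr (zz K η ℓ) (RR η ℓ)).filter (fun d => d ∣ n), lamS (zz K η ℓ) (RR η ℓ) d) ^ 2
      ≤ ℓ ^ 3 * (ℓ ^ N) ^ 2 := mul_le_mul hi hS2 (sq_nonneg _) (by positivity)
    _ = ℓ ^ (2 * N + 3) := by rw [← pow_mul, ← pow_add]; congr 1; ring

end Pool.Agent.H16.GPS
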