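import Pool.Agent.H16.GPS.Rel.Defs

/-!
JOB GPS-BOX (MP_c183ae_nt). The uniform law on a box in `(ZMod V)^s`.

PROOFS. `box_shift`: both functions are push-forwards (divided by `H^s`) of the counting measures of the boxes `B = {1..H}^s` and
`B + v` in `ℤ^s`, so the `L¹` distance is at most `#(B Δ (B+v))/H^s`; `ξ ∈ B \ (B+v)` has some coordinate `i` among the `|v i|`
ones nearest to an end: `#(B \ (B+v)) ≤ ∑ i, |v i| H^(s-1)`, the same for `(B+v) \ B`. `box_atom`: the map `bx` is injective for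
`H ≤ V` (`1 ≤ ξ + 1 ≤ H ≤ V`). ~130 lines.
-/

set_option autoImplicit false

open Finset

namespace Pool.Agent.H16.GPS

/-- the box `{1..H}^s` in `(ZMod V)^s` -/
def bx (s H V : ℕ) (ξ : Fin s → Fin H) : Fin s → ZMod V := fun i => (((ξ i : ℕ) + 1 : ℕ) : ZMod V)

/-- the integral box -/
noncomputable def bxZ (s H : ℕ) : Finset (Fin s → ℤ) := Fintype.piFinset fun _ => Finset.Icc 1 (H : ℤ)

/-- reduction -/
def bxr (s V : ℕ) (x : Fin s → ℤ) : Fin s → ZMod V := fun i => ((x i : ℤ) : ZMod V)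

theorem mem_bxZ {s H : ℕ} {x : Fin s → ℤ} : x ∈ bxZ s H ↔ ∀ i, 1 ≤ x i ∧ x i ≤ H := by
  unfold bxZ
  rw [Fintype.mem_piFinset]
  simp only [Finset.mem_Icc]

theorem card_bxZ (s H : ℕ) : #(bxZ s H) = H ^ s := by
  unfold bxZ
  rw [Fintype.card_piFinset]
  simp

theorem lawU_eq {Ξ Γ : Type} [Fintype Ξ] [DecidableEq Γ] (b : Ξ → Γ) (g : Γ) :
    lawU b g = (#(univ.filter (fun ξ => b ξ = g)) : ℝ) / (Fintype.card Ξ : ℝ) := by
  unfold lawU
  congr!

theorem lawU_bx (s H V : ℕ) (g : Fin s → ZMod V) [DecidableEq (Fin s → ZMod V)] :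
    lawU (bx s H V) g = (#((bxZ s H).filter fun x => bxr s V x = g) : ℝ) / (H : ℝ) ^ s := by
  rw [lawU_eq]
  congr 1
  · norm_cast
    refine Finset.card_bij (fun ξ _ => fun i => ((ξ i : ℕ) : ℤ) + 1) ?_ ?_ ?_
    · intro ξ hξ
      rw [Finset.mem_filter] at hξ ⊢
      refine ⟨mem_bxZ.2 fun i => ?_, ?_⟩
      · have := (ξ i).2
        omega
      · rw [← hξ.2]
        funext i
        simp [bxr, bx]
    · intro ξ _ ξ' _ h
      funext i
      have h1 := congrFun h i
      have h2 : ((ξ i : ℕ) : ℤ) + 1 = ((ξ' i : ℕ) : ℤ) + 1 := h1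
      exact Fin.ext (by omega)
    · intro x hx
      rw [Finset.mem_filter] at hx
      have h1 := mem_bxZ.1 hx.1
      have h2 : ∀ i, ((x i - 1).toNat : ℤ) + 1 = x i := fun i => by
        have := h1 i
        omega
      refine ⟨fun i => ⟨(x i - 1).toNat, by have := h1 i; omega⟩, ?_, ?_⟩
      · rw [Finset.mem_filter]
        refine ⟨Finset.mem_univ _, ?_⟩
        rw [← hx.2]
        funext i
        have h3 : (((x i - 1).toNat + 1 : ℕ) : ℤ) = x i := by
          push_cast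
          exact h2 i
        show (((x i - 1).toNat + 1 : ℕ) : ZMod V) = ((x i : ℤ) : ZMod V)
        rw [← Int.cast_natCast (R := ZMod V), h3]
      · funext i
        exact h2 i
  · simp

theorem bx_bad (s H : ℕ) (D : ℕ) (v : Fin s → ℤ) (hv : ∀ i, |v i| ≤ D) (i : Fin s) :
    #((bxZ s H).filter fun x => ¬ (1 ≤ x i - v i ∧ x i - v i ≤ H)) * H ≤ D * H ^ s := by
  classical
  have h0 : ((bxZ s H).filter fun x => ¬ (1 ≤ x i - v i ∧ x i - v i ≤ H)) ⊆
      Fintype.piFinset (fun j => if j = i then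
        (Finset.Icc 1 (H : ℤ)).filter (fun t => ¬ (1 ≤ t - v i ∧ t - v i ≤ H))
        else Finset.Icc 1 (H : ℤ)) := by
    intro x hx
    rw [Finset.mem_filter] at hx
    rw [Fintype.mem_piFinset]
    intro j
    have h1 := mem_bxZ.1 hx.1 j
    by_cases hj : j = i
    · subst hj
      rw [if_pos rfl, Finset.mem_filter, Finset.mem_Icc]
      exact ⟨h1, hx.2⟩
    · rw [if_neg hj, Finset.mem_Icc]
      exact h1
  have h1 := Finset.card_le_card h0
  rw [Fintype.card_piFinset] at h1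
  have h2 : ∀ w : ℤ, |w| ≤ D →
      #((Finset.Icc 1 (H : ℤ)).filter (fun t => ¬ (1 ≤ t - w ∧ t - w ≤ H))) ≤ D := by
    intro w hw
    rcases le_total 0 w with h | h
    · rw [abs_of_nonneg h] at hw
      have h3 : (Finset.Icc 1 (H : ℤ)).filter (fun t => ¬ (1 ≤ t - w ∧ t - w ≤ H)) ⊆
          Finset.Icc 1 w := by
        intro t ht
        rw [Finset.mem_filter, Finset.mem_Icc] at ht
        rw [Finset.mem_Icc]
        omega
      refine (Finset.card_le_card h3).trans ?_
      rw [Int.card_Icc]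
      omega
    · rw [abs_of_nonpos h] at hw
      have h3 : (Finset.Icc 1 (H : ℤ)).filter (fun t => ¬ (1 ≤ t - w ∧ t - w ≤ H)) ⊆
          Finset.Icc (H + w + 1) (H : ℤ) := by
        intro t ht
        rw [Finset.mem_filter, Finset.mem_Icc] at ht
        rw [Finset.mem_Icc]
        omega
      refine (Finset.card_le_card h3).trans ?_
      rw [Int.card_Icc]
      omega
  have h4 : ∏ j : Fin s, #(if j = i then
        (Finset.Icc 1 (H : ℤ)).filter (fun t => ¬ (1 ≤ t - v i ∧ t - v i ≤ H))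
        else Finset.Icc 1 (H : ℤ)) ≤ D * ∏ j ∈ univ.erase i, H := by
    rw [← Finset.mul_prod_erase univ _ (Finset.mem_univ i), if_pos rfl]
    refine Nat.mul_le_mul (h2 _ (hv i)) ?_
    refine le_of_eq (Finset.prod_congr rfl fun j hj => ?_)
    rw [if_neg (Finset.ne_of_mem_erase hj), Int.card_Icc]
    simp
  have h5 : H ^ s = H * ∏ j ∈ (univ : Finset (Fin s)).erase i, H := by
    rw [Finset.mul_prod_erase univ (fun _ => H) (Finset.mem_univ i)]
    simp
  rw [h5]
  calc _ ≤ (D * ∏ j ∈ univ.erase i, H) * H := Nat.mul_le_mul_right _ (h1.trans h4)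
    _ = _ := by ring

theorem bx_diff (s H : ℕ) (D : ℕ) (v : Fin s → ℤ) (hv : ∀ i, |v i| ≤ D)
    [DecidableEq (Fin s → ℤ)] :
    #(bxZ s H \ (bxZ s H).map (addRightEmbedding v)) * H ≤ s * (D * H ^ s) := by
  have h1 : bxZ s H \ (bxZ s H).map (addRightEmbedding v) ⊆
      (univ : Finset (Fin s)).biUnion fun i =>
        (bxZ s H).filter fun x => ¬ (1 ≤ x i - v i ∧ x i - v i ≤ H) := by
    intro x hx
    rw [Finset.mem_sdiff] at hx
    rw [Finset.mem_biUnion]
    by_contra hne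
    apply hx.2
    rw [Finset.mem_map]
    refine ⟨x - v, mem_bxZ.2 fun i => ?_, ?_⟩
    · by_contra h3
      exact hne ⟨i, Finset.mem_univ i, Finset.mem_filter.2 ⟨hx.1, h3⟩⟩
    · simp
  calc _ ≤ (∑ i : Fin s, #((bxZ s H).filter fun x => ¬ (1 ≤ x i - v i ∧ x i - v i ≤ H))) * H :=
        Nat.mul_le_mul_right _ ((Finset.card_le_card h1).trans Finset.card_biUnion_le)
    _ = ∑ i : Fin s, #((bxZ s H).filter fun x => ¬ (1 ≤ x i - v i ∧ x i - v i ≤ H)) * H := by
        rw [Finset.sum_mul]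
    _ ≤ ∑ _i : Fin s, D * H ^ s := Finset.sum_le_sum fun i _ => bx_bad s H D v hv i
    _ = s * (D * H ^ s) := by simp

theorem bx_abs {X Γ : Type} [DecidableEq X] [Fintype Γ] [DecidableEq Γ] (A B : Finset X)
    (f : X → Γ) (hAB : #A = #B) :
    ∑ g : Γ, |(#(A.filter fun x => f x = g) : ℝ) - #(B.filter fun x => f x = g)| ≤
      2 * #(A \ B) := by
  have h1 : ∀ g : Γ, |(#(A.filter fun x => f x = g) : ℝ) - #(B.filter fun x => f x = g)| ≤
      (#((A \ B).filter fun x => f x = g) : ℝ) + #((B \ A).filter fun x => f x = g) := by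
    intro g
    have h2 : ∀ A B : Finset X, (#(A.filter fun x => f x = g) : ℝ) =
        #((A ∩ B).filter fun x => f x = g) + #((A \ B).filter fun x => f x = g) := by
      intro A B
      have h3 : A.filter (fun x => f x = g) =
          ((A ∩ B).filter fun x => f x = g) ∪ ((A \ B).filter fun x => f x = g) := by
        rw [← Finset.filter_union, Finset.union_comm, Finset.sdiff_union_inter A B]
      conv_lhs => rw [h3]
      rw [Finset.card_union_of_disjoint, Nat.cast_add]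
      exact (Finset.disjoint_sdiff_inter A B).symm.mono (Finset.filter_subset _ _)
        (Finset.filter_subset _ _)
    rw [h2 A B, h2 B A, Finset.inter_comm B A]
    have h3 : (0 : ℝ) ≤ #((A \ B).filter fun x => f x = g) := Nat.cast_nonneg _
    have h4 : (0 : ℝ) ≤ #((B \ A).filter fun x => f x = g) := Nat.cast_nonneg _
    rw [abs_le]
    constructor <;> linarith
  have h5 : ∀ C : Finset X, ∑ g : Γ, (#(C.filter fun x => f x = g) : ℝ) = #C := by
    intro C
    rw [← Nat.cast_sum]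
    congr 1
    exact (Finset.card_eq_sum_card_fiberwise fun x _ => Finset.mem_univ (f x)).symm
  refine (Finset.sum_le_sum fun g _ => h1 g).trans ?_
  rw [Finset.sum_add_distrib, h5, h5]
  have h6 : #(A \ B) = #(B \ A) := Finset.card_sdiff_comm hAB
  rw [← h6]
  linarith

theorem box_shift (s H V : ℕ) [NeZero V] (hH : 1 ≤ H) (D : ℕ) (v : Fin s → ℤ)
    (hv : ∀ i, |v i| ≤ D) :
    ∑ g : Fin s → ZMod V, |lawU (bx s H V) g - lawU (bx s H V) (g - fun i => ((v i : ℤ) : ZMod V))| ≤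
      2 * s * D / H := by
  classical
  have hH0 : (0 : ℝ) < H := by exact_mod_cast hH
  have h1 : ∀ g : Fin s → ZMod V, lawU (bx s H V) (g - fun i => ((v i : ℤ) : ZMod V)) =
      (#(((bxZ s H).map (addRightEmbedding v)).filter fun x => bxr s V x = g) : ℝ) /
        (H : ℝ) ^ s := by
    intro g
    rw [lawU_bx, Finset.filter_map, Finset.card_map]
    congr 3
    ext x
    rw [Finset.mem_filter, Finset.mem_filter]
    refine and_congr_right fun _ => ?_
    show bxr s V x = (g - fun i => ((v i : ℤ) : ZMod V)) ↔ bxr s V (x + v) = g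
    have h2 : bxr s V (x + v) = bxr s V x + fun i => ((v i : ℤ) : ZMod V) := by
      funext i
      simp [bxr]
    rw [h2, eq_sub_iff_add_eq]
  have h3 : ∀ g : Fin s → ZMod V,
      |lawU (bx s H V) g - lawU (bx s H V) (g - fun i => ((v i : ℤ) : ZMod V))| =
      |(#((bxZ s H).filter fun x => bxr s V x = g) : ℝ) -
        #(((bxZ s H).map (addRightEmbedding v)).filter fun x => bxr s V x = g)| / (H : ℝ) ^ s := by
    intro g
    rw [h1, lawU_bx, ← sub_div, abs_div, abs_of_pos (pow_pos hH0 s)]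
  rw [Finset.sum_congr rfl fun g _ => h3 g, ← Finset.sum_div]
  have h4 := bx_abs (bxZ s H) ((bxZ s H).map (addRightEmbedding v)) (bxr s V)
    (by rw [Finset.card_map])
  have h5 : ((#(bxZ s H \ (bxZ s H).map (addRightEmbedding v)) : ℝ)) * H ≤ s * (D * (H : ℝ) ^ s) := by
    exact_mod_cast bx_diff s H D v hv
  rw [div_le_div_iff₀ (pow_pos hH0 s) hH0]
  nlinarith [mul_le_mul_of_nonneg_right h4 hH0.le]

theorem box_atom (s H V : ℕ) [NeZero V] (hH : 1 ≤ H) (hV : H ≤ V) (g : Fin s → ZMod V) :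
    lawU (bx s H V) g ≤ 1 / (H : ℝ) ^ s := by
  have hH0 : (0 : ℝ) < H := by exact_mod_cast hH
  rw [lawU_eq]
  have h1 : (Fintype.card (Fin s → Fin H) : ℝ) = (H : ℝ) ^ s := by simp
  rw [h1]
  apply div_le_div_of_nonneg_right _ (pow_pos hH0 s).le
  norm_cast
  rw [Finset.card_le_one]
  intro ξ hξ ξ' hξ'
  rw [Finset.mem_filter] at hξ hξ'
  have h2 : bx s H V ξ = bx s H V ξ' := hξ.2.trans hξ'.2.symm
  funext i
  have h3 : (((ξ i : ℕ) + 1 : ℕ) : ZMod V) = (((ξ' i : ℕ) + 1 : ℕ) : ZMod V) := congrFun h2 i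
  rw [ZMod.natCast_eq_natCast_iff] at h3
  have h4 := Nat.ModEq.add_right_cancel' 1 h3
  exact Fin.ext (h4.eq_of_lt_of_lt (lt_of_lt_of_le (ξ i).2 hV) (lt_of_lt_of_le (ξ' i).2 hV))

end Pool.Agent.H16.GPS
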