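import Mathlib

/-!
JOB GPS-MULT (MP_c183ae_nt). The multipliers `m(x) = ∏ gen i ^ x i`, `x ∈ (ZMod V)^s`.

PROOFS. `interior_frac`: union bound; for fixed `i` at most `Q` values of `x i`. `smul_inj`: `V = κ! u + 1` is coprime to every
`0 < |c| ≤ κ` and to `κ!`, so `c` is a unit of `ZMod V`. `mx_inj`: unique factorization (`gen` distinct primes), the exponent of
`gen i` in `m(x)` is `(x i).val`. `mx_add`: `(x i + d i).val = (x i).val + d i` when this is `< V`. `mx_prime`: prime factors of
`m(x)` are among the `gen i`. `mx_le`: `m(x) ≤ (b^V)^s`. ~150 lines.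
-/

set_option autoImplicit false

open Finset

namespace Pool.Agent.H16.GPS

/-- the multiplier -/
def mx {s V : ℕ} (gen : Fin s → ℕ) (x : Fin s → ZMod V) : ℕ := ∏ i, gen i ^ (x i).val

private theorem mult_card_low (V Q : ℕ) [NeZero V] :
    #(univ.filter (fun a : ZMod V => V ≤ a.val + Q)) ≤ Q := by
  have h : #(univ.filter (fun a : ZMod V => V ≤ a.val + Q)) ≤ #(Finset.Ico (V - Q) V) := by
    refine Finset.card_le_card_of_injOn (fun a => a.val) ?_ ?_
    · intro a ha
      rw [Finset.mem_coe, Finset.mem_filter] at ha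
      have := ZMod.val_lt a
      simp only [Finset.coe_Ico, Set.mem_Ico]
      omega
    · intro a _ b _ hab
      exact ZMod.val_injective V hab
  rw [Nat.card_Ico] at h
  omega

private theorem mult_card_fix (s V Q : ℕ) [NeZero V] (i : Fin s) :
    (#(univ.filter (fun x : Fin s → ZMod V => V ≤ (x i).val + Q)) : ℝ) ≤
      Q / V * (Fintype.card (Fin s → ZMod V) : ℝ) := by
  classical
  have hV : 0 < V := Nat.pos_of_ne_zero (NeZero.ne V)
  have e : univ.filter (fun x : Fin s → ZMod V => V ≤ (x i).val + Q) =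
      Fintype.piFinset (fun j => if j = i then univ.filter (fun a : ZMod V => V ≤ a.val + Q)
        else univ) := by
    ext x
    simp only [Finset.mem_filter, Finset.mem_univ, true_and, Fintype.mem_piFinset]
    constructor
    · intro h j
      by_cases hj : j = i
      · subst hj
        simpa using h
      · simp [hj]
    · intro h
      have := h i
      simpa using this
  rw [e, Fintype.card_piFinset, ← Finset.mul_prod_erase univ _ (Finset.mem_univ i)]
  have e2 : ∏ j ∈ univ.erase i, #(if j = i then univ.filter (fun a : ZMod V => V ≤ a.val + Q)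
      else (univ : Finset (ZMod V))) = ∏ j ∈ (univ : Finset (Fin s)).erase i, V := by
    refine Finset.prod_congr rfl fun j hj => ?_
    rw [if_neg (Finset.ne_of_mem_erase hj), Finset.card_univ, ZMod.card]
  rw [e2, if_pos rfl]
  have e3 : Fintype.card (Fin s → ZMod V) = V * ∏ j ∈ (univ : Finset (Fin s)).erase i, V := by
    rw [Fintype.card_pi, ← Finset.mul_prod_erase univ _ (Finset.mem_univ i), ZMod.card]
  rw [e3]
  push_cast
  have hV' : (0 : ℝ) < V := by exact_mod_cast hV
  have hq : (#(univ.filter (fun a : ZMod V => V ≤ a.val + Q)) : ℝ) ≤ Q := by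
    exact_mod_cast mult_card_low V Q
  have hP : (0 : ℝ) ≤ ∏ j ∈ (univ : Finset (Fin s)).erase i, (V : ℝ) :=
    Finset.prod_nonneg fun _ _ => hV'.le
  have e4 : (Q : ℝ) / V * (V * ∏ j ∈ (univ : Finset (Fin s)).erase i, (V : ℝ)) =
      Q * ∏ j ∈ (univ : Finset (Fin s)).erase i, (V : ℝ) := by
    field_simp
  rw [e4]
  exact mul_le_mul_of_nonneg_right hq hP

theorem interior_frac (s V Q : ℕ) [NeZero V] :
    (#(univ.filter (fun x : Fin s → ZMod V => ∃ i, V ≤ (x i).val + Q)) : ℝ) ≤
      s * Q / V * (Fintype.card (Fin s → ZMod V) : ℝ) := by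
  classical
  have hsub : univ.filter (fun x : Fin s → ZMod V => ∃ i, V ≤ (x i).val + Q) ⊆
      (univ : Finset (Fin s)).biUnion fun i =>
        univ.filter (fun x : Fin s → ZMod V => V ≤ (x i).val + Q) := by
    intro x hx
    rw [Finset.mem_filter] at hx
    obtain ⟨i, hi⟩ := hx.2
    exact Finset.mem_biUnion.2 ⟨i, Finset.mem_univ i, Finset.mem_filter.2 ⟨Finset.mem_univ x, hi⟩⟩
  have h1 : (#(univ.filter (fun x : Fin s → ZMod V => ∃ i, V ≤ (x i).val + Q)) : ℝ) ≤
      ∑ i : Fin s, (#(univ.filter (fun x : Fin s → ZMod V => V ≤ (x i).val + Q)) : ℝ) := by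
    exact_mod_cast (Finset.card_le_card hsub).trans Finset.card_biUnion_le
  refine h1.trans ?_
  refine (Finset.sum_le_sum fun i _ => mult_card_fix s V Q i).trans ?_
  rw [Finset.sum_const, Finset.card_univ, Fintype.card_fin, nsmul_eq_mul]
  apply le_of_eq
  ring

theorem smul_inj (κ s u V : ℕ) (hV : V = κ.factorial * u + 1) (c : ℤ) (hc : c ≠ 0)
    (hc1 : |c| ≤ κ ∨ c = κ.factorial) :
    Function.Injective (fun g : Fin s → ZMod V => c • g) := by
  have hd : c ∣ (κ.factorial : ℤ) := by
    rcases hc1 with h | h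
    · rw [← Int.natAbs_dvd, Int.natCast_dvd_natCast]
      refine Nat.dvd_factorial (Int.natAbs_pos.2 hc) ?_
      have : ((c.natAbs : ℕ) : ℤ) ≤ κ := by rw [Int.natCast_natAbs]; exact h
      exact_mod_cast this
    · rw [h]
  have hcop : IsCoprime (V : ℤ) c := by
    obtain ⟨w, hw⟩ := hd
    refine ⟨1, -(w * u), ?_⟩
    rw [hV]
    push_cast
    rw [hw]
    ring
  have hu : IsUnit ((c : ℤ) : ZMod V) := (ZMod.coe_int_isUnit_iff_isCoprime c V).2 hcop
  intro g g' h
  funext i
  have hi : (c • g) i = (c • g') i := congrFun h i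
  rw [Pi.smul_apply, Pi.smul_apply, zsmul_eq_mul, zsmul_eq_mul] at hi
  exact hu.mul_left_cancel hi

theorem mx_pos {s V : ℕ} (gen : Fin s → ℕ) (hg : ∀ i, (gen i).Prime) (x : Fin s → ZMod V) :
    0 < mx gen x :=
  Finset.prod_pos fun i _ => pow_pos (hg i).pos _

private theorem mult_fact {s V : ℕ} [NeZero V] (gen : Fin s → ℕ) (hg : ∀ i, (gen i).Prime)
    (hi : Function.Injective gen) (x : Fin s → ZMod V) (i : Fin s) :
    (mx gen x).factorization (gen i) = (x i).val := by
  classical
  unfold mx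
  rw [Nat.factorization_prod fun j _ => pow_ne_zero _ (hg j).ne_zero, Finsupp.finsetSum_apply,
    Finset.sum_eq_single i]
  · rw [(hg i).factorization_pow, Finsupp.single_eq_same]
  · intro j _ hj
    rw [(hg j).factorization_pow, Finsupp.single_eq_of_ne]
    intro h
    exact hj (hi h).symm
  · intro h
    exact absurd (Finset.mem_univ i) h

theorem mx_inj {s V : ℕ} [NeZero V] (gen : Fin s → ℕ) (hg : ∀ i, (gen i).Prime)
    (hi : Function.Injective gen) : Function.Injective (mx (V := V) gen) := by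
  intro x y h
  funext i
  apply ZMod.val_injective V
  rw [← mult_fact gen hg hi x i, ← mult_fact gen hg hi y i, h]

theorem mx_prime {s V : ℕ} (gen : Fin s → ℕ) (hg : ∀ i, (gen i).Prime) (x : Fin s → ZMod V)
    (p : ℕ) (hp : p.Prime) (h : p ∣ mx gen x) : ∃ i, p = gen i := by
  obtain ⟨i, -, hi⟩ := (Prime.dvd_finsetProd_iff hp.prime _).1 h
  exact ⟨i, (Nat.prime_dvd_prime_iff_eq hp (hg i)).1 (hp.dvd_of_dvd_pow hi)⟩

theorem mx_le {s V : ℕ} [NeZero V] (gen : Fin s → ℕ) (b : ℕ) (hb1 : 1 ≤ b) (hb : ∀ i, gen i ≤ b)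
    (x : Fin s → ZMod V) : mx gen x ≤ b ^ (V * s) := by
  calc mx gen x ≤ ∏ _i : Fin s, b ^ V := by
        refine Finset.prod_le_prod' fun i _ => ?_
        exact (Nat.pow_le_pow_left (hb i) _).trans (Nat.pow_le_pow_right hb1 (ZMod.val_lt _).le)
    _ = b ^ (V * s) := by
        rw [Finset.prod_const, Finset.card_univ, Fintype.card_fin, ← pow_mul]

theorem mx_add {s V : ℕ} [NeZero V] (gen : Fin s → ℕ) (x : Fin s → ZMod V) (d : Fin s → ℕ)
    (h : ∀ i, (x i).val + d i < V) :
    mx gen (x + fun i => ((d i : ℕ) : ZMod V)) = mx gen x * ∏ i, gen i ^ d i := by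
  unfold mx
  rw [← Finset.prod_mul_distrib]
  refine Finset.prod_congr rfl fun i _ => ?_
  have h1 : (((d i : ℕ) : ZMod V)).val = d i := ZMod.val_natCast_of_lt (by have := h i; omega)
  rw [Pi.add_apply, ZMod.val_add_of_lt (by rw [h1]; exact h i), h1, pow_add]

end Pool.Agent.H16.GPS
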