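import Pool.Agent.H16.GPS.Num.Defs

/-!
JOB GPS-GENS (MP_c183ae_nt). Enough generator primes.

PROOF. The number of primes `≤ w` is at least `√w / 10`, say, for large `w`: from `mA_ge`, `mA_le` of H16/Mertens.lean
(`mA n = ∑_{p ≤ n} log p / p`): `log w - 3 ≤ mA w ≤ mA √w + π(w) log(√w)/√w`, `mA √w ≤ log √w + log 4`, so
`π(w) ≥ √w (½ log w - 5)/(½ log w) ≥ √w/2` (or use Mathlib's bounds). `√(ww ℓ) ~ (log ℓ)^{5/2}`, so for large `ℓ` there are at least
`⌈c log ℓ⌉ + 1` primes `≤ ww ℓ`; remove `e` and enumerate (`Finset.orderEmbOfFin` or an embedding `Fin n ↪ s`). ~90 lines.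
-/

set_option autoImplicit false

open Finset Filter

namespace Pool.Agent.H16.GPS

theorem gens_count (c L : ℝ) (h1 : 10 ≤ L) (h2 : 10 * (|c| + 1) ≤ L) :
    ⌈c * L⌉₊ + 1 ≤ Nat.primeCounting ⌊L ^ 5⌋₊ := by
  by_contra hcon
  push Not at hcon
  have hL0 : 0 < L := by linarith
  set n := ⌊L ^ 5⌋₊ with hn
  have hc0 : 0 ≤ |c| := abs_nonneg c
  have hnle : (n : ℝ) ≤ L ^ 5 := Nat.floor_le (by positivity)
  have hnge : L ^ 5 - 1 ≤ (n : ℝ) := (Nat.sub_one_lt_floor _).le
  have hL3 : 100 ≤ L ^ 2 := by nlinarith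
  have hL5 : 100 * L ^ 3 ≤ L ^ 5 := by
    have : L ^ 5 = L ^ 2 * L ^ 3 := by ring
    rw [this]
    exact mul_le_mul_of_nonneg_right hL3 (by positivity)
  have hL33 : 100 * L ≤ L ^ 3 := by
    have : L ^ 3 = L ^ 2 * L := by ring
    rw [this]
    exact mul_le_mul_of_nonneg_right hL3 hL0.le
  have hn1 : (1 : ℝ) ≤ n := by linarith
  have hlogL : Real.log L ≤ L := by
    have := Real.log_le_sub_one_of_pos hL0
    linarith
  have hlogn : Real.log n ≤ 5 * L := by
    calc Real.log n ≤ Real.log (L ^ 5) := Real.log_le_log (by linarith) hnle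
      _ = 5 * Real.log L := by rw [Real.log_pow]; norm_num
      _ ≤ 5 * L := by linarith
  have hlogn0 : 0 ≤ Real.log n := Real.log_nonneg hn1
  have hlogn1 : Real.log (n + 1) ≤ 1 + 5 * L := by
    have h3 : Real.log (n + 1) ≤ Real.log (2 * n) := Real.log_le_log (by linarith) (by linarith)
    rw [Real.log_mul (by norm_num) (by linarith)] at h3
    have h4 : Real.log 2 < 1 := by
      have := Real.log_two_lt_d9
      linarith
    linarith
  have hpsi := Chebyshev.psi_ge n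
  have hpsi2 := Chebyshev.psi_le_primeCounting_mul_log n
  have hlog2 : (69 / 100 : ℝ) ≤ Real.log 2 := by
    have := Real.log_two_gt_d9
    linarith
  -- the number of primes is small
  have hpi : (Nat.primeCounting n : ℝ) ≤ |c| * L + 2 := by
    have h5 : Nat.primeCounting n ≤ ⌈c * L⌉₊ := by omega
    have h6 : (⌈c * L⌉₊ : ℝ) ≤ |c| * L + 1 := by
      rcases le_total 0 (c * L) with h | h
      · have h7 := Nat.ceil_lt_add_one h
        have h8 : c * L ≤ |c| * L := mul_le_mul_of_nonneg_right (le_abs_self c) hL0.le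
        linarith
      · rw [Nat.ceil_eq_zero.2 h]
        push_cast
        positivity
    have h9 : (Nat.primeCounting n : ℝ) ≤ (⌈c * L⌉₊ : ℝ) := by exact_mod_cast h5
    linarith
  have hmul : (Nat.primeCounting n : ℝ) * Real.log n ≤ (|c| * L + 2) * (5 * L) :=
    mul_le_mul hpi hlogn hlogn0 (by positivity)
  have hcL : |c| * L * L ≤ L ^ 3 / 10 := by
    have h10 : |c| ≤ L / 10 := by linarith
    have h11 : |c| * (L * L) ≤ L / 10 * (L * L) := mul_le_mul_of_nonneg_right h10 (by positivity)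
    nlinarith
  have hmain : (n : ℝ) * (69 / 100) ≤ (n : ℝ) * Real.log 2 :=
    mul_le_mul_of_nonneg_left hlog2 (by linarith)
  nlinarith

theorem exists_gens (c : ℝ) : ∀ᶠ ℓ : ℝ in atTop, ∀ e : ℕ,
    ∃ gen : Fin ⌈c * Real.log ℓ⌉₊ → ℕ, Function.Injective gen ∧
      ∀ i, (gen i).Prime ∧ gen i ≤ ww ℓ ∧ gen i ≠ e := by
  filter_upwards [Real.tendsto_log_atTop.eventually (eventually_ge_atTop (10 : ℝ)),
    Real.tendsto_log_atTop.eventually (eventually_ge_atTop (10 * (|c| + 1)))] with ℓ h1 h2 e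
  have h3 := gens_count c (Real.log ℓ) h1 h2
  rw [← Nat.primesLE_card_eq_primeCounting] at h3
  have h4 : ⌈c * Real.log ℓ⌉₊ ≤ ((Nat.primesLE ⌊Real.log ℓ ^ 5⌋₊).erase e).card := by
    have := Finset.pred_card_le_card_erase (s := Nat.primesLE ⌊Real.log ℓ ^ 5⌋₊) (a := e)
    omega
  obtain ⟨t, ht, hcard⟩ := Finset.exists_subset_card_eq h4
  refine ⟨fun i => t.orderEmbOfFin hcard i, fun i j hij => (t.orderEmbOfFin hcard).injective hij,
    fun i => ?_⟩
  have h5 := ht (t.orderEmbOfFin_mem hcard i)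
  rw [Finset.mem_erase, Nat.mem_primesLE] at h5
  exact ⟨h5.2.2, h5.2.1, h5.1⟩

end Pool.Agent.H16.GPS
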