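import Pool.Agent.H16.GPS.Num.Lcm

/-!
JOB GPS-COMPL (MP_c183ae_nt). Completing the sum over pairwise coprime `lcm`s.

PROOF. `Q^#ℳ` is the sum over all `δ` (`Finset.prod_univ_sum`, `Finset.sum_product`). The difference is the sum over the `δ` for
which `lcm (δ m)` and `lcm (δ m')` are not coprime for some `m ≠ m'`; then a prime `p` divides both; `p > z` and `p ≤ R`. In
absolute value (`|lam| ≤ 1`) at most `∑_{m ≠ m'} ∑_{z < p ≤ R} (∑ over δ with p | lcm (δ m), p | lcm (δ m') of ∏ 1/lcm)`, and the inner sum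
factors as a product over `ℳ`, `≤ (3/p)² S^#ℳ` (`sum_lcm_dvd`); `∑_{p > z} 1/p² ≤ 1/z` (`sum_inv_sq_gt`). ~150 lines.
-/

set_option autoImplicit false

open Finset

namespace Pool.Agent.H16.GPS

open Pool.Agent.H16

private lemma cpl_mem {z R d : ℕ} (h : d ∈ Dr z R) :
    (1 ≤ d ∧ d ≤ R) ∧ Squarefree d ∧ ∀ p, p.Prime → p ∣ d → z < p := by
  classical
  unfold Dr at h
  simpa [Finset.mem_filter, Finset.mem_Icc] using h

private lemma cpl_prime {z R d d' p : ℕ} (h : d ∈ Dr z R) (h' : d' ∈ Dr z R) (hp : p.Prime)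
    (hd : p ∣ Nat.lcm d d') : p ∈ primesIoc z R := by
  have h1 := cpl_mem h
  have h2 := cpl_mem h'
  rw [mem_primesIoc]
  have h3 : p ∣ d ∨ p ∣ d' := by
    have : p ∣ d * d' := hd.trans (Nat.lcm_dvd_mul d d')
    exact hp.dvd_mul.1 this
  rcases h3 with h3 | h3
  · exact ⟨h1.2.2 p hp h3, (Nat.le_of_dvd (by omega) h3).trans h1.1.2, hp⟩
  · exact ⟨h2.2.2 p hp h3, (Nat.le_of_dvd (by omega) h3).trans h2.1.2, hp⟩

private lemma cpl_inner (z R p : ℕ) (hp : p.Prime) (ℳ : Finset ℕ) (m m' : ℳ) (hne : m ≠ m') :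
    ∑ δ ∈ Fintype.piFinset (fun _ : ℳ => Dr z R ×ˢ Dr z R),
      (if p ∣ Nat.lcm (δ m).1 (δ m).2 ∧ p ∣ Nat.lcm (δ m').1 (δ m').2 then
        ∏ x : ℳ, 1 / (Nat.lcm (δ x).1 (δ x).2 : ℝ) else 0) ≤
      9 * (1 / (p : ℝ) ^ 2) *
        (∑ d ∈ Dr z R, ∑ d' ∈ Dr z R, 1 / (Nat.lcm d d' : ℝ)) ^ #ℳ := by
  classical
  set S : ℝ := ∑ d ∈ Dr z R, ∑ d' ∈ Dr z R, 1 / (Nat.lcm d d' : ℝ) with hS
  have hS0 : 0 ≤ S := Finset.sum_nonneg fun d _ => Finset.sum_nonneg fun d' _ => by positivity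
  let g : ℳ → ℕ × ℕ → ℝ := fun x q =>
    if x ∈ ({m, m'} : Finset ℳ) then
      (if p ∣ Nat.lcm q.1 q.2 then 1 / (Nat.lcm q.1 q.2 : ℝ) else 0)
    else 1 / (Nat.lcm q.1 q.2 : ℝ)
  have hg : ∀ δ : ℳ → ℕ × ℕ,
      (if p ∣ Nat.lcm (δ m).1 (δ m).2 ∧ p ∣ Nat.lcm (δ m').1 (δ m').2 then
        ∏ x : ℳ, 1 / (Nat.lcm (δ x).1 (δ x).2 : ℝ) else 0) = ∏ x : ℳ, g x (δ x) := by
    intro δ
    split_ifs with h
    · refine Finset.prod_congr rfl fun x _ => ?_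
      simp only [g]
      split_ifs with h1 h2
      · rfl
      · exfalso
        simp only [Finset.mem_insert, Finset.mem_singleton] at h1
        rcases h1 with rfl | rfl
        · exact h2 h.1
        · exact h2 h.2
      · rfl
    · rw [not_and_or] at h
      symm
      rcases h with h | h
      · refine Finset.prod_eq_zero (Finset.mem_univ m) ?_
        simp only [g]
        rw [if_pos (by simp), if_neg h]
      · refine Finset.prod_eq_zero (Finset.mem_univ m') ?_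
        simp only [g]
        rw [if_pos (by simp), if_neg h]
  simp only [hg]
  rw [← Finset.prod_univ_sum (fun _ : ℳ => Dr z R ×ˢ Dr z R) g]
  have hg0 : ∀ x q, 0 ≤ g x q := by
    intro x q
    simp only [g]
    split_ifs <;> positivity
  have hle : ∀ x : ℳ, ∑ q ∈ Dr z R ×ˢ Dr z R, g x q ≤
      S * (if x ∈ ({m, m'} : Finset ℳ) then 3 / (p : ℝ) else 1) := by
    intro x
    rw [Finset.sum_product]
    simp only [g]
    split_ifs with h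
    · rw [mul_comm]
      exact sum_lcm_dvd z R p hp
    · rw [mul_one]
  calc ∏ x : ℳ, ∑ q ∈ Dr z R ×ˢ Dr z R, g x q
      ≤ ∏ x : ℳ, S * (if x ∈ ({m, m'} : Finset ℳ) then 3 / (p : ℝ) else 1) :=
        Finset.prod_le_prod (fun x _ => Finset.sum_nonneg fun q _ => hg0 x q) fun x _ => hle x
    _ = S ^ #ℳ * (3 / (p : ℝ)) ^ 2 := by
        rw [Finset.prod_mul_distrib, Finset.prod_const, Finset.card_univ, Fintype.card_coe,
          Finset.prod_ite_mem, Finset.univ_inter, Finset.prod_const, Finset.card_pair hne]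
    _ = 9 * (1 / (p : ℝ) ^ 2) * S ^ #ℳ := by
        ring

theorem completion (t z R : ℕ) (hz : 1 ≤ z) (ℳ : Finset ℕ) (hℳ : #ℳ ≤ t) (lam : ℕ → ℝ)
    (hlam : ∀ d, |lam d| ≤ 1) :
    |(∑ δ ∈ Fintype.piFinset (fun _ : ℳ => Dr z R ×ˢ Dr z R), (open Classical in
        if ∀ m m' : ℳ, m ≠ m' →
            Nat.Coprime (Nat.lcm (δ m).1 (δ m).2) (Nat.lcm (δ m').1 (δ m').2)
        then ∏ m : ℳ, lam (δ m).1 * lam (δ m).2 / (Nat.lcm (δ m).1 (δ m).2 : ℝ) else 0)) -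
      (∑ d ∈ Dr z R, ∑ d' ∈ Dr z R, lam d * lam d' / (Nat.lcm d d' : ℝ)) ^ #ℳ| ≤
      9 * (t : ℝ) ^ 2 / z * (∑ d ∈ Dr z R, ∑ d' ∈ Dr z R, 1 / (Nat.lcm d d' : ℝ)) ^ #ℳ := by
  classical
  set S : ℝ := ∑ d ∈ Dr z R, ∑ d' ∈ Dr z R, 1 / (Nat.lcm d d' : ℝ) with hS
  have hS0 : 0 ≤ S := Finset.sum_nonneg fun d _ => Finset.sum_nonneg fun d' _ => by positivity
  have hQ : (∑ d ∈ Dr z R, ∑ d' ∈ Dr z R, lam d * lam d' / (Nat.lcm d d' : ℝ)) ^ #ℳ
      = ∑ δ ∈ Fintype.piFinset (fun _ : ℳ => Dr z R ×ˢ Dr z R),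
        ∏ m : ℳ, lam (δ m).1 * lam (δ m).2 / (Nat.lcm (δ m).1 (δ m).2 : ℝ) := by
    rw [← Finset.prod_univ_sum (fun _ : ℳ => Dr z R ×ˢ Dr z R)
      (fun (_ : ℳ) (q : ℕ × ℕ) => lam q.1 * lam q.2 / (Nat.lcm q.1 q.2 : ℝ)),
      Finset.prod_const, Finset.card_univ, Fintype.card_coe, Finset.sum_product]
  rw [hQ, ← Finset.sum_sub_distrib]
  -- pointwise bound
  have hpt : ∀ δ ∈ Fintype.piFinset (fun _ : ℳ => Dr z R ×ˢ Dr z R),
      |((open Classical in if ∀ m m' : ℳ, m ≠ m' →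
            Nat.Coprime (Nat.lcm (δ m).1 (δ m).2) (Nat.lcm (δ m').1 (δ m').2)
        then ∏ m : ℳ, lam (δ m).1 * lam (δ m).2 / (Nat.lcm (δ m).1 (δ m).2 : ℝ) else 0)) -
        ∏ m : ℳ, lam (δ m).1 * lam (δ m).2 / (Nat.lcm (δ m).1 (δ m).2 : ℝ)| ≤
      ∑ q ∈ (Finset.univ : Finset ℳ).offDiag, ∑ p ∈ primesIoc z R,
        (if p ∣ Nat.lcm (δ q.1).1 (δ q.1).2 ∧ p ∣ Nat.lcm (δ q.2).1 (δ q.2).2 then
        ∏ x : ℳ, 1 / (Nat.lcm (δ x).1 (δ x).2 : ℝ) else 0) := by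
    intro δ hδ
    have hb0 : 0 ≤ ∏ x : ℳ, 1 / (Nat.lcm (δ x).1 (δ x).2 : ℝ) :=
      Finset.prod_nonneg fun x _ => by positivity
    have hterm : ∀ (q : ℳ × ℳ) (p : ℕ), 0 ≤
        (if p ∣ Nat.lcm (δ q.1).1 (δ q.1).2 ∧ p ∣ Nat.lcm (δ q.2).1 (δ q.2).2 then
        ∏ x : ℳ, 1 / (Nat.lcm (δ x).1 (δ x).2 : ℝ) else 0) := by
      intro q p
      split_ifs
      · exact hb0
      · exact le_rfl
    split_ifs with h
    · rw [sub_self, abs_zero]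
      exact Finset.sum_nonneg fun q _ => Finset.sum_nonneg fun p _ => hterm q p
    · push Not at h
      obtain ⟨m, m', hne, hcop⟩ := h
      obtain ⟨p, hp, h1, h2⟩ := Nat.Prime.not_coprime_iff_dvd.1 hcop
      have hm := Fintype.mem_piFinset.1 hδ m
      have hpP : p ∈ primesIoc z R :=
        cpl_prime (Finset.mem_product.1 hm).1 (Finset.mem_product.1 hm).2 hp h1
      have hb : |0 - ∏ m : ℳ, lam (δ m).1 * lam (δ m).2 / (Nat.lcm (δ m).1 (δ m).2 : ℝ)| ≤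
          ∏ x : ℳ, 1 / (Nat.lcm (δ x).1 (δ x).2 : ℝ) := by
        rw [zero_sub, abs_neg, Finset.abs_prod]
        refine Finset.prod_le_prod (fun x _ => abs_nonneg _) fun x _ => ?_
        rw [abs_div, abs_mul, Nat.abs_cast]
        refine div_le_div_of_nonneg_right ?_ (Nat.cast_nonneg _)
        calc |lam (δ x).1| * |lam (δ x).2| ≤ 1 * 1 :=
              mul_le_mul (hlam _) (hlam _) (abs_nonneg _) zero_le_one
          _ = 1 := one_mul 1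
      refine hb.trans ?_
      have hq : ((m, m') : ℳ × ℳ) ∈ (Finset.univ : Finset ℳ).offDiag := by
        simp [Finset.mem_offDiag, hne]
      refine le_trans ?_ (Finset.single_le_sum
        (f := fun q : ℳ × ℳ => ∑ p ∈ primesIoc z R,
          (if p ∣ Nat.lcm (δ q.1).1 (δ q.1).2 ∧ p ∣ Nat.lcm (δ q.2).1 (δ q.2).2 then
          ∏ x : ℳ, 1 / (Nat.lcm (δ x).1 (δ x).2 : ℝ) else 0))
        (fun q _ => Finset.sum_nonneg fun p _ => hterm q p) hq)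
      refine le_trans ?_ (Finset.single_le_sum
        (f := fun p : ℕ => (if p ∣ Nat.lcm (δ m).1 (δ m).2 ∧ p ∣ Nat.lcm (δ m').1 (δ m').2 then
          ∏ x : ℳ, 1 / (Nat.lcm (δ x).1 (δ x).2 : ℝ) else 0))
        (fun p _ => hterm (m, m') p) hpP)
      rw [if_pos ⟨h1, h2⟩]
  calc |∑ δ ∈ Fintype.piFinset (fun _ : ℳ => Dr z R ×ˢ Dr z R), _|
      ≤ ∑ δ ∈ Fintype.piFinset (fun _ : ℳ => Dr z R ×ˢ Dr z R), _ :=
        Finset.abs_sum_le_sum_abs _ _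
    _ ≤ ∑ δ ∈ Fintype.piFinset (fun _ : ℳ => Dr z R ×ˢ Dr z R),
        ∑ q ∈ (Finset.univ : Finset ℳ).offDiag, ∑ p ∈ primesIoc z R,
        (if p ∣ Nat.lcm (δ q.1).1 (δ q.1).2 ∧ p ∣ Nat.lcm (δ q.2).1 (δ q.2).2 then
        ∏ x : ℳ, 1 / (Nat.lcm (δ x).1 (δ x).2 : ℝ) else 0) := Finset.sum_le_sum hpt
    _ = ∑ q ∈ (Finset.univ : Finset ℳ).offDiag, ∑ p ∈ primesIoc z R,
        ∑ δ ∈ Fintype.piFinset (fun _ : ℳ => Dr z R ×ˢ Dr z R),
        (if p ∣ Nat.lcm (δ q.1).1 (δ q.1).2 ∧ p ∣ Nat.lcm (δ q.2).1 (δ q.2).2 then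
        ∏ x : ℳ, 1 / (Nat.lcm (δ x).1 (δ x).2 : ℝ) else 0) := by
        rw [Finset.sum_comm]
        refine Finset.sum_congr rfl fun q _ => ?_
        rw [Finset.sum_comm]
    _ ≤ ∑ q ∈ (Finset.univ : Finset ℳ).offDiag, ∑ p ∈ primesIoc z R,
        9 * (1 / (p : ℝ) ^ 2) * S ^ #ℳ := by
        refine Finset.sum_le_sum fun q hq => Finset.sum_le_sum fun p hp => ?_
        exact cpl_inner z R p (mem_primesIoc.1 hp).2.2 ℳ q.1 q.2 (Finset.mem_offDiag.1 hq).2.2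
    _ ≤ ∑ q ∈ (Finset.univ : Finset ℳ).offDiag, 9 * (1 / (z : ℝ)) * S ^ #ℳ := by
        refine Finset.sum_le_sum fun q _ => ?_
        rw [← Finset.sum_mul, ← Finset.mul_sum]
        refine mul_le_mul_of_nonneg_right ?_ (pow_nonneg hS0 _)
        refine mul_le_mul_of_nonneg_left ?_ (by norm_num)
        exact sum_inv_sq_gt z hz _ fun p hp => (mem_primesIoc.1 hp).1
    _ = (#((Finset.univ : Finset ℳ).offDiag) : ℝ) * (9 * (1 / (z : ℝ)) * S ^ #ℳ) := by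
        rw [Finset.sum_const, nsmul_eq_mul]
    _ ≤ (t : ℝ) ^ 2 * (9 * (1 / (z : ℝ)) * S ^ #ℳ) := by
        refine mul_le_mul_of_nonneg_right ?_ (by positivity)
        have h1 : #((Finset.univ : Finset ℳ).offDiag) ≤ t ^ 2 := by
          rw [Finset.offDiag_card, Finset.card_univ, Fintype.card_coe]
          calc #ℳ * #ℳ - #ℳ ≤ #ℳ * #ℳ := Nat.sub_le _ _
            _ ≤ t * t := Nat.mul_le_mul hℳ hℳ
            _ = t ^ 2 := (sq t).symm
        exact_mod_cast h1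
    _ = 9 * (t : ℝ) ^ 2 / z * S ^ #ℳ := by
        ring

end Pool.Agent.H16.GPS
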