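import Pool.Agent.H16.Mertens

/-!
GPS (MP_c183ae_nt): definitions for the number theory block. `ℓ` is `log` of the size of everything.
-/

set_option autoImplicit false

open Finset

namespace Pool.Agent.H16.GPS

open Pool.Agent.H16

/-- `w₁ = (log ℓ)^5` -/
noncomputable def ww (ℓ : ℝ) : ℕ := ⌊(Real.log ℓ) ^ 5⌋₊

/-- sieve depth `k' = K ⌈log ℓ⌉` -/
noncomputable def kk (K : ℕ) (ℓ : ℝ) : ℕ := K * ⌈Real.log ℓ⌉₊

/-- `z₀ = exp (η ℓ / (4 k' + 5))` -/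
noncomputable def zz (K : ℕ) (η ℓ : ℝ) : ℕ := ⌊Real.exp (η * ℓ / (4 * (kk K ℓ : ℝ) + 5))⌋₊

/-- `R = exp (η ℓ)` -/
noncomputable def RR (η ℓ : ℝ) : ℕ := ⌊Real.exp (η * ℓ)⌋₊

/-- product of the primes `p ≤ w₁`, `p ≠ e` -/
noncomputable def WW (ℓ : ℝ) (e : ℕ) : ℕ := ∏ p ∈ (primesIoc 1 (ww ℓ)).erase e, p

/-- the sieving primes: `w₁ < p ≤ z₀`, `p ≠ e` -/
noncomputable def PP (K : ℕ) (η ℓ : ℝ) (e : ℕ) : Finset ℕ :=
  (primesIoc (ww ℓ) (zz K η ℓ)).erase e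

/-- squarefree `d ≤ R` all of whose prime factors are `> z` -/
noncomputable def Dr (z R : ℕ) : Finset ℕ := by
  classical exact (Icc 1 R).filter (fun d => Squarefree d ∧ ∀ p, p.Prime → p ∣ d → z < p)

/-- `G = ∑ 1/φ(d)` -/
noncomputable def GG (z R : ℕ) : ℝ := ∑ d ∈ Dr z R, 1 / (d.totient : ℝ)

/-- Selberg weights -/
noncomputable def lamS (z R d : ℕ) : ℝ :=
  if d ∈ Dr z R then
    ((ArithmeticFunction.moebius d : ℤ) : ℝ) * d / GG z R *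
      ∑ m ∈ (Dr z R).filter (fun m => d ∣ m), 1 / (m.totient : ℝ)
  else 0

/-- `∏ (1 - 1/p)` -/
noncomputable def VP (P : Finset ℕ) : ℝ := ∏ p ∈ P, (1 - 1 / (p : ℝ))

/-- the majorant -/
noncomputable def nuN (K : ℕ) (η ℓ : ℝ) (e n : ℕ) : ℝ := by
  classical exact GG (zz K η ℓ) (RR η ℓ) / VP (PP K η ℓ e) *
    (if ∀ p ∈ PP K η ℓ e, ¬ p ∣ n then 1 else 0) *
    (∑ d ∈ (Dr (zz K η ℓ) (RR η ℓ)).filter (fun d => d ∣ n), lamS (zz K η ℓ) (RR η ℓ) d) ^ 2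

/-- `N + 1` or `N - 1` -/
def sh (σ : Bool) (N : ℕ) : ℕ := if σ then N + 1 else N - 1

end Pool.Agent.H16.GPS
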