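import Pool.Agent.H16.GPS.Num.Defs
import Pool.Agent.H16.Vprod

/-!
JOB GPS-GG (MP_c183ae_nt). Bounds for `GG`.

PROOFS. `GG_lower`: `1/φ(n) = ∑ 1/m` over the `m` with the same prime factors as `n` (for `n` squarefree), so
`GG z R ≥ ∑_{m ≤ R, all primes > z} 1/m`; multiply by `∏_{p ≤ z} (1-1/p)^{-1} = ∑_{m z-smooth} 1/m`:
`≥ ∑_{n ≤ R} 1/n ≥ log R`. So `GG z R ≥ log R * Vp z ≥ c log R / log z` (`Vp_ge`). (Finite version: compare
`∑_{n ≤ R} 1/n ≤ (∑_{m ≤ R rough} 1/m)(∑_{m ≤ R, smooth} 1/m)` and `∑_{m ≤ R, z-smooth} 1/m ≤ 1/Vp z`: Mathlib has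
`Nat.smoothNumbers`, `EulerProduct`, or use `prod_primes_le`-type lemmas in H16/Vprod, H16/USieve.)
`GG_upper`: `GG z R ≤ ∏_{p ≤ R} (1 + 1/(p-1)) = 1/Vp R ≤ (1/c) log R`. ~130 lines.
-/

set_option autoImplicit false

open Finset

namespace Pool.Agent.H16.GPS

private lemma gg_mem_Dr {z R d : ℕ} : d ∈ Dr z R ↔
    (1 ≤ d ∧ d ≤ R) ∧ Squarefree d ∧ ∀ p, p.Prime → p ∣ d → z < p := by
  unfold Dr
  simp only [Finset.mem_filter, Finset.mem_Icc]

/-- the rough radical -/
private noncomputable def ggr (z n : ℕ) : ℕ := ∏ p ∈ n.primeFactors.filter (fun p => z < p), p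

private lemma ggr_prime {z n p : ℕ} (hp : p ∈ n.primeFactors.filter (fun p => z < p)) : p.Prime :=
  Nat.prime_of_mem_primeFactors (Finset.mem_filter.mp hp).1

private lemma ggr_pf (z n : ℕ) :
    (ggr z n).primeFactors = n.primeFactors.filter (fun p => z < p) :=
  Nat.primeFactors_prod (fun _ hp => ggr_prime hp)

private lemma ggr_pos (z n : ℕ) : 0 < ggr z n :=
  Finset.prod_pos (fun _ hp => (ggr_prime hp).pos)

private lemma ggr_dvd (z n : ℕ) : ggr z n ∣ n :=
  (Finset.prod_dvd_prod_of_subset _ _ _ (Finset.filter_subset _ _)).trans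
    (Nat.prod_primeFactors_dvd n)

private lemma ggr_sqf (z n : ℕ) : Squarefree (ggr z n) := by
  unfold ggr
  apply Finset.squarefree_prod_of_pairwise_isCoprime
  · intro p hp q hq hpq
    have h1 := (Nat.coprime_primes (ggr_prime hp) (ggr_prime hq)).mpr hpq
    exact Nat.coprime_iff_isRelPrime.mp h1
  · intro p hp
    exact (ggr_prime hp).squarefree

private lemma ggr_mem {z R n : ℕ} (hn : n ∈ Icc 1 R) : ggr z n ∈ Dr z R := by
  rw [Finset.mem_Icc] at hn
  rw [gg_mem_Dr]
  refine ⟨⟨ggr_pos z n, (Nat.le_of_dvd (by omega) (ggr_dvd z n)).trans hn.2⟩, ggr_sqf z n, ?_⟩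
  intro p hp hpd
  have h1 : p ∈ (ggr z n).primeFactors := Nat.mem_primeFactors.mpr ⟨hp, hpd, (ggr_pos z n).ne'⟩
  rw [ggr_pf] at h1
  exact (Finset.mem_filter.mp h1).2

private lemma gg_totient (d : ℕ) :
    (d.totient : ℝ) = d * ∏ p ∈ d.primeFactors, (1 - 1 / (p : ℝ)) := by
  have h := Nat.totient_eq_mul_prod_factors d
  have h2 : ((d.totient : ℚ) : ℝ) = ((d * ∏ p ∈ d.primeFactors, (1 - (p : ℚ)⁻¹) : ℚ) : ℝ) := by
    rw [h]
  push_cast at h2
  rw [h2]
  congr 1
  apply Finset.prod_congr rfl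
  intro p _
  rw [one_div]

private lemma gg_fiber (z R d : ℕ) (hd : d ∈ Dr z R) :
    ∑ n ∈ (Icc 1 R).filter (fun n => ggr z n = d), (1 : ℝ) / n ≤
      1 / (d.totient : ℝ) * (Vp z)⁻¹ := by
  classical
  obtain ⟨⟨hd1, hdR⟩, hsq, hrough⟩ := gg_mem_Dr.mp hd
  set S := (Icc 1 R).filter (fun n => ggr z n = d) with hS
  have hdpos : (0 : ℝ) < d := by exact_mod_cast hd1
  have hmem : ∀ n ∈ S, 1 ≤ n ∧ d ∣ n ∧ ggr z n = d := by
    intro n hn
    rw [hS, Finset.mem_filter, Finset.mem_Icc] at hn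
    exact ⟨hn.1.1, hn.2 ▸ ggr_dvd z n, hn.2⟩
  have h1 : ∑ n ∈ S, (1 : ℝ) / n = 1 / (d : ℝ) * ∑ m ∈ S.image (fun n => n / d), fInv m := by
    rw [Finset.sum_image, Finset.mul_sum]
    · apply Finset.sum_congr rfl
      intro n hn
      obtain ⟨k, hk⟩ := (hmem n hn).2.1
      rw [fInv_apply, hk, Nat.mul_div_cancel_left _ (by omega)]
      push_cast
      rw [one_div, one_div, mul_inv]
    · intro a ha b hb hab
      obtain ⟨k, hk⟩ := (hmem a ha).2.1
      obtain ⟨l, hl⟩ := (hmem b hb).2.1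
      simp only [hk, hl, Nat.mul_div_cancel_left _ (show 0 < d by omega)] at hab
      rw [hk, hl, hab]
  set T := Nat.primesLE z ∪ d.primeFactors with hT
  have h2 : ∑ m ∈ S.image (fun n => n / d), fInv m ≤ ∏ p ∈ T with p.Prime, (1 - fInv p)⁻¹ := by
    apply sum_le_euler fInv (fun n => by rw [fInv_apply]; positivity)
      (fun p hp => by
        rw [fInv_apply]
        apply inv_lt_one_of_one_lt₀
        exact_mod_cast hp.one_lt)
    intro m hm
    rw [Finset.mem_image] at hm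
    obtain ⟨n, hn, rfl⟩ := hm
    obtain ⟨hn1, hdn, hg⟩ := hmem n hn
    rw [Nat.mem_factoredNumbers']
    intro p hp hpm
    have hpn : p ∣ n := hpm.trans (Nat.div_dvd_of_dvd hdn)
    rw [hT, Finset.mem_union, Nat.mem_primesLE]
    by_cases hpz : p ≤ z
    · exact Or.inl ⟨hpz, hp⟩
    · right
      rw [← hg, ggr_pf, Finset.mem_filter, Nat.mem_primeFactors]
      exact ⟨⟨hp, hpn, by omega⟩, by omega⟩
  have hTp : T.filter Nat.Prime = T := by
    apply Finset.filter_true_of_mem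
    intro p hp
    rw [hT, Finset.mem_union, Nat.mem_primesLE] at hp
    rcases hp with hp | hp
    · exact hp.2
    · exact Nat.prime_of_mem_primeFactors hp
  have hdisj : Disjoint (Nat.primesLE z) d.primeFactors := by
    rw [Finset.disjoint_left]
    intro p h3 h4
    rw [Nat.mem_primesLE] at h3
    have := hrough p (Nat.prime_of_mem_primeFactors h4) (Nat.dvd_of_mem_primeFactors h4)
    omega
  have h5 : ∏ p ∈ T with p.Prime, (1 - fInv p)⁻¹ =
      (Vp z)⁻¹ * (∏ p ∈ d.primeFactors, (1 - 1 / (p : ℝ)))⁻¹ := by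
    rw [hTp, hT, Finset.prod_union hdisj, Vp, ← Finset.prod_inv_distrib, ← Finset.prod_inv_distrib]
    simp only [fInv_apply, one_div]
  rw [h1, gg_totient]
  calc 1 / (d : ℝ) * ∑ m ∈ S.image (fun n => n / d), fInv m
      ≤ 1 / (d : ℝ) * ((Vp z)⁻¹ * (∏ p ∈ d.primeFactors, (1 - 1 / (p : ℝ)))⁻¹) := by
        rw [← h5]
        exact mul_le_mul_of_nonneg_left h2 (by positivity)
    _ = _ := by
        rw [one_div, one_div, mul_inv]
        ring

private lemma gg_log_le (z R : ℕ) : Real.log R ≤ GG z R * (Vp z)⁻¹ := by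
  classical
  have h1 : Real.log R ≤ ∑ n ∈ Icc 1 R, (1 : ℝ) / n := by
    have h2 := log_add_one_le_harmonic R
    rw [harmonic_eq_sum_Icc] at h2
    push_cast at h2
    have h3 : Real.log R ≤ Real.log ((R : ℝ) + 1) := by
      rcases Nat.eq_zero_or_pos R with h | h
      · rw [h]; simp
      · apply Real.log_le_log (by exact_mod_cast h)
        linarith
    simp only [one_div]
    linarith
  refine h1.trans ?_
  rw [← Finset.sum_fiberwise_of_maps_to (fun n hn => ggr_mem (z := z) hn) (fun n : ℕ => (1 : ℝ) / n),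
    GG, Finset.sum_mul]
  exact Finset.sum_le_sum (fun d hd => gg_fiber z R d hd)

theorem GG_lower : ∃ c : ℝ, 0 < c ∧ ∀ z R : ℕ, 2 ≤ z → 2 ≤ R →
    c * Real.log R / Real.log z ≤ GG z R := by
  obtain ⟨c, hc, h⟩ := Vp_ge
  refine ⟨c, hc, fun z R hz hR => ?_⟩
  have h1 := gg_log_le z R
  have hV := Vp_pos z
  have h2 : Real.log R * Vp z ≤ GG z R := by
    rw [← div_eq_mul_inv, le_div_iff₀ hV] at h1
    exact h1
  have hR1 : (1 : ℝ) < R := by exact_mod_cast hR
  have hlR : 0 ≤ Real.log R := Real.log_nonneg hR1.le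
  calc c * Real.log R / Real.log z = Real.log R * (c / Real.log z) := by ring
    _ ≤ Real.log R * Vp z := mul_le_mul_of_nonneg_left (h z hz) hlR
    _ ≤ _ := h2

theorem GG_upper : ∃ C : ℝ, 0 < C ∧ ∀ z R : ℕ, 2 ≤ R → GG z R ≤ C * Real.log R := by
  classical
  obtain ⟨c, hc, h⟩ := Vp_ge
  refine ⟨c⁻¹, by positivity, fun z R hR => ?_⟩
  have hR1 : (1 : ℝ) < R := by exact_mod_cast hR
  have hlR : 0 < Real.log R := Real.log_pos hR1
  have hVR := Vp_pos R
  have h1 : GG z R ≤ (Vp R)⁻¹ := by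
    have e1 : ∀ d ∈ Dr z R, 1 / (d.totient : ℝ) = ∏ p ∈ d.primeFactors, 1 / ((p : ℝ) - 1) := by
      intro d hd
      obtain ⟨⟨hd1, hdR⟩, hsq, hrough⟩ := gg_mem_Dr.mp hd
      have e2 : (d : ℝ) = ∏ p ∈ d.primeFactors, (p : ℝ) := by
        conv_lhs => rw [← Nat.prod_primeFactors_of_squarefree hsq]
        push_cast
        rfl
      rw [gg_totient, e2, ← Finset.prod_mul_distrib, one_div, ← Finset.prod_inv_distrib]
      apply Finset.prod_congr rfl
      intro p hp
      have hp0 : (p : ℝ) ≠ 0 := by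
        exact_mod_cast (Nat.prime_of_mem_primeFactors hp).ne_zero
      rw [one_div]
      field_simp
    have hinj : Set.InjOn Nat.primeFactors (Dr z R : Set ℕ) := by
      intro a ha b hb hab
      have ha' := (gg_mem_Dr.mp (Finset.mem_coe.mp ha)).2.1
      have hb' := (gg_mem_Dr.mp (Finset.mem_coe.mp hb)).2.1
      rw [← Nat.prod_primeFactors_of_squarefree ha', ← Nat.prod_primeFactors_of_squarefree hb', hab]
    have hf0 : ∀ p ∈ Nat.primesLE R, 0 ≤ 1 / ((p : ℝ) - 1) := by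
      intro p hp
      have : (1 : ℝ) < p := by exact_mod_cast (Nat.mem_primesLE.mp hp).2.one_lt
      apply div_nonneg (by norm_num)
      linarith
    calc GG z R = ∑ d ∈ Dr z R, ∏ p ∈ d.primeFactors, 1 / ((p : ℝ) - 1) :=
          Finset.sum_congr rfl e1
      _ = ∑ S ∈ (Dr z R).image Nat.primeFactors, ∏ p ∈ S, 1 / ((p : ℝ) - 1) := by
          rw [Finset.sum_image hinj]
      _ ≤ ∑ S ∈ (Nat.primesLE R).powerset, ∏ p ∈ S, 1 / ((p : ℝ) - 1) := by
          apply Finset.sum_le_sum_of_subset_of_nonneg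
          · intro S hS
            rw [Finset.mem_image] at hS
            obtain ⟨d, hd, rfl⟩ := hS
            rw [Finset.mem_powerset]
            intro p hp
            rw [Nat.mem_primesLE]
            have hd' := (gg_mem_Dr.mp hd).1
            exact ⟨(Nat.le_of_mem_primeFactors hp).trans hd'.2, Nat.prime_of_mem_primeFactors hp⟩
          · intro S hS _
            rw [Finset.mem_powerset] at hS
            exact Finset.prod_nonneg (fun p hp => hf0 p (hS hp))
      _ = ∏ p ∈ Nat.primesLE R, (1 + 1 / ((p : ℝ) - 1)) := by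
          rw [Finset.prod_one_add]
      _ = (Vp R)⁻¹ := by
          rw [Vp, ← Finset.prod_inv_distrib]
          apply Finset.prod_congr rfl
          intro p hp
          have h2 : (1 : ℝ) < p := by exact_mod_cast (Nat.mem_primesLE.mp hp).2.one_lt
          have h3 : (p : ℝ) - 1 ≠ 0 := by linarith
          have h4 : (p : ℝ) ≠ 0 := by linarith
          rw [show (1 : ℝ) - 1 / p = (p - 1) / p by field_simp, inv_div]
          field_simp
          ring
  refine h1.trans ?_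
  have h2 := h R hR
  have h3 : 0 < c / Real.log R := by positivity
  calc (Vp R)⁻¹ ≤ (c / Real.log R)⁻¹ := inv_anti₀ h3 h2
    _ = c⁻¹ * Real.log R := by rw [inv_div]; ring

end Pool.Agent.H16.GPS
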