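import Pool.Agent.H16.AN4
import Pool.Agent.H90.Moll

/-!
The conclusion of the mollification theorem as a predicate.
-/

set_option autoImplicit false

open Complex Finset Filter Topology

namespace Pool.Agent.H16.GPS

open Pool.Agent.H16 Pool.Agent.H90

/-- the conclusion of the mollification theorem at `ℓ` with exceptional modulus `q₁` -/
def MollAt (δ A ℓ : ℝ) (q₁ : ℕ) : Prop :=
  ∀ (q : ℕ) [NeZero q], Real.log q ≤ ℓ / (Real.log ℓ) ^ 2 → ¬ q₁ ∣ q →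
      ∀ χ : DirichletCharacter ℂ q, χ ≠ 1 → ∀ t : ℝ, |t| ≤ ℓ ^ A →
        ‖1 - DirichletCharacter.LFunction χ ((1 + 1 / ℓ : ℝ) + t * Complex.I) *
          ∑ m ∈ Finset.Icc 1 ⌊Real.exp (2 * δ * ℓ)⌋₊, ((ArithmeticFunction.moebius m : ℤ) : ℂ) *
            ((wt δ ℓ m : ℝ) : ℂ) * χ m *
              (m : ℂ) ^ (-((1 + 1 / ℓ : ℝ) + t * Complex.I : ℂ))‖ ≤ ℓ ^ (-A)

end Pool.Agent.H16.GPS
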