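import Pool.Agent.H16.GPS.Num.Defs

/-!
JOB GPS-SELA (MP_c183ae_nt). Selberg weights on the divisor-closed set `Dr z R`: size.

PROOFS. `Dr z R` (squarefree, `≤ R`, all primes `> z`) is closed under divisors and contains `1` if `R ≥ 1`; `GG > 0`.
`lamS_one`: `μ(1) * 1 / G * G = 1`. `lamS_abs`: for `d ∈ Dr`, group the `m ∈ Dr` by `l = gcd(m, d)`:
`G = ∑_{l | d} (1/φ(l)) ∑_{m', l m' ∈ Dr, (l m', d) = l} 1/φ(m') ≥ ∑_{l | d} (1/φ(l)) ∑_{n : d n ∈ Dr} 1/φ(n)` (if `d n ∈ Dr`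
then `l n ∈ Dr` and `(n, d) = 1`) `= (d/φ(d)) ∑_{n : d n ∈ Dr} 1/φ(n) = d ∑_{m ∈ Dr, d | m} 1/φ(m)`
(`∑_{l | d} 1/φ(l) = d/φ(d)` for squarefree `d`). ~120 lines.
-/

set_option autoImplicit false

open Finset

namespace Pool.Agent.H16.GPS

theorem mem_Dr {z R d : ℕ} : d ∈ Dr z R ↔
    1 ≤ d ∧ d ≤ R ∧ Squarefree d ∧ ∀ p, p.Prime → p ∣ d → z < p := by
  unfold Dr; simp [and_assoc]

theorem SelA.one_mem (z R : ℕ) (hR : 1 ≤ R) : 1 ∈ Dr z R := by
  rw [mem_Dr]
  refine ⟨le_rfl, hR, squarefree_one, ?_⟩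
  intro p hp h
  exact absurd (Nat.dvd_one.mp h) hp.ne_one

theorem GG_pos (z R : ℕ) (hR : 1 ≤ R) : 0 < GG z R := by
  unfold GG
  apply sum_pos
  · intro d hd
    have := Nat.totient_pos.mpr (mem_Dr.mp hd).1
    positivity
  · exact ⟨1, SelA.one_mem z R hR⟩

theorem lamS_one (z R : ℕ) (hR : 1 ≤ R) : lamS z R 1 = 1 := by
  have hG := GG_pos z R hR
  unfold lamS
  rw [if_pos (SelA.one_mem z R hR)]
  have : (Dr z R).filter (fun m => 1 ∣ m) = Dr z R := by
    apply filter_true_of_mem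
    intro m _
    exact one_dvd m
  rw [this]
  change _ / GG z R * GG z R = 1
  rw [div_mul_cancel₀ _ hG.ne']
  simp

theorem SelA.sum_inv_totient (d : ℕ) (hd : Squarefree d) :
    ∑ l ∈ d.divisors, 1 / (l.totient : ℝ) = (d : ℝ) / (d.totient : ℝ) := by
  have hd0 : 0 < d := Nat.pos_of_ne_zero hd.ne_zero
  have hφ : (d.totient : ℝ) ≠ 0 := by
    have := Nat.totient_pos.mpr hd0
    positivity
  have h1 : ∀ l ∈ d.divisors, 1 / (l.totient : ℝ) = ((d / l).totient : ℝ) / (d.totient : ℝ) := by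
    intro l hl
    obtain ⟨k, rfl⟩ := Nat.dvd_of_mem_divisors hl
    have hl0 : 0 < l := Nat.pos_of_ne_zero (left_ne_zero_of_mul hd.ne_zero)
    have hk0 : 0 < k := Nat.pos_of_ne_zero (right_ne_zero_of_mul hd.ne_zero)
    rw [Nat.mul_div_cancel_left k hl0, Nat.totient_mul (Nat.squarefree_mul_iff.mp hd).1]
    have h1 : (l.totient : ℝ) ≠ 0 := by
      have := Nat.totient_pos.mpr hl0
      positivity
    have h2 : (k.totient : ℝ) ≠ 0 := by
      have := Nat.totient_pos.mpr hk0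
      positivity
    push_cast
    field_simp
  rw [sum_congr rfl h1, ← sum_div, Nat.sum_div_divisors d (fun x => (x.totient : ℝ)),
    ← Nat.cast_sum, Nat.sum_totient]

theorem SelA.main (z R d : ℕ) (hd : d ∈ Dr z R) :
    (d : ℝ) * ∑ m ∈ (Dr z R).filter (fun m => d ∣ m), 1 / (m.totient : ℝ) ≤ GG z R := by
  classical
  obtain ⟨hd1, hdR, hdsf, hdp⟩ := mem_Dr.mp hd
  set E := (Dr z R).filter (fun n => d * n ∈ Dr z R) with hE
  have hcop : ∀ n ∈ E, Nat.Coprime d n := by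
    intro n hn
    rw [hE, mem_filter] at hn
    exact (Nat.squarefree_mul_iff.mp (mem_Dr.mp hn.2).2.2.1).1
  have hφ : (d.totient : ℝ) ≠ 0 := by
    have := Nat.totient_pos.mpr hd1
    positivity
  -- the sum over the multiples of `d`
  have hS : ∑ m ∈ (Dr z R).filter (fun m => d ∣ m), 1 / (m.totient : ℝ)
      = (1 / (d.totient : ℝ)) * ∑ n ∈ E, 1 / (n.totient : ℝ) := by
    have himg : (Dr z R).filter (fun m => d ∣ m) = E.image (fun n => d * n) := by
      ext m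
      simp only [mem_filter, mem_image, hE]
      constructor
      · rintro ⟨hm, ⟨n, rfl⟩⟩
        refine ⟨n, ⟨?_, hm⟩, rfl⟩
        obtain ⟨h1, h2, h3, h4⟩ := mem_Dr.mp hm
        have hn : 1 ≤ n := Nat.pos_of_ne_zero (by rintro rfl; simp at h1)
        rw [mem_Dr]
        refine ⟨hn, le_trans (Nat.le_mul_of_pos_left n hd1) h2, h3.squarefree_of_dvd ⟨d, by ring⟩, ?_⟩
        intro p hp hpn
        exact h4 p hp (hpn.mul_left d)
      · rintro ⟨n, ⟨_, hn⟩, rfl⟩
        exact ⟨hn, Dvd.intro _ rfl⟩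
    rw [himg, sum_image (fun a _ b _ h => Nat.eq_of_mul_eq_mul_left hd1 h), mul_sum]
    apply sum_congr rfl
    intro n hn
    rw [Nat.totient_mul (hcop n hn)]
    push_cast
    rw [one_div, one_div, one_div, mul_inv]
  rw [hS, ← mul_assoc, mul_one_div, ← SelA.sum_inv_totient d hdsf, sum_mul_sum, ← sum_product']
  -- the injection
  have hinj : Set.InjOn (fun q : ℕ × ℕ => q.1 * q.2) (d.divisors ×ˢ E : Finset (ℕ × ℕ)) := by
    rintro ⟨l, n⟩ h1 ⟨l', n'⟩ h2 h
    simp only [coe_product, Set.mem_prod, mem_coe, Nat.mem_divisors] at h1 h2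
    simp only at h
    have e1 : Nat.gcd d (l * n) = l := by
      rw [Nat.Coprime.gcd_mul_right_cancel_right l (hcop n h1.2).symm]
      exact Nat.gcd_eq_right h1.1.1
    have e2 : Nat.gcd d (l' * n') = l' := by
      rw [Nat.Coprime.gcd_mul_right_cancel_right l' (hcop n' h2.2).symm]
      exact Nat.gcd_eq_right h2.1.1
    have hl : l = l' := by rw [← e1, h, e2]
    subst hl
    have hl0 : 0 < l := Nat.pos_of_dvd_of_pos h1.1.1 hd1
    have := Nat.eq_of_mul_eq_mul_left hl0 h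
    rw [this]
  have hterm : ∀ q ∈ d.divisors ×ˢ E, 1 / (q.1.totient : ℝ) * (1 / (q.2.totient : ℝ))
      = 1 / ((q.1 * q.2).totient : ℝ) := by
    rintro ⟨l, n⟩ hq
    rw [mem_product] at hq
    have hc : Nat.Coprime l n :=
      Nat.Coprime.coprime_dvd_left (Nat.dvd_of_mem_divisors hq.1) (hcop n hq.2)
    simp only
    rw [Nat.totient_mul hc]
    push_cast
    rw [one_div, one_div, one_div, mul_inv]
  rw [sum_congr rfl hterm, ← sum_image (f := fun m : ℕ => 1 / (m.totient : ℝ)) hinj]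
  unfold GG
  apply sum_le_sum_of_subset_of_nonneg
  · intro m hm
    rw [mem_image] at hm
    obtain ⟨⟨l, n⟩, hq, rfl⟩ := hm
    rw [mem_product, hE, mem_filter, Nat.mem_divisors] at hq
    simp only at hq
    obtain ⟨h1, h2, h3, h4⟩ := mem_Dr.mp hq.2.2
    have hdvd : l * n ∣ d * n := Nat.mul_dvd_mul_right hq.1.1 n
    simp only
    rw [mem_Dr]
    refine ⟨Nat.pos_of_dvd_of_pos hdvd h1, le_trans (Nat.le_of_dvd h1 hdvd) h2,
      h3.squarefree_of_dvd hdvd, fun p hp hpn => h4 p hp (hpn.trans hdvd)⟩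
  · intro m hm _
    positivity

theorem lamS_abs (z R d : ℕ) : |lamS z R d| ≤ 1 := by
  unfold lamS
  split_ifs with hd
  · have hR : 1 ≤ R := le_trans (mem_Dr.mp hd).1 (mem_Dr.mp hd).2.1
    have hG := GG_pos z R hR
    have h := SelA.main z R d hd
    have hS : 0 ≤ ∑ m ∈ (Dr z R).filter (fun m => d ∣ m), 1 / (m.totient : ℝ) :=
      sum_nonneg (fun m _ => by positivity)
    have hμ : |((ArithmeticFunction.moebius d : ℤ) : ℝ)| ≤ 1 := by
      have := ArithmeticFunction.abs_moebius_le_one (n := d)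
      exact_mod_cast this
    rw [abs_mul, abs_div, abs_mul, abs_of_pos hG, abs_of_nonneg hS, Nat.abs_cast, div_mul_eq_mul_div,
      div_le_one hG, mul_assoc]
    calc _ ≤ 1 * ((d : ℝ) * ∑ m ∈ (Dr z R).filter (fun m => d ∣ m), 1 / (m.totient : ℝ)) :=
          mul_le_mul_of_nonneg_right hμ (by positivity)
      _ ≤ GG z R := by rw [one_mul]; exact h
  · simp

end Pool.Agent.H16.GPS
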